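import Pool.Agent.H25.CLE.Full

/-! MODULE CHART (MP_5d7c93_pr, project CLE of helper25; overview /team-store/H25_CLE.md)
Almost surely every chart is OK. measOK_ae: mu_supp, mu_full_ae, mu_int on a countable exhaustion of HP by compact sets. length_ae: dist_length for U = HP, f = id, and push id HP G = G for G ⊆ HP.
chartOK: riem z₀ V satisfies IsRiem (Exists.choose_spec, hP.riem_exists), so cF = riem ∘ aff is IsConf HP V (IsConf.comp, aff_isConf). length, measOK: ae_cG. mem: mem_carpet_pull twice (V ⊆ ball c r ⊆ HP).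
cov: CovLen.comp of (1) dist_cov for (HP, aff j) at cG (ae_cG; push (aff j) HP (cG) = pull (riem..) HP G by push_pull), (2) dist_loc, (3) dist_cov for (U, f) [V ⊆ HP]. Note that deriv of compositions is handled by CovLen.comp.
meas: mu_loc, mu_cov for (HP, aff j) at cG, covMeas_comp (the measure is carried by the carpet, so by HP). -/

set_option autoImplicit false

namespace Pool.H25.CLE

open MeasureTheory ProbabilityTheory Set Metric Complex
open scoped ENNReal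

/-- the compact sets exhausting the half plane -/
theorem Chart_exh (K : Set ℂ) (hK : IsCompact K) (hKH : K ⊆ HP) :
    ∃ n : ℕ, K ⊆ closedBall (0 : ℂ) n ∩ {z : ℂ | 1 / ((n : ℝ) + 1) ≤ z.im} := by
  rcases K.eq_empty_or_nonempty with h0 | hne
  · exact ⟨0, by simp [h0]⟩
  obtain ⟨z₁, hz₁, hmin⟩ := hK.exists_isMinOn hne Complex.continuous_im.continuousOn
  have hpos : 0 < z₁.im := hKH hz₁
  obtain ⟨R, hR⟩ := hK.isBounded.subset_closedBall (0 : ℂ)
  obtain ⟨n₁, hn₁⟩ := exists_nat_ge R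
  obtain ⟨n₂, hn₂⟩ := exists_nat_one_div_lt hpos
  refine ⟨max n₁ n₂, fun z hz => ⟨?_, ?_⟩⟩
  · have h1 := hR hz
    rw [mem_closedBall] at h1 ⊢
    refine h1.trans (hn₁.trans ?_)
    exact_mod_cast le_max_left n₁ n₂
  · have h1 : z₁.im ≤ z.im := hmin hz
    have h2 : 1 / (((max n₁ n₂ : ℕ) : ℝ) + 1) ≤ 1 / ((n₂ : ℝ) + 1) := by
      apply one_div_le_one_div_of_le (by positivity)
      have : (n₂ : ℝ) ≤ ((max n₁ n₂ : ℕ) : ℝ) := by exact_mod_cast le_max_right n₁ n₂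
      linarith
    change 1 / (((max n₁ n₂ : ℕ) : ℝ) + 1) ≤ z.im
    linarith

theorem Chart_compact (n : ℕ) : IsCompact (closedBall (0 : ℂ) n ∩ {z : ℂ | 1 / ((n : ℝ) + 1) ≤ z.im}) :=
  (isCompact_closedBall (0 : ℂ) n).inter_right (isClosed_le continuous_const Complex.continuous_im)

theorem Chart_sub (n : ℕ) : closedBall (0 : ℂ) n ∩ {z : ℂ | 1 / ((n : ℝ) + 1) ≤ z.im} ⊆ HP := by
  rintro z ⟨-, hz⟩
  change 1 / ((n : ℝ) + 1) ≤ z.im at hz
  have h : 0 < 1 / ((n : ℝ) + 1) := by positivity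
  exact lt_of_lt_of_le h hz

theorem measOK_ae {P : Measure Conf} (hP : IsCLE P) {d d' : ℝ} (Γ : Geometry P d d') :
    ∀ᵐ G ∂P, MeasOK (carpet HP G) (Γ.mu HP G) := by
  have h3 : ∀ᵐ G ∂P, ∀ n : ℕ, Γ.mu HP G (closedBall (0 : ℂ) n ∩ {z : ℂ | 1 / ((n : ℝ) + 1) ≤ z.im}) < ∞ := by
    rw [ae_all_iff]
    intro n
    exact ae_lt_top ((Γ.mu HP).measurable_coe (Chart_compact n).measurableSet)
      (Γ.mu_int _ (Chart_compact n) (Chart_sub n)).ne
  filter_upwards [Γ.mu_supp, mu_full_ae hP Γ, h3] with G h1 h2 h3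
  refine ⟨h1, h2, fun K hK hKH => ?_⟩
  obtain ⟨n, hn⟩ := Chart_exh K hK hKH
  exact (measure_mono hn).trans_lt (h3 n)

theorem Chart_id : IsConf id HP HP :=
  ⟨isOpen_HP, differentiableOn_id, fun z _ => by simp, injOn_id _, image_id _⟩

theorem Chart_push_id {G : Conf} (hG : (G : Set ℂ) ⊆ HP) : push id HP G = G := by
  apply TopologicalSpace.Opens.ext
  rw [push_coe Chart_id, image_id, inter_eq_self_of_subset_right hG]

theorem length_ae {P : Measure Conf} (hP : IsCLE P) {d d' : ℝ} (Γ : Geometry P d d') :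
    ∀ᵐ G ∂P, IsLengthMetric HP (carpet HP G) (Γ.dist HP G) := by
  filter_upwards [Γ.dist_length HP id Chart_id, hP.loops] with G h1 h2
  rwa [Chart_push_id h2.sub] at h1

theorem Chart_riem {z₀ : ℂ} {V : Conf} (h : ∃ φ, IsRiem φ z₀ (V : Set ℂ)) : IsRiem (riem z₀ V) z₀ (V : Set ℂ) := by
  unfold riem
  rw [dif_pos h]
  exact h.choose_spec

theorem Chart_dom_subset (Q : Set ℂ) (z₀ : ℂ) (G : Conf) : (dom Q z₀ G : Set ℂ) ⊆ Q :=
  interior_subset.trans ((connectedComponentIn_subset _ _).trans sdiff_subset)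

theorem chartOK {P : Measure Conf} (hP : IsCLE P) {d d' : ℝ} (Γ : Geometry P d d') {U : Set ℂ} {f : ℂ → ℂ}
    (hf : IsConf f HP U) {c : ℂ} {r : ℝ} (hr : 0 < r) (hQ : ball c r ⊆ HP) {z₀ : ℂ} (hz : z₀ ∈ ball c r)
    (j : ℤ × ℤ) : ∀ᵐ G ∂P, G ∈ good (ball c r) z₀ → ChartOK Γ U f c r z₀ j G := by
  filter_upwards [hP.riem_exists c r hr hQ z₀ hz, ae_cG hP hr hQ hz j (length_ae hP Γ),
    ae_cG hP hr hQ hz j (measOK_ae hP Γ), ae_cG hP hr hQ hz j (Γ.dist_cov HP (aff j) (aff_isConf j)),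
    ae_cG hP hr hQ hz j (Γ.mu_cov HP (aff j) (aff_isConf j)), Γ.dist_loc c r hr hQ z₀ hz,
    Γ.mu_loc c r hr hQ z₀ hz, Γ.dist_cov U f hf] with G h1 h2 h3 h4 h5 h6 h7 h8 hG
  specialize h1 hG
  specialize h2 hG
  specialize h3 hG
  specialize h4 hG
  specialize h5 hG
  specialize h6 hG
  specialize h7 hG
  have hR : IsConf (riem z₀ (dom (ball c r) z₀ G)) HP (dom (ball c r) z₀ G : Set ℂ) := (Chart_riem h1).1
  have hV : (dom (ball c r) z₀ G : Set ℂ) ⊆ HP := (Chart_dom_subset _ _ _).trans hQ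
  have hA := aff_isConf j
  have hpp : push (aff j) HP (cG c r z₀ j G) = pull (riem z₀ (dom (ball c r) z₀ G)) HP G :=
    push_pull hA _ (pull_subset _ _ _)
  rw [hpp] at h4 h5
  have hconf : IsConf (cF c r z₀ j G) HP (dom (ball c r) z₀ G : Set ℂ) := hA.comp hR
  have hmem1 : ∀ z ∈ HP, (z ∈ carpet HP (cG c r z₀ j G) ↔
      aff j z ∈ carpet HP (pull (riem z₀ (dom (ball c r) z₀ G)) HP G)) := fun z hz =>
    mem_carpet_pull hA subset_rfl _ hz
  have hmem2 : ∀ z ∈ HP, (z ∈ carpet HP (pull (riem z₀ (dom (ball c r) z₀ G)) HP G) ↔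
      riem z₀ (dom (ball c r) z₀ G) z ∈ carpet HP G) := fun z hz =>
    mem_carpet_pull hR hV _ hz
  have hmem : ∀ z ∈ HP, (z ∈ carpet HP (cG c r z₀ j G) ↔ cF c r z₀ j G z ∈ carpet HP G) := fun z hz =>
    (hmem1 z hz).trans (hmem2 _ (hA.mapsTo hz))
  refine ⟨hconf, h2, h3, ?_, ?_, hmem⟩
  · have h9 : CovLen d (cF c r z₀ j G) (carpet HP (cG c r z₀ j G)) (Γ.dist HP (cG c r z₀ j G)) (Γ.dist HP G) :=
      CovLen.comp (f := aff j) (g := riem z₀ (dom (ball c r) z₀ G)) hA hR subset_rfl sdiff_subset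
        (fun z hz => (hmem1 z hz.1).1 hz) h4 h6
    exact CovLen.comp (f := cF c r z₀ j G) (g := f) hconf hf hV sdiff_subset
      (fun z hz => (hmem z hz.1).1 hz) h9 h8
  · rw [h7, h5]
    apply covMeas_comp hA hR
    refine measure_mono_null ?_ h3.supp
    exact compl_subset_compl.2 sdiff_subset

end Pool.H25.CLE
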