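import Pool.Agent.H25.CLE.GoodA
import Pool.Agent.H25.CLE.Chart

/-! MODULE BAD (MP_5d7c93_pr, project CLE of helper25; overview /team-store/H25_CLE.md)
The set of bad pairs (G,w) is measurable (Γ.dist HP jointly measurable, Γ.mu HP an s-finite kernel: `measurable_kernel_prodMk_left`, `measurable_kernel_prodMk_left'` on Conf × ℂ with the kernel Kernel.comap / prodMkRight of
Γ.mu HP; the inner function (G,z) ↦ mu G {u | D z u < 1/(2(k+1))} is measurable, so the second set is measurable too). bad_decr: the expected masses of the bad sets tend to 0: they decrease (EGood.mono) and for a.e. G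
(length_ae, measOK_ae), mu-a.e. w ∈ cell lies in the carpet and is EGood for some n (exists_EGood), the mass of the cell is a.s. finite and has finite expectation (closure of the cell is a compact subset of HP, mu_int):
continuity from above for the finite measure P ⊗ₘ mu restricted to cell, or dominated convergence twice. -/

set_option autoImplicit false

namespace Pool.H25.CLE

open MeasureTheory ProbabilityTheory Set Metric Complex
open scoped ENNReal

/-- the bad pairs -/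
def badSet {P : Measure Conf} {d d' : ℝ} (Γ : Geometry P d d') (n : ℕ) : Set (Conf × ℂ) :=
  {p | p.2 ∈ cell ∧ ¬ EGood (Γ.dist HP p.1) (Γ.mu HP p.1) (LL d) n p.2}

/-- a parametrised section of the kernel -/
private theorem bad_param {P : Measure Conf} {d d' : ℝ} (Γ : Geometry P d d')
    {T : Set ((Conf × ℂ) × ℂ)} (hT : MeasurableSet T) :
    Measurable fun p : Conf × ℂ => Γ.mu HP p.1 {u | (p, u) ∈ T} := by
  have := Γ.mu_sfinite HP
  have h := Kernel.measurable_kernel_prodMk_left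
    (κ := (Γ.mu HP).comap (Prod.fst : Conf × ℂ → Conf) measurable_fst) hT
  exact h

private theorem bad_dist {P : Measure Conf} {d d' : ℝ} (Γ : Geometry P d d') (b : ℝ) :
    MeasurableSet {q : (Conf × ℂ) × ℂ | Γ.dist HP q.1.1 q.1.2 q.2 < b} := by
  have h : Measurable fun q : (Conf × ℂ) × ℂ => Γ.dist HP q.1.1 q.1.2 q.2 :=
    (Γ.dist_meas HP).comp (f := fun q : (Conf × ℂ) × ℂ => (q.1.1, q.1.2, q.2)) (by fun_prop)
  exact measurableSet_lt h measurable_const

theorem measurableSet_badSet {P : Measure Conf} {d d' : ℝ} (Γ : Geometry P d d') (n : ℕ) :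
    MeasurableSet (badSet Γ n) := by
  have hA : ∀ k : ℕ, MeasurableSet {p : Conf × ℂ | Γ.mu HP p.1 {u | Γ.dist HP p.1 p.2 u < LL d / (k + 1) ∧
      t1 ≤ ‖u - p.2‖ ∧ ‖u - p.2‖ ≤ 1 / 2} = 0} := by
    intro k
    have hn : Measurable fun q : (Conf × ℂ) × ℂ => ‖q.2 - q.1.2‖ := by fun_prop
    have hT : MeasurableSet {q : (Conf × ℂ) × ℂ | Γ.dist HP q.1.1 q.1.2 q.2 < LL d / (k + 1) ∧
        t1 ≤ ‖q.2 - q.1.2‖ ∧ ‖q.2 - q.1.2‖ ≤ 1 / 2} :=
      (bad_dist Γ _).inter ((measurableSet_le measurable_const hn).inter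
        (measurableSet_le hn measurable_const))
    exact (bad_param Γ hT) (measurableSet_singleton 0)
  have hB : ∀ k : ℕ, MeasurableSet {p : Conf × ℂ | Γ.mu HP p.1 {z | Γ.dist HP p.1 p.2 z < LL d / (k + 1) ∧
      ‖z - p.2‖ ≤ 1 / 2 ∧ ((n : ℝ≥0∞) + 1) * Γ.mu HP p.1 {u | Γ.dist HP p.1 z u < 1 / (2 * (k + 1))}
        < Γ.mu HP p.1 (ball p.2 (1 / 256))} = 0} := by
    intro k
    have hn : Measurable fun q : (Conf × ℂ) × ℂ => ‖q.2 - q.1.2‖ := by fun_prop
    have h1 : Measurable fun p : Conf × ℂ => Γ.mu HP p.1 {u | Γ.dist HP p.1 p.2 u < 1 / (2 * (k + 1))} :=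
      bad_param Γ (bad_dist Γ (1 / (2 * (k + 1))))
    have h2 : Measurable fun p : Conf × ℂ => Γ.mu HP p.1 (ball p.2 (1 / 256)) := by
      have hT : MeasurableSet {q : (Conf × ℂ) × ℂ | ‖q.2 - q.1.2‖ < 1 / 256} :=
        measurableSet_lt hn measurable_const
      have h3 := bad_param Γ hT
      have h4 : (fun p : Conf × ℂ => Γ.mu HP p.1 (ball p.2 (1 / 256)))
          = fun p : Conf × ℂ => Γ.mu HP p.1 {u | (p, u) ∈ {q : (Conf × ℂ) × ℂ | ‖q.2 - q.1.2‖ < 1 / 256}} := by
        funext p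
        congr 1
        ext u
        simp only [mem_ball, dist_eq_norm, mem_ofPred_eq]
      rw [h4]
      exact h3
    have h5 : Measurable fun q : (Conf × ℂ) × ℂ =>
        Γ.mu HP q.1.1 {u | Γ.dist HP q.1.1 q.2 u < 1 / (2 * (k + 1))} :=
      h1.comp (f := fun q : (Conf × ℂ) × ℂ => (q.1.1, q.2)) (by fun_prop)
    have h6 : Measurable fun q : (Conf × ℂ) × ℂ => Γ.mu HP q.1.1 (ball q.1.2 (1 / 256)) :=
      h2.comp (f := fun q : (Conf × ℂ) × ℂ => q.1) (by fun_prop)
    have hT : MeasurableSet {q : (Conf × ℂ) × ℂ | Γ.dist HP q.1.1 q.1.2 q.2 < LL d / (k + 1) ∧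
        ‖q.2 - q.1.2‖ ≤ 1 / 2 ∧
        ((n : ℝ≥0∞) + 1) * Γ.mu HP q.1.1 {u | Γ.dist HP q.1.1 q.2 u < 1 / (2 * (k + 1))}
          < Γ.mu HP q.1.1 (ball q.1.2 (1 / 256))} :=
      (bad_dist Γ _).inter ((measurableSet_le hn measurable_const).inter
        (measurableSet_lt (h5.const_mul _) h6))
    exact (bad_param Γ hT) (measurableSet_singleton 0)
  have hE : MeasurableSet {p : Conf × ℂ | EGood (Γ.dist HP p.1) (Γ.mu HP p.1) (LL d) n p.2} := by
    have : {p : Conf × ℂ | EGood (Γ.dist HP p.1) (Γ.mu HP p.1) (LL d) n p.2}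
        = ⋃ k : ℕ, ({p : Conf × ℂ | Γ.mu HP p.1 {u | Γ.dist HP p.1 p.2 u < LL d / (k + 1) ∧
          t1 ≤ ‖u - p.2‖ ∧ ‖u - p.2‖ ≤ 1 / 2} = 0} ∩
          {p : Conf × ℂ | Γ.mu HP p.1 {z | Γ.dist HP p.1 p.2 z < LL d / (k + 1) ∧
            ‖z - p.2‖ ≤ 1 / 2 ∧ ((n : ℝ≥0∞) + 1) * Γ.mu HP p.1 {u | Γ.dist HP p.1 z u < 1 / (2 * (k + 1))}
            < Γ.mu HP p.1 (ball p.2 (1 / 256))} = 0}) := by
      ext p
      simp only [EGood, mem_ofPred_eq, mem_iUnion, mem_inter_iff]
    rw [this]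
    exact MeasurableSet.iUnion fun k => (hA k).inter (hB k)
  exact (measurable_snd measurableSet_cell).inter hE.compl

/-- mass of a section, as a measurable function of the configuration -/
theorem measurable_section {P : Measure Conf} {d d' : ℝ} (Γ : Geometry P d d') {B : Set (Conf × ℂ)}
    (hB : MeasurableSet B) : Measurable fun G => Γ.mu HP G {w | (G, w) ∈ B} := by
  have := Γ.mu_sfinite HP
  exact Kernel.measurable_kernel_prodMk_left (κ := Γ.mu HP) hB

private theorem bad_compact : ∃ K : Set ℂ, IsCompact K ∧ K ⊆ HP ∧ cell ⊆ K := by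
  refine ⟨closedBall I (1 / 256), isCompact_closedBall _ _, ?_, fun w hw => ?_⟩
  · exact (closedBall_subset_ball (by norm_num)).trans (ball_subset_HP I_mem_cell)
  · exact ball_subset_closedBall (cell_subset_ball hw)

theorem tendsto_bad {P : Measure Conf} (hP : IsCLE P) {d d' : ℝ} (Γ : Geometry P d d') :
    Filter.Tendsto (fun n => ∫⁻ G, Γ.mu HP G {w | (G, w) ∈ badSet Γ n} ∂P) Filter.atTop (nhds 0) := by
  obtain ⟨K, hK1, hK2, hK3⟩ := bad_compact
  have hL : 0 < LL d := by unfold LL; positivity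
  have hanti : ∀ G : Conf, Antitone fun n => {w | (G, w) ∈ badSet Γ n} := by
    intro G n n' h w hw
    exact ⟨hw.1, fun hE => hw.2 (hE.mono h)⟩
  have hsub : ∀ (G : Conf) (n : ℕ), {w | (G, w) ∈ badSet Γ n} ⊆ K := fun G n w hw => hK3 hw.1
  have h0 : ∫⁻ G, Γ.mu HP G {w | (G, w) ∈ badSet Γ 0} ∂P ≠ ∞ :=
    (lt_of_le_of_lt (lintegral_mono fun G => measure_mono (hsub G 0)) (Γ.mu_int K hK1 hK2)).ne
  have hlim : ∀ᵐ G ∂P, Filter.Tendsto (fun n => Γ.mu HP G {w | (G, w) ∈ badSet Γ n}) Filter.atTop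
      (nhds 0) := by
    filter_upwards [measOK_ae hP Γ, length_ae hP Γ] with G hm hD
    have h1 : Γ.mu HP G (⋂ n, {w | (G, w) ∈ badSet Γ n}) = 0 := by
      refine measure_mono_null ?_ hm.supp
      intro w hw hwX
      rw [mem_iInter] at hw
      obtain ⟨n, hn⟩ := exists_EGood hD hm hL (hw 0).1 hwX
      exact (hw n).2 hn
    rw [← h1]
    refine tendsto_measure_iInter_atTop (fun n => ?_) (hanti G) ⟨0, ?_⟩
    · exact ((measurable_prodMk_left) (measurableSet_badSet Γ n)).nullMeasurableSet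
    · exact (lt_of_le_of_lt (measure_mono (hsub G 0)) (hm.locfin K hK1 hK2)).ne
  have := lintegral_tendsto_of_tendsto_of_antitone (μ := P)
    (f := fun n G => Γ.mu HP G {w | (G, w) ∈ badSet Γ n}) (F := fun _ => 0)
    (fun n => (measurable_section Γ (measurableSet_badSet Γ n)).aemeasurable)
    (Filter.Eventually.of_forall fun G n n' h => measure_mono (hanti G h)) h0 hlim
  simpa using this

end Pool.H25.CLE
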