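import Mathlib

/-! MODULE BES (MP_5d7c93_pr, project CLE of helper25; overview /team-store/H25_CLE.md)
A set with a uniformly dense complement at arbitrarily small scales is null (Besicovitch density theorem). W = an open set, e.g. exhausted by the open sets W_R = {x ∈ W | ‖x‖ < R, infDist x Wᶜ > 1/R} (if Wᶜ is empty W = univ: use ‖x‖ < R only)
with compact closure in W. It suffices: for every x₀ ∈ W there is an open ball b around x₀ with m (L ∩ b) = 0 (Lindelöf / `measure_null_of_locally_null`, L ⊆ W). Take b = ball x₀ s with closedBall x₀ s ⊆ W, m' = m.restrict b: a finite measure.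
`Besicovitch.ae_tendsto_measure_inter_div m' L`: for (m'.restrict L)-a.e. x, m'(L ∩ closedBall x R)/m'(closedBall x R) → 1 as R → 0+. For such an x ∈ L ∩ b with the hypothesis h: for the small radii R (closedBall x R ⊆ b):
0 < m(closedBall x R) < ∞ and m(closedBall x R) ≤ C m(closedBall x R \ L), so the ratio is ≤ 1 - 1/C along a sequence R → 0: contradiction. Hence (m'.restrict L) univ = 0. -/

set_option autoImplicit false

namespace Pool.H25.CLE

open MeasureTheory Set Metric Complex
open scoped ENNReal NNReal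

theorem null_of_dens {m : Measure ℂ} {W L : Set ℂ} (hW : IsOpen W)
    (hfin : ∀ K : Set ℂ, IsCompact K → K ⊆ W → m K < ∞) (hL : MeasurableSet L) (hLW : L ⊆ W)
    (h : ∀ᵐ x ∂m, x ∈ L → ∃ C : ℝ≥0, ∀ ε : ℝ, 0 < ε → ∃ R : ℝ, 0 < R ∧ R < ε ∧
      0 < m (closedBall x R) ∧ m (closedBall x R) ≤ C * m (closedBall x R \ L)) :
    m L = 0 := by
  refine measure_null_of_locally_null L (fun x₀ hx₀ => ?_)
  obtain ⟨s, hs, hsW⟩ : ∃ s : ℝ, 0 < s ∧ closedBall x₀ s ⊆ W :=
    Metric.nhds_basis_closedBall.mem_iff.1 (hW.mem_nhds (hLW hx₀))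
  refine ⟨L ∩ ball x₀ s, inter_mem_nhdsWithin _ (ball_mem_nhds _ hs), ?_⟩
  have hbfin : m (ball x₀ s) < ∞ :=
    (measure_mono ball_subset_closedBall).trans_lt (hfin _ (isCompact_closedBall _ _) hsW)
  have : IsFiniteMeasure (m.restrict (ball x₀ s)) :=
    ⟨by rw [Measure.restrict_apply_univ]; exact hbfin⟩
  have key : ∀ᵐ x ∂((m.restrict (ball x₀ s)).restrict L), False := by
    have e1 := Besicovitch.ae_tendsto_measure_inter_div (m.restrict (ball x₀ s)) L
    have e2 : ∀ᵐ x ∂((m.restrict (ball x₀ s)).restrict L), x ∈ L := ae_restrict_mem hL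
    have e3 : ∀ᵐ x ∂((m.restrict (ball x₀ s)).restrict L), x ∈ ball x₀ s :=
      ae_restrict_of_ae (ae_restrict_mem measurableSet_ball)
    have e4 := ae_restrict_of_ae (s := L) (ae_restrict_of_ae (s := ball x₀ s) h)
    filter_upwards [e1, e2, e3, e4] with x h1 h2 h3 h4
    obtain ⟨C, hC⟩ := h4 h2
    -- radius with `closedBall x R ⊆ ball x₀ s`
    obtain ⟨ρ, hρ, hρs⟩ : ∃ ρ : ℝ, 0 < ρ ∧ ball x ρ ⊆ ball x₀ s :=
      Metric.mem_nhds_iff.1 (isOpen_ball.mem_nhds h3)
    have hC0 : C ≠ 0 := by
      rintro rfl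
      obtain ⟨R, -, -, hpos, hle⟩ := hC 1 one_pos
      simp at hle
      exact absurd hle hpos.ne'
    have ht : (1 : ℝ≥0∞) - (C : ℝ≥0∞)⁻¹ < 1 :=
      ENNReal.sub_lt_self ENNReal.one_ne_top one_ne_zero (by simp)
    have hev := h1.eventually (lt_mem_nhds ht)
    rw [eventually_nhdsWithin_iff, Metric.eventually_nhds_iff] at hev
    obtain ⟨δ, hδ, hδ'⟩ := hev
    obtain ⟨R, hR0, hRε, hpos, hle⟩ := hC (min δ ρ) (lt_min hδ hρ)
    have hlt := hδ' (y := R) (by
      rw [Real.dist_eq, sub_zero, abs_of_pos hR0]; exact hRε.trans_le (min_le_left _ _)) hR0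
    have hsub : closedBall x R ⊆ ball x₀ s :=
      (closedBall_subset_ball (hRε.trans_le (min_le_right _ _))).trans hρs
    have m1 : m.restrict (ball x₀ s) (closedBall x R) = m (closedBall x R) := by
      rw [Measure.restrict_apply measurableSet_closedBall, inter_eq_self_of_subset_left hsub]
    have m2 : m.restrict (ball x₀ s) (L ∩ closedBall x R) = m (L ∩ closedBall x R) := by
      rw [Measure.restrict_apply (hL.inter measurableSet_closedBall),
        inter_eq_self_of_subset_left (inter_subset_right.trans hsub)]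
    rw [m1, m2] at hlt
    have hafin : m (closedBall x R) ≠ ∞ := ((measure_mono hsub).trans_lt hbfin).ne
    have hsum : m (L ∩ closedBall x R) + m (closedBall x R \ L) = m (closedBall x R) := by
      rw [inter_comm]; exact measure_inter_add_sdiff _ hL
    have hinv : (C : ℝ≥0∞)⁻¹ ≤ m (closedBall x R \ L) / m (closedBall x R) := by
      rw [ENNReal.le_div_iff_mul_le (Or.inl hpos.ne') (Or.inl hafin), mul_comm,
        ← div_eq_mul_inv]
      exact ENNReal.div_le_of_le_mul' hle
    have hle1 : m (L ∩ closedBall x R) / m (closedBall x R) + (C : ℝ≥0∞)⁻¹ ≤ 1 := by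
      calc _ ≤ m (L ∩ closedBall x R) / m (closedBall x R)
              + m (closedBall x R \ L) / m (closedBall x R) := by gcongr
        _ = (m (L ∩ closedBall x R) + m (closedBall x R \ L)) / m (closedBall x R) := by
            rw [ENNReal.add_div]
        _ = 1 := by rw [hsum]; exact ENNReal.div_self hpos.ne' hafin
    exact absurd (ENNReal.le_sub_of_add_le_right (by simpa using hC0) hle1) (not_le.2 hlt)
  have h0 : (m.restrict (ball x₀ s)).restrict L = 0 := by
    rw [← ae_eq_bot]
    exact Filter.eventually_false_iff_eq_bot.1 key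
  have h1 : ((m.restrict (ball x₀ s)).restrict L) univ = 0 := by rw [h0]; simp
  rwa [Measure.restrict_apply_univ, Measure.restrict_apply hL] at h1

/-- an atom gives a contradiction -/
theorem not_atom_of_dens {m : Measure ℂ} {W : Set ℂ} (hW : IsOpen W)
    (hfin : ∀ K : Set ℂ, IsCompact K → K ⊆ W → m K < ∞) {x : ℂ} (hx : x ∈ W)
    (h : ∃ C : ℝ≥0, ∀ ε : ℝ, 0 < ε → ∃ R : ℝ, 0 < R ∧ R < ε ∧
      m (closedBall x R) ≤ C * m (closedBall x R \ {x})) :
    m {x} = 0 := by
  obtain ⟨s, hs, hsW⟩ : ∃ s : ℝ, 0 < s ∧ closedBall x s ⊆ W :=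
    Metric.nhds_basis_closedBall.mem_iff.1 (hW.mem_nhds hx)
  have hbfin : m (closedBall x s) < ∞ := hfin _ (isCompact_closedBall _ _) hsW
  obtain ⟨C, hC⟩ := h
  -- measures of punctured balls tend to zero
  have htend : Filter.Tendsto (fun n : ℕ => m (closedBall x (s / (n + 1)) \ {x})) Filter.atTop
      (nhds (m (⋂ n : ℕ, (closedBall x (s / (n + 1)) \ {x})))) := by
    refine tendsto_measure_iInter_atTop (fun n => ?_) ?_ ⟨0, ?_⟩
    · exact (measurableSet_closedBall.diff (measurableSet_singleton x)).nullMeasurableSet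
    · intro a b hab
      refine sdiff_subset_sdiff_left (closedBall_subset_closedBall ?_)
      have : (a : ℝ) ≤ b := by exact_mod_cast hab
      exact div_le_div_of_nonneg_left hs.le (by positivity) (by linarith)
    · exact ((measure_mono (sdiff_subset.trans (by simp))).trans_lt hbfin).ne
  have hempty : (⋂ n : ℕ, (closedBall x (s / (n + 1)) \ {x})) = ∅ := by
    rw [eq_empty_iff_forall_notMem]
    intro y hy
    rw [mem_iInter] at hy
    have hyx : y ≠ x := (hy 0).2
    have hd : 0 < dist y x := dist_pos.2 hyx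
    obtain ⟨n, hn⟩ := exists_nat_gt (s / dist y x)
    have h1 : dist y x ≤ s / (n + 1) := (hy n).1
    rw [le_div_iff₀ (by positivity)] at h1
    rw [div_lt_iff₀ hd] at hn
    nlinarith
  rw [hempty, measure_empty] at htend
  by_contra hne
  have hpos : 0 < m {x} := pos_iff_ne_zero.2 hne
  have htendC : Filter.Tendsto (fun n : ℕ => (C : ℝ≥0∞) * m (closedBall x (s / (n + 1)) \ {x}))
      Filter.atTop (nhds 0) := by
    have := ENNReal.Tendsto.const_mul (a := (C : ℝ≥0∞)) htend (Or.inr ENNReal.coe_ne_top)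
    simpa using this
  obtain ⟨n, hn⟩ := (htendC.eventually (gt_mem_nhds hpos)).exists
  obtain ⟨R, hR0, hRε, hle⟩ := hC (s / (n + 1)) (by positivity)
  have h1 : m {x} ≤ m (closedBall x R) :=
    measure_mono (by simpa using hR0.le)
  have h2 : m (closedBall x R \ {x}) ≤ m (closedBall x (s / (n + 1)) \ {x}) :=
    measure_mono (sdiff_subset_sdiff_left (closedBall_subset_closedBall hRε.le))
  have h3 : m {x} ≤ C * m (closedBall x (s / (n + 1)) \ {x}) :=
    h1.trans (hle.trans (by gcongr))
  exact absurd h3 (not_le.2 hn)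

end Pool.H25.CLE
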