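import Pool.Agent.H25.CLE.Inv

/-! MODULE CELL (MP_5d7c93_pr, project CLE of helper25; overview /team-store/H25_CLE.md)
The affine images of the cell form a partition of the half plane: aff (n,m) '' cell = {λ^n ≤ im < λ^(n+1), m λ^n/512 ≤ re < (m+1) λ^n/512}, λ = 513/512.
For x ∈ HP: `exists_mem_Ico_zpow` gives n, then m = floor of 512 re(x)/λ^n. Cell ⊆ ball I (1/256): ‖w - I‖ ≤ |re| + |im - 1| < 2/512. -/

set_option autoImplicit false

namespace Pool.H25.CLE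

open MeasureTheory Set Metric Complex

theorem measurableSet_cell : MeasurableSet cell := by
  unfold cell
  exact (measurableSet_le measurable_const Complex.measurable_re).inter
    ((measurableSet_lt Complex.measurable_re measurable_const).inter
    ((measurableSet_le measurable_const Complex.measurable_im).inter
    (measurableSet_lt Complex.measurable_im measurable_const)))

theorem I_mem_cell : I ∈ cell := by
  refine ⟨?_, ?_, ?_, ?_⟩ <;> norm_num

theorem cell_subset_ball {w : ℂ} (hw : w ∈ cell) : w ∈ ball I (1 / 256) := by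
  obtain ⟨h1, h2, h3, h4⟩ := hw
  rw [mem_ball, dist_eq_norm]
  refine (Complex.norm_le_abs_re_add_abs_im _).trans_lt ?_
  simp only [sub_re, I_re, sub_zero, sub_im, I_im]
  rw [abs_of_nonneg h1, abs_of_nonneg (by linarith)]
  linarith

theorem ball_subset_HP {w : ℂ} (hw : w ∈ cell) : ball w 1 ⊆ HP := by
  intro v hv
  rw [mem_ball, dist_eq_norm] at hv
  have h1 := (Complex.abs_im_le_norm (v - w)).trans_lt hv
  rw [sub_im, abs_lt] at h1
  have h2 := hw.2.2.1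
  change 0 < v.im
  linarith [h1.1]

theorem cell_subset_HP : cell ⊆ HP := fun w hw => ball_subset_HP hw (mem_ball_self one_pos)

theorem Cell_pos (n : ℤ) : (0 : ℝ) < (513 / 512 : ℝ) ^ n := by positivity

theorem Cell_re (j : ℤ × ℤ) (z : ℂ) : (aff j z).re = (513 / 512 : ℝ) ^ j.1 * (z.re + (j.2 : ℝ) / 512) := by
  unfold aff
  rw [Complex.re_ofReal_mul, Complex.add_re, Complex.ofReal_re]

theorem Cell_im (j : ℤ × ℤ) (z : ℂ) : (aff j z).im = (513 / 512 : ℝ) ^ j.1 * z.im := by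
  unfold aff
  rw [Complex.im_ofReal_mul, Complex.add_im, Complex.ofReal_im, add_zero]

theorem Cell_hasDerivAt (j : ℤ × ℤ) (z : ℂ) :
    HasDerivAt (aff j) (((513 / 512 : ℝ) ^ j.1 : ℝ) : ℂ) z := by
  unfold aff
  simpa using ((hasDerivAt_id z).add_const (((j.2 : ℝ) / 512 : ℝ) : ℂ)).const_mul
    (((513 / 512 : ℝ) ^ j.1 : ℝ) : ℂ)

theorem deriv_aff (j : ℤ × ℤ) (z : ℂ) : deriv (aff j) z = (((513 / 512 : ℝ) ^ j.1 : ℝ) : ℂ) :=
  (Cell_hasDerivAt j z).deriv

theorem aff_isConf (j : ℤ × ℤ) : IsConf (aff j) HP HP where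
  isOpen := isOpen_HP
  diff := fun z _ => (Cell_hasDerivAt j z).differentiableAt.differentiableWithinAt
  deriv_ne := fun z _ => by
    rw [deriv_aff]
    exact Complex.ofReal_ne_zero.2 (Cell_pos _).ne'
  inj := by
    intro z _ z' _ h
    unfold aff at h
    have h1 := mul_left_cancel₀ (Complex.ofReal_ne_zero.2 (Cell_pos j.1).ne') h
    exact add_right_cancel h1
  image := by
    ext x
    constructor
    · rintro ⟨z, hz, rfl⟩
      change 0 < (aff j z).im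
      rw [Cell_im]
      exact mul_pos (Cell_pos _) hz
    · intro hx
      have hne : (((513 / 512 : ℝ) ^ j.1 : ℝ) : ℂ) ≠ 0 := Complex.ofReal_ne_zero.2 (Cell_pos _).ne'
      have hz : aff j (x / (((513 / 512 : ℝ) ^ j.1 : ℝ) : ℂ) - (((j.2 : ℝ) / 512 : ℝ) : ℂ)) = x := by
        unfold aff
        rw [sub_add_cancel, mul_div_cancel₀ _ hne]
      refine ⟨_, ?_, hz⟩
      change 0 < (x / (((513 / 512 : ℝ) ^ j.1 : ℝ) : ℂ) - (((j.2 : ℝ) / 512 : ℝ) : ℂ)).im
      have h1 : (0 : ℝ) < x.im := hx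
      rw [← hz, Cell_im] at h1
      exact (pos_iff_pos_of_mul_pos h1).1 (Cell_pos _)

theorem exists_aff_inv (j : ℤ × ℤ) : ∃ B : ℂ → ℂ, IsConf B HP HP ∧ (∀ z ∈ HP, B (aff j z) = z) ∧
    (∀ z ∈ HP, aff j (B z) = z) := (aff_isConf j).exists_inv

theorem cell_cover {x : ℂ} (hx : x ∈ HP) : ∃ (j : ℤ × ℤ), ∃ w ∈ cell, aff j w = x := by
  obtain ⟨n, hn1, hn2⟩ := exists_mem_Ico_zpow (x := x.im) (y := (513 / 512 : ℝ)) hx (by norm_num)
  have hp := Cell_pos n
  set m : ℤ := ⌊512 * (x.re / (513 / 512 : ℝ) ^ n)⌋ with hm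
  have hm1 : (m : ℝ) ≤ 512 * (x.re / (513 / 512 : ℝ) ^ n) := Int.floor_le _
  have hm2 : 512 * (x.re / (513 / 512 : ℝ) ^ n) < m + 1 := Int.lt_floor_add_one _
  refine ⟨(n, m), ⟨x.re / (513 / 512 : ℝ) ^ n - (m : ℝ) / 512, x.im / (513 / 512 : ℝ) ^ n⟩, ⟨?_, ?_, ?_, ?_⟩, ?_⟩
  · change 0 ≤ x.re / (513 / 512 : ℝ) ^ n - (m : ℝ) / 512
    linarith
  · change x.re / (513 / 512 : ℝ) ^ n - (m : ℝ) / 512 < 1 / 512
    linarith
  · change 1 ≤ x.im / (513 / 512 : ℝ) ^ n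
    rw [le_div_iff₀ hp, one_mul]; exact hn1
  · change x.im / (513 / 512 : ℝ) ^ n < 513 / 512
    rw [div_lt_iff₀ hp, mul_comm, ← zpow_add_one₀ (by norm_num)]; exact hn2
  · apply Complex.ext
    · rw [Cell_re]
      change (513 / 512 : ℝ) ^ n * (x.re / (513 / 512 : ℝ) ^ n - (m : ℝ) / 512 + (m : ℝ) / 512) = x.re
      rw [sub_add_cancel, mul_div_cancel₀ _ hp.ne']
    · rw [Cell_im]
      change (513 / 512 : ℝ) ^ n * (x.im / (513 / 512 : ℝ) ^ n) = x.im
      rw [mul_div_cancel₀ _ hp.ne']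

theorem Cell_aux {n n' : ℤ} {a b : ℝ} (ha : 1 ≤ a) (hb : b < 513 / 512)
    (h : (513 / 512 : ℝ) ^ n * a = (513 / 512 : ℝ) ^ n' * b) : n ≤ n' := by
  by_contra hcon
  push Not at hcon
  have h1 : (513 / 512 : ℝ) ^ (n' + 1) ≤ (513 / 512 : ℝ) ^ n := zpow_le_zpow_right₀ (by norm_num) hcon
  have h2 : (513 / 512 : ℝ) ^ n ≤ (513 / 512 : ℝ) ^ n * a := le_mul_of_one_le_right (Cell_pos n).le ha
  have h3 : (513 / 512 : ℝ) ^ n' * b < (513 / 512 : ℝ) ^ n' * (513 / 512) :=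
    mul_lt_mul_of_pos_left hb (Cell_pos n')
  rw [zpow_add_one₀ (by norm_num)] at h1
  linarith

theorem cell_disj {j j' : ℤ × ℤ} {w w' : ℂ} (hw : w ∈ cell) (hw' : w' ∈ cell) (h : aff j w = aff j' w') :
    j = j' := by
  have him := congrArg Complex.im h
  have hre := congrArg Complex.re h
  rw [Cell_im, Cell_im] at him
  rw [Cell_re, Cell_re] at hre
  have h1 : j.1 = j'.1 :=
    le_antisymm (Cell_aux hw.2.2.1 hw'.2.2.2 him) (Cell_aux hw'.2.2.1 hw.2.2.2 him.symm)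
  rw [h1] at hre
  have h2 := mul_left_cancel₀ (Cell_pos j'.1).ne' hre
  obtain ⟨a1, a2, -, -⟩ := hw
  obtain ⟨b1, b2, -, -⟩ := hw'
  have h3 : (j.2 : ℝ) < j'.2 + 1 := by linarith
  have h4 : (j'.2 : ℝ) < j.2 + 1 := by linarith
  have h5 : j.2 < j'.2 + 1 := by exact_mod_cast h3
  have h6 : j'.2 < j.2 + 1 := by exact_mod_cast h4
  exact Prod.ext h1 (by omega)

end Pool.H25.CLE
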