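import Pool.Agent.H25.CLE.Inv

/-! MODULE COV (MP_5d7c93_pr, project CLE of helper25; overview /team-store/H25_CLE.md)
Composition of covariance relations: apply the first one to (γ, lam), the second one to (f ∘ γ, lam * ‖f' ∘ γ‖^d) (continuous and nonnegative: deriv f is continuous on the open set U, non-zero),
and deriv (g ∘ f) = g'(f) f' with Real.mul_rpow. LenLE only sees the values of the density on [0,a]: `intervalIntegral.integral_congr`. -/

set_option autoImplicit false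

namespace Pool.H25.CLE

open Set Metric Complex

theorem cov_lenLE_congr {D : ℂ → ℂ → ℝ} {γ : ℝ → ℂ} {lam lam' : ℝ → ℝ} {a : ℝ}
    (h : ∀ s ∈ Icc 0 a, lam s = lam' s) : LenLE D γ lam a ↔ LenLE D γ lam' a := by
  have key : ∀ {l l' : ℝ → ℝ}, (∀ s ∈ Icc 0 a, l s = l' s) → LenLE D γ l a → LenLE D γ l' a := by
    intro l l' hl H s t hs hst hta
    have h1 := H s t hs hst hta
    have h2 : ∫ u in s..t, l u = ∫ u in s..t, l' u := by
      apply intervalIntegral.integral_congr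
      intro u hu
      rw [uIcc_of_le hst] at hu
      exact hl u ⟨le_trans hs hu.1, le_trans hu.2 hta⟩
    rwa [h2] at h1
  exact ⟨key h, key (fun s hs => (h s hs).symm)⟩

theorem cov_deriv_cont {f : ℂ → ℂ} {U V : Set ℂ} (hf : IsConf f U V) : ContinuousOn (deriv f) U :=
  (hf.diff.deriv hf.isOpen).continuousOn

theorem CovLen.comp {d : ℝ} {f g : ℂ → ℂ} {U V V' W X Y : Set ℂ} {D₁ D₂ D₃ : ℂ → ℂ → ℝ} (hf : IsConf f U V)
    (hg : IsConf g V' W) (hV : V ⊆ V') (hX : X ⊆ U) (hXY : MapsTo f X Y) (h₁ : CovLen d f X D₁ D₂)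
    (h₂ : CovLen d g Y D₂ D₃) : CovLen d (fun z => g (f z)) X D₁ D₃ := by
  intro γ lam a ha hγ hγX hlam hlam0
  have e1 := h₁ γ lam a ha hγ hγX hlam hlam0
  have hγU : MapsTo γ (Icc 0 a) U := fun s hs => hX (hγX hs)
  have hfγ : ContinuousOn (f ∘ γ) (Icc 0 a) := hf.diff.continuousOn.comp hγ hγU
  have hfγY : MapsTo (f ∘ γ) (Icc 0 a) Y := fun s hs => hXY (hγX hs)
  have hd : ContinuousOn (fun s => lam s * ‖deriv f (γ s)‖ ^ d) (Icc 0 a) := by
    apply hlam.mul
    apply ContinuousOn.rpow_const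
    · exact ((cov_deriv_cont hf).comp hγ hγU).norm
    · intro s hs
      left
      exact (norm_pos_iff.2 (hf.deriv_ne _ (hγU hs))).ne'
  have hd0 : ∀ s ∈ Icc 0 a, 0 ≤ lam s * ‖deriv f (γ s)‖ ^ d := fun s hs =>
    mul_nonneg (hlam0 s hs) (Real.rpow_nonneg (norm_nonneg _) _)
  have e2 := h₂ (f ∘ γ) _ a ha hfγ hfγY hd hd0
  rw [e1, e2]
  have e3 : ((fun z => g (f z)) ∘ γ) = g ∘ (f ∘ γ) := rfl
  rw [e3]
  apply cov_lenLE_congr
  intro s hs
  have hg' := hg.restrict hf.isOpen_target hV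
  rw [hf.deriv_comp hg' (hγU hs), norm_mul, Real.mul_rpow (norm_nonneg _) (norm_nonneg _)]
  simp only [Function.comp]
  ring

theorem cov_mod {f : ℂ → ℂ} {U V : Set ℂ} (hf : IsConf f U V) :
    ∃ f0 : ℂ → ℂ, Measurable f0 ∧ ∀ z ∈ U, f0 z = f z := by
  classical
  refine ⟨U.piecewise f (fun _ => 0), ?_, ?_⟩
  · exact hf.diff.continuousOn.measurable_piecewise continuousOn_const hf.isOpen.measurableSet
  · intro z hz
    simp [hz]

theorem cov_dens_meas (d' : ℝ) (f : ℂ → ℂ) :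
    Measurable (fun z => ENNReal.ofReal (‖deriv f z‖ ^ d')) :=
  ENNReal.measurable_ofReal.comp ((measurable_deriv f).norm.pow_const d')

theorem cov_apply {d' : ℝ} {f f0 : ℂ → ℂ} {U : Set ℂ} (_hf0 : Measurable f0) (hff : ∀ z ∈ U, f0 z = f z)
    {m : MeasureTheory.Measure ℂ} (hm : m Uᶜ = 0) :
    covMeas d' f m = (m.withDensity fun z => ENNReal.ofReal (‖deriv f z‖ ^ d')).map f0 := by
  unfold covMeas
  apply MeasureTheory.Measure.map_congr
  have h1 : ∀ᵐ z ∂m, z ∈ U := by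
    rw [MeasureTheory.ae_iff]
    exact hm
  have h2 := (MeasureTheory.withDensity_absolutelyContinuous m
    (fun z => ENNReal.ofReal (‖deriv f z‖ ^ d'))).ae_le h1
  filter_upwards [h2] with z hz using (hff z hz).symm

/-- the covariance of measures composes too -/
theorem covMeas_comp {d' : ℝ} {f g : ℂ → ℂ} {U V W : Set ℂ} (hf : IsConf f U V) (hg : IsConf g V W)
    {m : MeasureTheory.Measure ℂ} (hm : m Uᶜ = 0) :
    covMeas d' g (covMeas d' f m) = covMeas d' (fun z => g (f z)) m := by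
  obtain ⟨f0, hf0, hff⟩ := cov_mod hf
  obtain ⟨g0, hg0, hgg⟩ := cov_mod hg
  have hfV : ∀ z ∈ U, f z ∈ V := fun z hz => hf.mapsTo hz
  have hmU : ∀ᵐ z ∂m, z ∈ U := by
    rw [MeasureTheory.ae_iff]
    exact hm
  have hV : (covMeas d' f m) Vᶜ = 0 := by
    rw [cov_apply hf0 hff hm, MeasureTheory.Measure.map_apply hf0 hf.isOpen_target.measurableSet.compl]
    apply MeasureTheory.withDensity_absolutelyContinuous
    refine MeasureTheory.measure_mono_null ?_ hm
    intro z hz hzU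
    apply hz
    rw [hff z hzU]
    exact hfV z hzU
  have hgf : ∀ z ∈ U, (fun z => g0 (f0 z)) z = g (f z) := by
    intro z hz
    simp only
    rw [hff z hz, hgg _ (hfV z hz)]
  rw [cov_apply hg0 hgg hV, cov_apply (f := fun z => g (f z)) (hg0.comp hf0) hgf hm,
    cov_apply hf0 hff hm]
  ext s hs
  have hA : MeasurableSet (f0 ⁻¹' (g0 ⁻¹' s)) := hf0 (hg0 hs)
  rw [MeasureTheory.Measure.map_apply hg0 hs, MeasureTheory.withDensity_apply _ (hg0 hs),
    MeasureTheory.setLIntegral_map (hg0 hs) (cov_dens_meas d' g) hf0,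
    MeasureTheory.setLIntegral_withDensity_eq_setLIntegral_mul _ (cov_dens_meas d' f)
      (g := fun x => ENNReal.ofReal (‖deriv g (f0 x)‖ ^ d')) ((cov_dens_meas d' g).comp hf0) hA,
    MeasureTheory.Measure.map_apply (hg0.comp hf0) hs,
    MeasureTheory.withDensity_apply _ (hg0.comp hf0 hs)]
  apply MeasureTheory.lintegral_congr_ae
  filter_upwards [MeasureTheory.ae_restrict_of_ae hmU] with z hz
  simp only [Pi.mul_apply]
  rw [hff z hz, hf.deriv_comp hg hz, norm_mul, Real.mul_rpow (norm_nonneg _) (norm_nonneg _),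
    ENNReal.ofReal_mul (Real.rpow_nonneg (norm_nonneg _) _), mul_comm]

/-- mass of an image under a covariant push-forward -/
theorem covMeas_image {d' : ℝ} {f : ℂ → ℂ} {U V : Set ℂ} (hf : IsConf f U V) {m : MeasureTheory.Measure ℂ}
    (hm : m Uᶜ = 0) {S : Set ℂ} (hS : MeasurableSet S) (hSU : S ⊆ U) :
    covMeas d' f m (f '' S) = ∫⁻ z in S, ENNReal.ofReal (‖deriv f z‖ ^ d') ∂m := by
  obtain ⟨f0, hf0, hff⟩ := cov_mod hf
  have himg : MeasurableSet (f '' S) :=
    hS.image_of_continuousOn_injOn (hf.diff.continuousOn.mono hSU) (hf.inj.mono hSU)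
  rw [cov_apply hf0 hff hm, MeasureTheory.Measure.map_apply hf0 himg,
    MeasureTheory.withDensity_apply _ (hf0 himg)]
  apply MeasureTheory.setLIntegral_congr
  have hmU : ∀ᵐ z ∂m, z ∈ U := by
    rw [MeasureTheory.ae_iff]
    exact hm
  filter_upwards [hmU] with z hz
  apply propext
  constructor
  · rintro ⟨w, hw, hwz⟩
    rw [hff z hz] at hwz
    have := hf.inj (hSU hw) hz hwz
    rwa [← this]
  · intro hzS
    exact ⟨z, hzS, (hff z hz).symm⟩

end Pool.H25.CLE
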