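import Mathlib

/-! # MP_5d7c93_pr : definitions (CLE, carpet, carpet metric, carpet measure)

The reference domain is the upper half plane `HP`; everything in another simply connected domain `U`
is transported by a conformal isomorphism `f : HP → U`.

* A configuration of a (non-nested, simple) loop ensemble in `HP` is encoded by the open set
  `G` = union of the interiors of the loops; the loops are the boundaries of the connected components
  of `G` (the holes); the carpet is `HP \ G`.
* `IsCLE P`: the Sheffield-Werner axioms for the law `P` of a simple conformal loop ensemble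
  (disjoint simple loops, local finiteness, conformal invariance, restriction property in discs).
* `Geometry P d d'`: a carpet metric and a carpet measure: length metric, local, conformally covariant
  with exponent `d`; measure non-zero, carried by the carpet, local (Markov property), conformally covariant with
  exponent `d'`, with locally finite intensity.
-/

set_option autoImplicit false

namespace Pool.H25.CLE

open MeasureTheory ProbabilityTheory Set Metric Complex
open scoped ENNReal

/-- the open upper half plane, the reference domain -/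
def HP : Set ℂ := {z | 0 < z.im}

/-- `f` is a conformal isomorphism from the open set `U` onto `V` -/
structure IsConf (f : ℂ → ℂ) (U V : Set ℂ) : Prop where
  isOpen : IsOpen U
  diff : DifferentiableOn ℂ f U
  deriv_ne : ∀ z ∈ U, deriv f z ≠ 0
  inj : InjOn f U
  image : f '' U = V

/-- a configuration: an open set (the union of the interiors of the loops) -/
abbrev Conf := TopologicalSpace.Opens ℂ

/-- the usual σ-algebra on open sets: generated by the events `K ⊆ G`, `K` compact -/
instance confMeasurableSpace : MeasurableSpace Conf :=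
  MeasurableSpace.generateFrom {A | ∃ K : Set ℂ, IsCompact K ∧ A = {G : Conf | K ⊆ (G : Set ℂ)}}

/-- the carpet in `U`: the points of `U` surrounded by no loop -/
def carpet (U : Set ℂ) (G : Conf) : Set ℂ := U \ (G : Set ℂ)

/-- image of a configuration in `U` under a conformal map `f` on `U` (where `f '' (U ∩ G)` is open) -/
def push (f : ℂ → ℂ) (U : Set ℂ) (G : Conf) : Conf := ⟨interior (f '' (U ∩ (G : Set ℂ))), isOpen_interior⟩

/-- pull-back of a configuration to `U` under a conformal map `f` on `U` (where `U ∩ f ⁻¹' G` is open) -/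
def pull (f : ℂ → ℂ) (U : Set ℂ) (G : Conf) : Conf := ⟨interior (U ∩ f ⁻¹' (G : Set ℂ)), isOpen_interior⟩

/-- the holes: connected components of `G`, i.e. interiors of the loops -/
def IsHole (G : Conf) (O : Set ℂ) : Prop := ∃ z ∈ (G : Set ℂ), O = connectedComponentIn (G : Set ℂ) z

/-- `G` is the union of the interiors of a locally finite family of disjoint simple loops in `HP`, none of
which surrounds another -/
structure IsLoopConf (G : Conf) : Prop where
  sub : (G : Set ℂ) ⊆ HP
  /-- each hole is a bounded Jordan domain: its boundary is a simple loop in `HP`, the hole is the inside of the loop -/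
  loop : ∀ O, IsHole G O → Bornology.IsBounded O ∧ closure O ⊆ HP ∧
    ∃ ℓ : Circle → ℂ, Continuous ℓ ∧ Function.Injective ℓ ∧ frontier O = range ℓ
  /-- the hole is the whole inside of the loop (nothing is slit out) -/
  reg : ∀ O, IsHole G O → interior (closure O) = O
  disj : ∀ O O', IsHole G O → IsHole G O' → O ≠ O' → Disjoint (closure O) (closure O')
  locfin : ∀ K : Set ℂ, IsCompact K → K ⊆ HP → ∀ ε : ℝ, 0 < ε →
    {O | IsHole G O ∧ (closure O ∩ K).Nonempty ∧ ε ≤ diam O}.Finite

/-- exploration of the complement of `Q`: the closed filled loops which do not stay in `Q` -/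
def hull (Q : Set ℂ) (G : Conf) : Set ℂ := {z | ∃ O, IsHole G O ∧ ¬ closure O ⊆ Q ∧ z ∈ closure O}

/-- the component containing `z₀` of what is left of `Q` when the loops which do not stay in `Q` (and their
interiors) are removed -/
def dom (Q : Set ℂ) (z₀ : ℂ) (G : Conf) : Conf :=
  ⟨interior (connectedComponentIn (Q \ hull Q G) z₀), isOpen_interior⟩

/-- `φ` is the Riemann map from `HP` onto `V` with `φ(i) = z₀`, `φ'(i) > 0` -/
def IsRiem (φ : ℂ → ℂ) (z₀ : ℂ) (V : Set ℂ) : Prop :=
  IsConf φ HP V ∧ φ I = z₀ ∧ ∃ c : ℝ, 0 < c ∧ deriv φ I = c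

open Classical in
/-- the Riemann map from `HP` onto `V` normalised at `z₀` (if there is one) -/
noncomputable def riem (z₀ : ℂ) (V : Conf) : ℂ → ℂ :=
  if h : ∃ φ, IsRiem φ z₀ (V : Set ℂ) then h.choose else id

/-- the event that `z₀` is not surrounded by or on an explored loop -/
def good (Q : Set ℂ) (z₀ : ℂ) : Set Conf := {G | z₀ ∉ hull Q G}

/-- **Sheffield-Werner axioms**: `P` is the law of a simple conformal loop ensemble in the half plane.
Restriction property: in each disc `Q`, conditionally on the domain `V = dom Q z₀ G` left by the loops which do not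
stay in `Q`, the loops in `V` are the conformal image of an independent copy of the ensemble. -/
structure IsCLE (P : Measure Conf) : Prop where
  prob : IsProbabilityMeasure P
  loops : ∀ᵐ G ∂P, IsLoopConf G
  /-- conformal invariance -/
  conf_inv : ∀ ψ : ℂ → ℂ, IsConf ψ HP HP → P.map (push ψ HP) = P
  /-- the explored domain is (simply connected, so) conformally equivalent to the half plane -/
  riem_exists : ∀ (c : ℂ) (r : ℝ), 0 < r → ball c r ⊆ HP → ∀ z₀ ∈ ball c r,
    ∀ᵐ G ∂P, G ∈ good (ball c r) z₀ → ∃ φ, IsRiem φ z₀ (dom (ball c r) z₀ G : Set ℂ)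
  /-- restriction property: the domain `V` and the pulled back configuration are independent, the latter
  has law `P` -/
  restriction : ∀ (c : ℂ) (r : ℝ), 0 < r → ball c r ⊆ HP → ∀ z₀ ∈ ball c r,
    (P.restrict (good (ball c r) z₀)).map
        (fun G => (dom (ball c r) z₀ G, pull (riem z₀ (dom (ball c r) z₀ G)) HP G)) =
      ((P.restrict (good (ball c r) z₀)).map (dom (ball c r) z₀)).prod P
  /-- measurability of the exploration -/
  good_meas : ∀ (c : ℂ) (r : ℝ), 0 < r → ball c r ⊆ HP → ∀ z₀ ∈ ball c r,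
    NullMeasurableSet (good (ball c r) z₀) P
  dom_meas : ∀ (c : ℂ) (r : ℝ), 0 < r → ball c r ⊆ HP → ∀ z₀ ∈ ball c r,
    AEMeasurable (fun G => (dom (ball c r) z₀ G, pull (riem z₀ (dom (ball c r) z₀ G)) HP G))
      (P.restrict (good (ball c r) z₀))
  /-- the Riemann map depends measurably on the domain -/
  riem_meas : ∀ (c : ℂ) (r : ℝ), 0 < r → ball c r ⊆ HP → ∀ z₀ ∈ ball c r, ∀ z ∈ HP,
    AEMeasurable (fun V : Conf => ‖deriv (riem z₀ V) z‖)
      ((P.restrict (good (ball c r) z₀)).map (dom (ball c r) z₀))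

/-- the length element of the curve `γ` on `[0,a]`, measured with `D`, is at most `lam(s) ds` -/
def LenLE (D : ℂ → ℂ → ℝ) (γ : ℝ → ℂ) (lam : ℝ → ℝ) (a : ℝ) : Prop :=
  ∀ s t : ℝ, 0 ≤ s → s ≤ t → t ≤ a → D (γ s) (γ t) ≤ ∫ u in s..t, lam u

/-- `D` is a metric on the carpet `X` of the domain `U`, continuous for the euclidean topology, and a length metric
inside `U`: from `x` one can follow a curve in `X` until it reaches `y` or leaves a given closed disc around `x` contained
in `U`, the length of the curve plus the remaining distance to `y` being at most `D x y + η`.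
(True if `D` is a geodesic metric on `X`, true if `D` is a length metric on `X`, true if `D` is the restriction to `X` of
a geodesic metric on `X` together with the boundary of `U`.) -/
structure IsLengthMetric (U X : Set ℂ) (D : ℂ → ℂ → ℝ) : Prop where
  self : ∀ x ∈ X, D x x = 0
  pos : ∀ x ∈ X, ∀ y ∈ X, x ≠ y → 0 < D x y
  symm : ∀ x ∈ X, ∀ y ∈ X, D x y = D y x
  tri : ∀ x ∈ X, ∀ y ∈ X, ∀ z ∈ X, D x z ≤ D x y + D y z
  cont : ContinuousOn (fun p : ℂ × ℂ => D p.1 p.2) (X ×ˢ X)
  length : ∀ x ∈ X, ∀ y ∈ X, ∀ r : ℝ, 0 < r → closedBall x r ⊆ U → ∀ η : ℝ, 0 < η →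
    ∃ (γ : ℝ → ℂ) (a : ℝ), 0 ≤ a ∧ ContinuousOn γ (Icc 0 a) ∧ MapsTo γ (Icc 0 a) X ∧ γ 0 = x ∧
      LenLE D γ (fun _ => 1) a ∧ (γ a = y ∨ r ≤ ‖γ a - x‖) ∧ a + D (γ a) y ≤ D x y + η

/-- **Conformal covariance of lengths**: `f` transports the metric `D₁` on `X` to the metric `D₂` with the factor
`|f'|^d`: a curve `γ` in `X` has `D₁`-length element at most `lam ds` iff `f ∘ γ` has `D₂`-length element at
most `|f'(γ)|^d lam ds`. -/
def CovLen (d : ℝ) (f : ℂ → ℂ) (X : Set ℂ) (D₁ D₂ : ℂ → ℂ → ℝ) : Prop :=
  ∀ (γ : ℝ → ℂ) (lam : ℝ → ℝ) (a : ℝ), 0 ≤ a → ContinuousOn γ (Icc 0 a) → MapsTo γ (Icc 0 a) X →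
    ContinuousOn lam (Icc 0 a) → (∀ s ∈ Icc 0 a, 0 ≤ lam s) →
    (LenLE D₁ γ lam a ↔ LenLE D₂ (f ∘ γ) (fun s => lam s * ‖deriv f (γ s)‖ ^ d) a)

/-- the measure `|f'|^d' · m`, pushed forward by `f` -/
noncomputable def covMeas (d' : ℝ) (f : ℂ → ℂ) (m : Measure ℂ) : Measure ℂ :=
  (m.withDensity fun z => ENNReal.ofReal (‖deriv f z‖ ^ d')).map f

/-- A carpet metric and a carpet measure for the loop ensemble with law `P` (in every conformal image `U` of
the half plane): `dist U G` is the metric on `carpet U G`, `mu U G` the measure. -/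
structure Geometry (P : Measure Conf) (d d' : ℝ) where
  dist : Set ℂ → Conf → ℂ → ℂ → ℝ
  mu : Set ℂ → Kernel Conf ℂ
  dist_meas : ∀ U, Measurable fun p : Conf × ℂ × ℂ => dist U p.1 p.2.1 p.2.2
  mu_sfinite : ∀ U, IsSFiniteKernel (mu U)
  /-- length metric on the carpet -/
  dist_length : ∀ (U : Set ℂ) (f : ℂ → ℂ), IsConf f HP U →
    ∀ᵐ G ∂P, IsLengthMetric U (carpet U (push f HP G)) (dist U (push f HP G))
  /-- conformal covariance -/
  dist_cov : ∀ (U : Set ℂ) (f : ℂ → ℂ), IsConf f HP U →
    ∀ᵐ G ∂P, CovLen d f (carpet HP G) (dist HP G) (dist U (push f HP G))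
  mu_cov : ∀ (U : Set ℂ) (f : ℂ → ℂ), IsConf f HP U →
    ∀ᵐ G ∂P, mu U (push f HP G) = covMeas d' f (mu HP G)
  /-- locality: in an explored domain `V` the metric and the measure are the ones of the loops in `V`, i.e. the
  images of the metric and measure of the pulled back configuration under the Riemann map -/
  dist_loc : ∀ (c : ℂ) (r : ℝ), 0 < r → ball c r ⊆ HP → ∀ z₀ ∈ ball c r,
    ∀ᵐ G ∂P, G ∈ good (ball c r) z₀ →
      CovLen d (riem z₀ (dom (ball c r) z₀ G)) (carpet HP (pull (riem z₀ (dom (ball c r) z₀ G)) HP G))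
        (dist HP (pull (riem z₀ (dom (ball c r) z₀ G)) HP G)) (dist HP G)
  mu_loc : ∀ (c : ℂ) (r : ℝ), 0 < r → ball c r ⊆ HP → ∀ z₀ ∈ ball c r,
    ∀ᵐ G ∂P, G ∈ good (ball c r) z₀ →
      (mu HP G).restrict (dom (ball c r) z₀ G : Set ℂ) =
        covMeas d' (riem z₀ (dom (ball c r) z₀ G)) (mu HP (pull (riem z₀ (dom (ball c r) z₀ G)) HP G))
  /-- in a disc the measure is the sum of the measures of the explored domains: nothing sits on the explored loops -/
  mu_hull : ∀ (c : ℂ) (r : ℝ), 0 < r → ball c r ⊆ HP →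
    ∀ᵐ G ∂P, mu HP G (ball c r ∩ hull (ball c r) G) = 0
  /-- the measure is supported on the carpet and is not zero -/
  mu_supp : ∀ᵐ G ∂P, mu HP G (carpet HP G)ᶜ = 0
  mu_pos : ∀ᵐ G ∂P, mu HP G univ ≠ 0
  /-- locally finite intensity -/
  mu_int : ∀ K : Set ℂ, IsCompact K → K ⊆ HP → ∫⁻ G, mu HP G K ∂P < ∞

/-- the carpet measure rescaled by its total mass -/
noncomputable def Geometry.sample {P : Measure Conf} {d d' : ℝ} (Γ : Geometry P d d') (U : Set ℂ) :
    Kernel Conf ℂ where
  toFun G := (Γ.mu U G univ)⁻¹ • Γ.mu U G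
  measurable' := by
    refine Measure.measurable_of_measurable_coe _ fun s hs => ?_
    simp only [Measure.smul_apply, smul_eq_mul]
    exact ((Γ.mu U).measurable_coe MeasurableSet.univ).inv.mul ((Γ.mu U).measurable_coe hs)

instance {P : Measure Conf} {d d' : ℝ} (Γ : Geometry P d d') (U : Set ℂ) : IsFiniteKernel (Γ.sample U) := by
  refine ⟨⟨1, ENNReal.one_lt_top, fun G => ?_⟩⟩
  change ((Γ.mu U G univ)⁻¹ • Γ.mu U G) univ ≤ 1
  rw [Measure.smul_apply, smul_eq_mul]
  exact ENNReal.inv_mul_le_one _

end Pool.H25.CLE
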