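import Pool.Agent.H25.CLE.Defs

/-! # MP_5d7c93_pr : auxiliary definitions for the proof (cells, charts, good points) -/

set_option autoImplicit false

namespace Pool.H25.CLE

open MeasureTheory ProbabilityTheory Set Metric Complex
open scoped ENNReal

/-- the basic cell (it contains `I`) -/
def cell : Set ℂ := {z | 0 ≤ z.re ∧ z.re < 1 / 512 ∧ 1 ≤ z.im ∧ z.im < 513 / 512}

/-- the affine maps which move the cell to the other cells: `z ↦ (513/512)^n (z + m/512)` -/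
noncomputable def aff (j : ℤ × ℤ) : ℂ → ℂ :=
  fun z => (((513 / 512 : ℝ) ^ j.1 : ℝ) : ℂ) * (z + ((j.2 : ℝ) / 512 : ℝ))

/-- the constant `L` -/
noncomputable def LL (d : ℝ) : ℝ := 2 * (96 : ℝ) ^ (2 * |d|) + 2

/-- the small radius -/
noncomputable def t1 : ℝ := 1 / (256 * 32 * 96)

/-- a dense sequence of base points -/
noncomputable def zseq : ℕ → ℂ := TopologicalSpace.denseSeq ℂ

/-- centre of the disc number `p` of level `k` -/
noncomputable def ctr (k : ℕ) (p : ℤ × ℤ) : ℂ := ((p.1 : ℝ) / 2 ^ k : ℝ) + ((p.2 : ℝ) / 2 ^ k : ℝ) * I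

/-- radius of the discs of level `k` -/
noncomputable def rad (k : ℕ) : ℝ := 1 / 2 ^ k

/-- good point, essential (measurable) version -/
def EGood (D : ℂ → ℂ → ℝ) (m : Measure ℂ) (L : ℝ) (n : ℕ) (w : ℂ) : Prop :=
  ∃ k : ℕ, m {u | D w u < L / (k + 1) ∧ t1 ≤ ‖u - w‖ ∧ ‖u - w‖ ≤ 1 / 2} = 0 ∧
    m {z | D w z < L / (k + 1) ∧ ‖z - w‖ ≤ 1 / 2 ∧
      ((n : ℝ≥0∞) + 1) * m {u | D z u < 1 / (2 * (k + 1))} < m (ball w (1 / 256))} = 0

/-- good point, pointwise version -/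
def PGood (X : Set ℂ) (D : ℂ → ℂ → ℝ) (m : Measure ℂ) (L : ℝ) (n : ℕ) (w : ℂ) : Prop :=
  ∃ ρ : ℝ, 0 < ρ ∧ (∀ u ∈ X, D w u < L * ρ → ‖u - w‖ ≤ t1) ∧
    (∀ z ∈ X, D w z < L * ρ → m (ball w (1 / 256)) ≤ ((n : ℝ≥0∞) + 1) * m {u | u ∈ X ∧ D z u < ρ})

/-- a locally finite measure supported on `X`, charging every relatively open subset of `X` -/
structure MeasOK (X : Set ℂ) (m : Measure ℂ) : Prop where
  supp : m Xᶜ = 0
  full : ∀ W : Set ℂ, IsOpen W → (W ∩ X).Nonempty → 0 < m W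
  locfin : ∀ K : Set ℂ, IsCompact K → K ⊆ HP → m K < ∞

/-- the chart: Riemann map of the explored domain composed with the affine map number `j` -/
noncomputable def cF (c : ℂ) (r : ℝ) (z₀ : ℂ) (j : ℤ × ℤ) (G : Conf) : ℂ → ℂ :=
  fun z => riem z₀ (dom (ball c r) z₀ G) (aff j z)

/-- the configuration seen in the chart -/
noncomputable def cG (c : ℂ) (r : ℝ) (z₀ : ℂ) (j : ℤ × ℤ) (G : Conf) : Conf :=
  pull (aff j) HP (pull (riem z₀ (dom (ball c r) z₀ G)) HP G)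

/-- everything we need to know about one chart (for almost every `G`) -/
structure ChartOK {P : Measure Conf} {d d' : ℝ} (Γ : Geometry P d d') (U : Set ℂ) (f : ℂ → ℂ)
    (c : ℂ) (r : ℝ) (z₀ : ℂ) (j : ℤ × ℤ) (G : Conf) : Prop where
  conf : IsConf (cF c r z₀ j G) HP (dom (ball c r) z₀ G : Set ℂ)
  length : IsLengthMetric HP (carpet HP (cG c r z₀ j G)) (Γ.dist HP (cG c r z₀ j G))
  measOK : MeasOK (carpet HP (cG c r z₀ j G)) (Γ.mu HP (cG c r z₀ j G))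
  cov : CovLen d (fun z => f (cF c r z₀ j G z)) (carpet HP (cG c r z₀ j G)) (Γ.dist HP (cG c r z₀ j G))
    (Γ.dist U (push f HP G))
  meas : (Γ.mu HP G).restrict (dom (ball c r) z₀ G : Set ℂ) =
    covMeas d' (cF c r z₀ j G) (Γ.mu HP (cG c r z₀ j G))
  mem : ∀ z ∈ HP, (z ∈ carpet HP (cG c r z₀ j G) ↔ cF c r z₀ j G z ∈ carpet HP G)

/-- `x` is an `n`-good point at level `k`: seen in some chart of level `k` it is a good point of the cell -/
def GoodAt {P : Measure Conf} {d d' : ℝ} (Γ : Geometry P d d') (n k : ℕ) (G : Conf) (x : ℂ) : Prop :=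
  ∃ (p : ℤ × ℤ) (i : ℕ) (j : ℤ × ℤ), ball (ctr k p) (rad k) ⊆ HP ∧ zseq i ∈ ball (ctr k p) (rad k) ∧
    G ∈ good (ball (ctr k p) (rad k)) (zseq i) ∧
    ∃ w ∈ cell, cF (ctr k p) (rad k) (zseq i) j G w = x ∧
      EGood (Γ.dist HP (cG (ctr k p) (rad k) (zseq i) j G)) (Γ.mu HP (cG (ctr k p) (rad k) (zseq i) j G))
        (LL d) n w

end Pool.H25.CLE
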