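import Pool.Agent.H25.CLE.DetA
import Pool.Agent.H25.CLE.Cov

/-! MODULE DETB (MP_5d7c93_pr, project CLE of helper25; overview /team-store/H25_CLE.md)
Deterministic step, measure part. F : HP → V conformal (V ⊆ HP), f : HP → U conformal, x = F w, R = ‖F'(w)‖/(256·32).
 (i) closedBall x R ⊆ F '' ball w (1/256): koebe with t = 1/256 gives ball x (‖F'(w)‖/(256·16)) ⊆ F '' ball w (1/256).
 (ii) F '' closedBall w t1 ⊆ closedBall x R: growth: 96 ‖F'(w)‖ t1 = R.
 (iii) by det_metric (H = f ∘ F, V' = f '' V ⊆ U; it uses its own constants), B_D(z,ρ) := {u ∈ X | D z u < ρ} ⊆ closedBall w t1 and F of it is contained in S := {v ∈ closedBall x R | D₂ (f v) y < D₂ (f x) y}.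
 (iv) m₂ restricted to V is covMeas d' F m. With M = ‖F'(w)‖^d', c = 96^|d'|: m₂(closedBall x R) ≤ m₂(F '' ball w (1/256)) = ∫_ball ‖F'‖^d' dm ≤ c M m(ball w (1/256)) ≤ c M (n+1) m(B_D(z,ρ)) ≤ c² (n+1) ∫_{B_D} ‖F'‖^d' dm = c² (n+1) m₂(F '' B_D)
 ≤ c² (n+1) m₂(S) (covMeas_image; B_D(z,ρ) is measurable: relatively open in X (continuity), X measurable). -/

set_option autoImplicit false

namespace Pool.H25.CLE

open MeasureTheory Set Metric Complex
open scoped ENNReal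

/-- comparison of powers of comparable numbers -/
theorem detb_rpow {a b : ℝ} (ha : 0 < a) (hb : 0 < b) (h1 : a ≤ 96 * b) (h2 : b ≤ 96 * a) (d' : ℝ) :
    a ^ d' ≤ (96 : ℝ) ^ |d'| * b ^ d' := by
  rcases le_total 0 d' with hd | hd
  · rw [abs_of_nonneg hd, ← Real.mul_rpow (by norm_num) hb.le]
    exact Real.rpow_le_rpow ha.le h1 hd
  · rw [abs_of_nonpos hd]
    have h3 : b / 96 ≤ a := by linarith
    have hb' : 0 < b / 96 := by positivity
    calc a ^ d' ≤ (b / 96) ^ d' := Real.rpow_le_rpow_of_nonpos hb' h3 hd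
      _ = (96 : ℝ) ^ (-d') * b ^ d' := by
          rw [Real.div_rpow hb.le (by norm_num), Real.rpow_neg (by norm_num : (0 : ℝ) ≤ 96)]
          field_simp

/-- the metric balls are measurable -/
theorem detb_meas {X : Set ℂ} {D : ℂ → ℂ → ℝ} (hXm : MeasurableSet X) (hD : IsLengthMetric HP X D)
    {z : ℂ} (hz : z ∈ X) (ρ : ℝ) : MeasurableSet {u | u ∈ X ∧ D z u < ρ} := by
  have hc : ContinuousOn (fun u => D z u) X := by
    have h1 : ContinuousOn (fun u : ℂ => ((z, u) : ℂ × ℂ)) X := by fun_prop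
    exact hD.cont.comp h1 (fun u hu => ⟨hz, hu⟩)
  obtain ⟨O, hO, hOX⟩ := (_root_.continuousOn_iff'.mp hc) (Iio ρ) isOpen_Iio
  have : {u | u ∈ X ∧ D z u < ρ} = O ∩ X := by
    rw [← hOX]
    ext u
    constructor
    · rintro ⟨h1, h2⟩; exact ⟨h2, h1⟩
    · rintro ⟨h1, h2⟩; exact ⟨h2, h1⟩
  rw [this]
  exact hO.measurableSet.inter hXm

theorem det_step {d d' : ℝ} {F f : ℂ → ℂ} {V U X X₂ : Set ℂ} {D D₂ : ℂ → ℂ → ℝ} {m m₂ : Measure ℂ}
    (hF : IsConf F HP V) (hV : V ⊆ HP) (hf : IsConf f HP U) (hX : X ⊆ HP) (hXm : MeasurableSet X)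
    (hD : IsLengthMetric HP X D) (hD₂ : IsLengthMetric U X₂ D₂) (hHX : ∀ z ∈ HP, (z ∈ X ↔ f (F z) ∈ X₂))
    (hcov : CovLen d (fun z => f (F z)) X D D₂) (hmX : m Xᶜ = 0) (hmeas : m₂.restrict V = covMeas d' F m)
    {w : ℂ} (hw : w ∈ cell) (hwX : w ∈ X) {n : ℕ} (hgood : PGood X D m (LL d) n w)
    {y : ℂ} (hy : y ∈ X₂) (hyV : y ∉ f '' V) :
    closedBall (F w) (‖deriv F w‖ / (256 * 32)) ⊆ V ∧
    m₂ (closedBall (F w) (‖deriv F w‖ / (256 * 32))) ≤
      ENNReal.ofReal ((n + 1) * (96 : ℝ) ^ (2 * |d'|)) *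
        m₂ {v | v ∈ closedBall (F w) (‖deriv F w‖ / (256 * 32)) ∧ D₂ (f v) y < D₂ (f (F w)) y} := by
  have hwHP : w ∈ HP := cell_subset_HP hw
  have hM : 0 < ‖deriv F w‖ := norm_pos_iff.mpr (hF.deriv_ne w hwHP)
  have hb1 : ball w 1 ⊆ HP := ball_subset_HP hw
  have hb256 : ball w (1 / 256) ⊆ ball w 1 := ball_subset_ball (by norm_num)
  have hbHP : ball w (1 / 256) ⊆ HP := hb256.trans hb1
  have hFr : IsConf F (ball w 1) (F '' ball w 1) := hF.restrict isOpen_ball hb1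
  -- (i)
  have hball : closedBall (F w) (‖deriv F w‖ / (256 * 32)) ⊆ F '' ball w (1 / 256) := by
    refine Subset.trans ?_ (koebe (F := F) (w := w) (t := 1 / 256) (by norm_num)
      (hF.diff.mono hbHP) (hF.inj.mono hbHP))
    apply closedBall_subset_ball
    have : ‖deriv F w‖ * (1 / 256) / 16 - ‖deriv F w‖ / (256 * 32) =
        ‖deriv F w‖ / (256 * 32) := by ring
    have h2 : 0 < ‖deriv F w‖ / (256 * 32) := by positivity
    linarith
  have hFV : ∀ S : Set ℂ, S ⊆ HP → F '' S ⊆ V := by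
    intro S hS
    rw [← hF.image]
    exact image_mono hS
  have hballV : closedBall (F w) (‖deriv F w‖ / (256 * 32)) ⊆ V := hball.trans (hFV _ hbHP)
  refine ⟨hballV, ?_⟩
  -- (ii)
  have ht1 : t1 < 1 / 256 := by unfold t1; norm_num
  have hcb : closedBall w t1 ⊆ ball w (1 / 256) := closedBall_subset_ball ht1
  have hgrow : ∀ u ∈ closedBall w t1, F u ∈ closedBall (F w) (‖deriv F w‖ / (256 * 32)) := by
    intro u hu
    have h := growth hFr (hcb hu)
    rw [mem_closedBall, dist_eq_norm] at hu ⊢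
    calc ‖F u - F w‖ ≤ 96 * ‖deriv F w‖ * ‖u - w‖ := h
      _ ≤ 96 * ‖deriv F w‖ * t1 := by gcongr
      _ = ‖deriv F w‖ / (256 * 32) := by unfold t1; ring
  -- (iii)
  have hVo : IsOpen V := hF.isOpen_target
  have hH : IsConf (fun z => f (F z)) HP (f '' V) := hF.comp (hf.restrict hVo hV)
  have hVU : f '' V ⊆ U := by
    rw [← hf.image]
    exact image_mono hV
  obtain ⟨ρ, hρ, hα, hβ⟩ := hgood
  obtain ⟨z, hzX, hDz, hzball⟩ := det_metric hH hVU hX hD hD₂ hHX hcov hw hwX hρ hα hy hyV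
  have hm1 := hβ z hzX hDz
  set B : Set ℂ := {u | u ∈ X ∧ D z u < ρ} with hB
  have hBm : MeasurableSet B := detb_meas hXm hD hzX ρ
  have hBcb : B ⊆ closedBall w t1 := by
    intro u hu
    rw [mem_closedBall, dist_eq_norm]
    exact (hzball u hu.1 hu.2).1
  have hBball : B ⊆ ball w (1 / 256) := hBcb.trans hcb
  have hBHP : B ⊆ HP := hBball.trans hbHP
  have hBS : F '' B ⊆ {v | v ∈ closedBall (F w) (‖deriv F w‖ / (256 * 32)) ∧
      D₂ (f v) y < D₂ (f (F w)) y} := by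
    rintro _ ⟨u, hu, rfl⟩
    exact ⟨hgrow u (hBcb hu), (hzball u hu.1 hu.2).2⟩
  -- (iv)
  have hmHP : m HPᶜ = 0 := measure_mono_null (compl_subset_compl.mpr hX) hmX
  have hpos : ∀ u ∈ ball w (1 / 256), 0 < ‖deriv F u‖ := fun u hu =>
    norm_pos_iff.mpr (hF.deriv_ne u (hbHP hu))
  have hup : ∀ u ∈ ball w (1 / 256),
      ‖deriv F u‖ ^ d' ≤ (96 : ℝ) ^ |d'| * ‖deriv F w‖ ^ d' := by
    intro u hu
    obtain ⟨h1, h2⟩ := distortion hFr hu
    exact detb_rpow (hpos u hu) hM h1 h2 d'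
  have hlow : ∀ u ∈ ball w (1 / 256),
      ‖deriv F w‖ ^ d' ≤ (96 : ℝ) ^ |d'| * ‖deriv F u‖ ^ d' := by
    intro u hu
    obtain ⟨h1, h2⟩ := distortion hFr hu
    exact detb_rpow hM (hpos u hu) h2 h1 d'
  have hc0 : (0 : ℝ) ≤ (96 : ℝ) ^ |d'| := Real.rpow_nonneg (by norm_num) _
  have hMd0 : (0 : ℝ) ≤ ‖deriv F w‖ ^ d' := Real.rpow_nonneg (norm_nonneg _) _
  have step1 : m₂ (closedBall (F w) (‖deriv F w‖ / (256 * 32))) ≤
      ∫⁻ u in ball w (1 / 256), ENNReal.ofReal (‖deriv F u‖ ^ d') ∂m := by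
    calc m₂ (closedBall (F w) (‖deriv F w‖ / (256 * 32)))
        = m₂.restrict V (closedBall (F w) (‖deriv F w‖ / (256 * 32))) := by
          rw [Measure.restrict_apply isClosed_closedBall.measurableSet,
            inter_eq_left.mpr hballV]
      _ ≤ m₂.restrict V (F '' ball w (1 / 256)) := measure_mono hball
      _ = ∫⁻ u in ball w (1 / 256), ENNReal.ofReal (‖deriv F u‖ ^ d') ∂m := by
          rw [hmeas, covMeas_image hF hmHP measurableSet_ball hbHP]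
  have step2 : ∫⁻ u in ball w (1 / 256), ENNReal.ofReal (‖deriv F u‖ ^ d') ∂m ≤
      ENNReal.ofReal ((96 : ℝ) ^ |d'| * ‖deriv F w‖ ^ d') * m (ball w (1 / 256)) := by
    calc ∫⁻ u in ball w (1 / 256), ENNReal.ofReal (‖deriv F u‖ ^ d') ∂m
        ≤ ∫⁻ _u in ball w (1 / 256), ENNReal.ofReal ((96 : ℝ) ^ |d'| * ‖deriv F w‖ ^ d') ∂m := by
          apply setLIntegral_mono' measurableSet_ball
          intro u hu
          exact ENNReal.ofReal_le_ofReal (hup u hu)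
      _ = _ := by rw [setLIntegral_const]
  have step3 : ENNReal.ofReal (‖deriv F w‖ ^ d') * m B ≤
      ENNReal.ofReal ((96 : ℝ) ^ |d'|) * m₂ {v | v ∈ closedBall (F w) (‖deriv F w‖ / (256 * 32)) ∧
        D₂ (f v) y < D₂ (f (F w)) y} := by
    calc ENNReal.ofReal (‖deriv F w‖ ^ d') * m B
        = ∫⁻ _u in B, ENNReal.ofReal (‖deriv F w‖ ^ d') ∂m := by rw [setLIntegral_const]
      _ ≤ ∫⁻ u in B, ENNReal.ofReal ((96 : ℝ) ^ |d'|) * ENNReal.ofReal (‖deriv F u‖ ^ d') ∂m := by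
          apply setLIntegral_mono' hBm
          intro u hu
          rw [← ENNReal.ofReal_mul hc0]
          exact ENNReal.ofReal_le_ofReal (hlow u (hBball hu))
      _ = ENNReal.ofReal ((96 : ℝ) ^ |d'|) *
            ∫⁻ u in B, ENNReal.ofReal (‖deriv F u‖ ^ d') ∂m :=
          lintegral_const_mul' _ _ ENNReal.ofReal_ne_top
      _ = ENNReal.ofReal ((96 : ℝ) ^ |d'|) * m₂.restrict V (F '' B) := by
          rw [hmeas, covMeas_image hF hmHP hBm hBHP]
      _ ≤ ENNReal.ofReal ((96 : ℝ) ^ |d'|) * m₂ (F '' B) := by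
          gcongr
          exact Measure.restrict_le_self
      _ ≤ _ := by
          gcongr
  calc m₂ (closedBall (F w) (‖deriv F w‖ / (256 * 32)))
      ≤ ENNReal.ofReal ((96 : ℝ) ^ |d'| * ‖deriv F w‖ ^ d') * m (ball w (1 / 256)) :=
        step1.trans step2
    _ ≤ ENNReal.ofReal ((96 : ℝ) ^ |d'| * ‖deriv F w‖ ^ d') * (((n : ℝ≥0∞) + 1) * m B) := by
        gcongr
    _ = (ENNReal.ofReal ((96 : ℝ) ^ |d'|) * ((n : ℝ≥0∞) + 1)) *
          (ENNReal.ofReal (‖deriv F w‖ ^ d') * m B) := by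
        rw [ENNReal.ofReal_mul hc0]; ring
    _ ≤ (ENNReal.ofReal ((96 : ℝ) ^ |d'|) * ((n : ℝ≥0∞) + 1)) *
          (ENNReal.ofReal ((96 : ℝ) ^ |d'|) *
            m₂ {v | v ∈ closedBall (F w) (‖deriv F w‖ / (256 * 32)) ∧
              D₂ (f v) y < D₂ (f (F w)) y}) := by
        gcongr
    _ = ENNReal.ofReal ((n + 1) * (96 : ℝ) ^ (2 * |d'|)) *
          m₂ {v | v ∈ closedBall (F w) (‖deriv F w‖ / (256 * 32)) ∧
            D₂ (f v) y < D₂ (f (F w)) y} := by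
        have h1 : (96 : ℝ) ^ (2 * |d'|) = (96 : ℝ) ^ |d'| * (96 : ℝ) ^ |d'| := by
          rw [two_mul, Real.rpow_add (by norm_num)]
        have h2 : ((n : ℝ≥0∞) + 1) = ENNReal.ofReal ((n : ℝ) + 1) := by
          rw [ENNReal.ofReal_add (by positivity) (by norm_num), ENNReal.ofReal_natCast,
            ENNReal.ofReal_one]
        rw [h1, h2, ENNReal.ofReal_mul (by positivity), ENNReal.ofReal_mul hc0]
        ring

end Pool.H25.CLE
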