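import Pool.Agent.H25.CLE.Cell

/-! MODULE GOODB (MP_5d7c93_pr, project CLE of helper25; overview /team-store/H25_CLE.md)
From the essential version to the pointwise version, with ρ = 1/(k+1). Write X = carpet HP G (relatively closed in HP), r₁ = (t1 + 1/2)/2; closedBall w r₁ ⊆ HP.
(1) Let u ∈ X, D w u < L ρ, suppose ‖u - w‖ > t1. IsLengthMetric.length (x = w, y = u, r = r₁, η = (L ρ - D w u)/2) gives a curve γ in X from w, of length a < L ρ, with γ a = u or ‖γ a - w‖ ≥ r₁. By the intermediate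
value theorem there is u' = γ s with ‖u' - w‖ = min(‖u-w‖, r₁) ∈ (t1, 1/2); D w u' ≤ s ≤ a < L ρ. By continuity of D w · on X there is an open W ∋ u' with W ∩ X ⊆ {v | D w v < Lρ, t1 ≤ ‖v-w‖ ≤ 1/2},
so m W = m (W ∩ X) ≤ 0 (supp), contradiction to full.
(2) Let z ∈ X, D w z < L ρ. By (1) ‖z - w‖ ≤ t1 < 1/2. For z' ∈ X close to z: D w z' < L ρ, ‖z' - w‖ < 1/2, D z z' < ρ/2. These z' contain W ∩ X, W open, z ∈ W, m W > 0, so there is such a z' outside the null set of EGood: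
(n+1) m {u | D z' u < ρ/2} ≥ m (ball w (1/256)). Up to the null set Xᶜ, {u | D z' u < ρ/2} ⊆ {u ∈ X | D z u < ρ}. -/

set_option autoImplicit false

namespace Pool.H25.CLE

open MeasureTheory Set Metric Complex
open scoped ENNReal

theorem GoodB_cont {X : Set ℂ} {D : ℂ → ℂ → ℝ}
    (hc : ContinuousOn (fun p : ℂ × ℂ => D p.1 p.2) (X ×ˢ X)) {a p : ℂ} (ha : a ∈ X) (hp : p ∈ X) :
    ContinuousWithinAt (fun v => D a v) X p := by
  have h1 : ContinuousWithinAt (fun p : ℂ × ℂ => D p.1 p.2) (X ×ˢ X) (a, p) := hc (a, p) ⟨ha, hp⟩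
  have h2 : ContinuousWithinAt (fun v : ℂ => (a, v)) X p :=
    (Continuous.prodMk_right a).continuousWithinAt
  exact ContinuousWithinAt.comp (f := fun v : ℂ => (a, v)) (g := fun p : ℂ × ℂ => D p.1 p.2)
    h1 h2 (fun v hv => ⟨ha, hv⟩)

theorem GoodB_pos {X : Set ℂ} {m : Measure ℂ} (hm : MeasOK X m) {p : ℂ} (hp : p ∈ X) {S : Set ℂ}
    (hS : ∀ᶠ v in nhdsWithin p X, v ∈ S) : 0 < m S := by
  obtain ⟨W, hW, hpW, hWS⟩ := mem_nhdsWithin.mp hS
  have h1 : 0 < m W := hm.full W hW ⟨p, hpW, hp⟩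
  have h2 : m W ≤ m S := by
    calc m W ≤ m (W ∩ X ∪ Xᶜ) := by
          apply measure_mono
          intro v hv
          by_cases hvX : v ∈ X
          · exact Or.inl ⟨hv, hvX⟩
          · exact Or.inr hvX
      _ ≤ m (W ∩ X) + m Xᶜ := measure_union_le _ _
      _ = m (W ∩ X) := by rw [hm.supp, add_zero]
      _ ≤ m S := measure_mono hWS
  exact lt_of_lt_of_le h1 h2

theorem GoodB_near {G : Conf} {D : ℂ → ℂ → ℝ} {m : Measure ℂ} (hD : IsLengthMetric HP (carpet HP G) D)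
    (hm : MeasOK (carpet HP G) m) {w : ℂ} (hw : w ∈ cell) (hwX : w ∈ carpet HP G) {c : ℝ}
    (h0 : m {u | D w u < c ∧ t1 ≤ ‖u - w‖ ∧ ‖u - w‖ ≤ 1 / 2} = 0) {u : ℂ} (hu : u ∈ carpet HP G)
    (hlt : D w u < c) : ‖u - w‖ ≤ t1 := by
  by_contra hcon
  push Not at hcon
  have ht1 : t1 < 1 / 2 := by unfold t1; norm_num
  have ht0 : 0 < t1 := by unfold t1; norm_num
  have hr0 : 0 < (t1 + 1 / 2) / 2 := by linarith
  have hsub : closedBall w ((t1 + 1 / 2) / 2) ⊆ HP := by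
    refine subset_trans ?_ (ball_subset_HP hw)
    intro v hv
    rw [mem_closedBall] at hv
    rw [mem_ball]
    linarith
  obtain ⟨γ, a, ha0, hγc, hγm, hγ0, hlen, hor, hle⟩ :=
    hD.length w hwX u hu _ hr0 hsub ((c - D w u) / 2) (by linarith)
  have hγa : γ a ∈ carpet HP G := hγm ⟨ha0, le_refl a⟩
  have hnn : 0 ≤ D (γ a) u := by
    by_cases h : γ a = u
    · rw [h, hD.self u hu]
    · exact (hD.pos _ hγa _ hu h).le
  have hac : a < c := by linarith
  set T : ℝ := min ‖u - w‖ ((t1 + 1 / 2) / 2) with hT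
  have hT1 : t1 < T := lt_min hcon (by linarith)
  have hT2 : T < 1 / 2 := lt_of_le_of_lt (min_le_right _ _) (by linarith)
  have hTa : T ≤ ‖γ a - w‖ := by
    rcases hor with h | h
    · rw [h]; exact min_le_left _ _
    · exact le_trans (min_le_right _ _) h
  have hivt : T ∈ (fun s => ‖γ s - w‖) '' Icc 0 a := by
    apply intermediate_value_Icc ha0
    · exact (hγc.sub continuousOn_const).norm
    · refine ⟨?_, hTa⟩
      simp only [hγ0, sub_self, norm_zero]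
      linarith
  obtain ⟨s, hs, hsT⟩ := hivt
  have hsT' : ‖γ s - w‖ = T := hsT
  have hγs : γ s ∈ carpet HP G := hγm hs
  have hDs : D w (γ s) ≤ s := by
    have h := hlen 0 s (le_refl 0) hs.1 hs.2
    rw [hγ0] at h
    simpa using h
  have hDs' : D w (γ s) < c := by linarith [hs.2]
  have hcw : ContinuousWithinAt (fun v => D w v) (carpet HP G) (γ s) := GoodB_cont hD.cont hwX hγs
  have hev : ∀ᶠ v in nhdsWithin (γ s) (carpet HP G),
      v ∈ {u | D w u < c ∧ t1 ≤ ‖u - w‖ ∧ ‖u - w‖ ≤ 1 / 2} := by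
    have e1 : ∀ᶠ v in nhdsWithin (γ s) (carpet HP G), D w v < c := hcw.eventually (gt_mem_nhds hDs')
    have hcn : ContinuousWithinAt (fun v : ℂ => ‖v - w‖) (carpet HP G) (γ s) := by fun_prop
    have e2 : ∀ᶠ v in nhdsWithin (γ s) (carpet HP G), t1 < ‖v - w‖ :=
      hcn.eventually (lt_mem_nhds (show t1 < ‖γ s - w‖ by rw [hsT']; exact hT1))
    have e3 : ∀ᶠ v in nhdsWithin (γ s) (carpet HP G), ‖v - w‖ < 1 / 2 :=
      hcn.eventually (gt_mem_nhds (show ‖γ s - w‖ < 1 / 2 by rw [hsT']; exact hT2))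
    filter_upwards [e1, e2, e3] with v h1 h2 h3
    exact ⟨h1, h2.le, h3.le⟩
  have := GoodB_pos hm hγs hev
  rw [h0] at this
  exact lt_irrefl _ this

theorem EGood.pGood {G : Conf} {D : ℂ → ℂ → ℝ} {m : Measure ℂ} (hD : IsLengthMetric HP (carpet HP G) D)
    (hm : MeasOK (carpet HP G) m) {L : ℝ} (hL : 0 < L) {n : ℕ} {w : ℂ} (hw : w ∈ cell)
    (hwX : w ∈ carpet HP G) (h : EGood D m L n w) : PGood (carpet HP G) D m L n w := by
  obtain ⟨k, h1, h2⟩ := h
  have hk : (0 : ℝ) < (k : ℝ) + 1 := by positivity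
  have hLk : L * (1 / ((k : ℝ) + 1)) = L / (k + 1) := by ring
  have hnear : ∀ u ∈ carpet HP G, D w u < L * (1 / ((k : ℝ) + 1)) → ‖u - w‖ ≤ t1 := by
    intro u hu hlt
    rw [hLk] at hlt
    exact GoodB_near hD hm hw hwX h1 hu hlt
  refine ⟨1 / ((k : ℝ) + 1), by positivity, hnear, ?_⟩
  intro z hz hlt
  have hzn : ‖z - w‖ ≤ t1 := hnear z hz hlt
  have ht1 : t1 < 1 / 2 := by unfold t1; norm_num
  rw [hLk] at hlt
  set S : Set ℂ := {z' | z' ∈ carpet HP G ∧ D w z' < L / (k + 1) ∧ ‖z' - w‖ < 1 / 2 ∧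
    D z z' < 1 / (2 * ((k : ℝ) + 1))} with hS
  have hev : ∀ᶠ v in nhdsWithin z (carpet HP G), v ∈ S := by
    have e0 : ∀ᶠ v in nhdsWithin z (carpet HP G), v ∈ carpet HP G := self_mem_nhdsWithin
    have e1 : ∀ᶠ v in nhdsWithin z (carpet HP G), D w v < L / (k + 1) :=
      (GoodB_cont hD.cont hwX hz).eventually (gt_mem_nhds hlt)
    have hcn : ContinuousWithinAt (fun v : ℂ => ‖v - w‖) (carpet HP G) z := by fun_prop
    have e2 : ∀ᶠ v in nhdsWithin z (carpet HP G), ‖v - w‖ < 1 / 2 :=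
      hcn.eventually (gt_mem_nhds (by linarith))
    have e3 : ∀ᶠ v in nhdsWithin z (carpet HP G), D z v < 1 / (2 * ((k : ℝ) + 1)) := by
      apply (GoodB_cont hD.cont hz hz).eventually (gt_mem_nhds _)
      show D z z < 1 / (2 * ((k : ℝ) + 1))
      rw [hD.self z hz]
      positivity
    filter_upwards [e0, e1, e2, e3] with v a0 a1 a2 a3
    exact ⟨a0, a1, a2, a3⟩
  have hpos : 0 < m S := GoodB_pos hm hz hev
  have hex : ∃ z' ∈ S, z' ∉ {z | D w z < L / (k + 1) ∧ ‖z - w‖ ≤ 1 / 2 ∧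
      ((n : ℝ≥0∞) + 1) * m {u | D z u < 1 / (2 * (k + 1))} < m (ball w (1 / 256))} := by
    by_contra hcon
    push Not at hcon
    have : m S ≤ 0 := by
      rw [← h2]
      exact measure_mono hcon
    exact absurd hpos (not_lt.mpr this)
  obtain ⟨z', ⟨hz'X, hz'1, hz'2, hz'3⟩, hz'N⟩ := hex
  have hge : m (ball w (1 / 256)) ≤ ((n : ℝ≥0∞) + 1) * m {u | D z' u < 1 / (2 * ((k : ℝ) + 1))} := by
    by_contra hcon
    push Not at hcon
    exact hz'N ⟨hz'1, hz'2.le, hcon⟩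
  refine le_trans hge (mul_le_mul_right ?_ _)
  calc m {u | D z' u < 1 / (2 * ((k : ℝ) + 1))}
      ≤ m ({u | u ∈ carpet HP G ∧ D z u < 1 / ((k : ℝ) + 1)} ∪ (carpet HP G)ᶜ) := by
        apply measure_mono
        intro u hu
        by_cases huX : u ∈ carpet HP G
        · left
          refine ⟨huX, ?_⟩
          have ht := hD.tri z hz z' hz'X u huX
          have hu' : D z' u < 1 / (2 * ((k : ℝ) + 1)) := hu
          have : 1 / ((k : ℝ) + 1) = 1 / (2 * ((k : ℝ) + 1)) + 1 / (2 * ((k : ℝ) + 1)) := by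
            field_simp; norm_num
          linarith
        · exact Or.inr huX
    _ ≤ m {u | u ∈ carpet HP G ∧ D z u < 1 / ((k : ℝ) + 1)} + m (carpet HP G)ᶜ :=
        measure_union_le _ _
    _ = m {u | u ∈ carpet HP G ∧ D z u < 1 / ((k : ℝ) + 1)} := by rw [hm.supp, add_zero]

end Pool.H25.CLE
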