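import Pool.Agent.H25.CLE.Lim
import Pool.Agent.H25.CLE.DetB
import Pool.Agent.H25.CLE.GoodB

/-! MODULE DENS (MP_5d7c93_pr, project CLE of helper25; overview /team-store/H25_CLE.md)
dens: for x ∈ carpet HP G good at infinitely many levels (for some n) and y ∈ carpet HP G, y ≠ x there are arbitrarily small R > 0 with closedBall x R ⊆ HP and
mu(closedBall x R) ≤ C mu {v ∈ closedBall x R | D₂ (f v) (f y) < D₂ (f x) (f y)}, C = ofReal ((n+1) 96^(2|d'|)). For a.e. G: chartOK for all charts (k,p,i,j) (countably many), dist_length for (U,f), loops.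
At a good level k with 2·rad k < ‖x - y‖ and rad k < ε (tendsto_rad, Frequently.and_eventually) take the chart of GoodAt: det_step with F = cF, V = dom, X = carpet HP (cG) (measurable), m = mu HP (cG), m₂ = mu HP G,
X₂ = carpet U (push f HP G) (mem_carpet_push and ChartOK.mem for hHX), n-goodness by EGood.pGood (w ∈ carpet HP cG by ChartOK.mem and x ∈ carpet HP G; LL d > 0). V ⊆ ball (ctr k p) (rad k) (dom_subset) which contains x = F w, so y ∉ V,
f y ∉ f '' V (injectivity of f on HP). R = ‖deriv F w‖/(256·32) > 0 (ChartOK.conf.deriv_ne); closedBall x R ⊆ V ⊆ ball (ctr k p) (rad k) gives R ≤ rad k (x + R and x - R are both in the ball). -/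

set_option autoImplicit false

namespace Pool.H25.CLE

open MeasureTheory ProbabilityTheory Set Metric Complex
open scoped ENNReal

theorem dens {P : Measure Conf} (hP : IsCLE P) {d d' : ℝ} (Γ : Geometry P d d') {U : Set ℂ} {f : ℂ → ℂ}
    (hf : IsConf f HP U) :
    ∀ᵐ G ∂P, ∀ x ∈ carpet HP G, ∀ y ∈ carpet HP G, ∀ n : ℕ, (∃ᶠ k in Filter.atTop, GoodAt Γ n k G x) → y ≠ x →
      ∀ ε : ℝ, 0 < ε → ∃ R : ℝ, 0 < R ∧ R < ε ∧ closedBall x R ⊆ HP ∧
        Γ.mu HP G (closedBall x R) ≤ ENNReal.ofReal ((n + 1) * (96 : ℝ) ^ (2 * |d'|)) *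
          Γ.mu HP G {v | v ∈ closedBall x R ∧
            Γ.dist U (push f HP G) (f v) (f y) < Γ.dist U (push f HP G) (f x) (f y)} := by
  have h1 : ∀ᵐ G ∂P, ∀ (k : ℕ) (p : ℤ × ℤ) (i : ℕ) (j : ℤ × ℤ), ball (ctr k p) (rad k) ⊆ HP →
      zseq i ∈ ball (ctr k p) (rad k) → G ∈ good (ball (ctr k p) (rad k)) (zseq i) →
      ChartOK Γ U f (ctr k p) (rad k) (zseq i) j G := by
    rw [ae_all_iff]; intro k
    rw [ae_all_iff]; intro p
    rw [ae_all_iff]; intro i
    rw [ae_all_iff]; intro j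
    by_cases hQ : ball (ctr k p) (rad k) ⊆ HP
    · by_cases hz : zseq i ∈ ball (ctr k p) (rad k)
      · filter_upwards [chartOK hP Γ hf (rad_pos k) hQ hz j] with G hG _ _ using hG
      · exact Filter.Eventually.of_forall fun G _ h => absurd h hz
    · exact Filter.Eventually.of_forall fun G h => absurd h hQ
  filter_upwards [h1, Γ.dist_length U f hf] with G hG hGd
  intro x hx y hy n hfreq hyx ε hε
  have hxy : 0 < ‖x - y‖ := norm_pos_iff.2 (sub_ne_zero.2 hyx.symm)
  have hev : ∀ᶠ k in Filter.atTop, rad k < min ε (‖x - y‖ / 2) :=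
    tendsto_rad.eventually_lt_const (lt_min hε (by positivity))
  obtain ⟨k, hk, hkr⟩ := (hfreq.and_eventually hev).exists
  obtain ⟨hkε, hkxy⟩ := lt_min_iff.1 hkr
  obtain ⟨p, i, j, hQ, hi, hgood, w, hw, hwx, hE⟩ := hk
  have hC := hG k p i j hQ hi hgood
  have hwHP : w ∈ HP := cell_subset_HP hw
  have hVQ : (dom (ball (ctr k p) (rad k)) (zseq i) G : Set ℂ) ⊆ ball (ctr k p) (rad k) := dom_subset _ _ _
  have hxV : x ∈ (dom (ball (ctr k p) (rad k)) (zseq i) G : Set ℂ) := by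
    rw [← hC.conf.image]; exact ⟨w, hwHP, hwx⟩
  have hwX : w ∈ carpet HP (cG (ctr k p) (rad k) (zseq i) j G) := by
    refine (hC.mem w hwHP).2 ?_
    rw [hwx]; exact hx
  have hLL : 0 < LL d := by
    unfold LL
    have : (0 : ℝ) < (96 : ℝ) ^ (2 * |d|) := Real.rpow_pos_of_pos (by norm_num) _
    linarith
  have hpg := hE.pGood hC.length hC.measOK hLL hw hwX
  have hXm : MeasurableSet (carpet HP (cG (ctr k p) (rad k) (zseq i) j G)) :=
    isOpen_HP.measurableSet.diff (TopologicalSpace.Opens.isOpen _).measurableSet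
  have hHX : ∀ z ∈ HP, (z ∈ carpet HP (cG (ctr k p) (rad k) (zseq i) j G) ↔
      f (cF (ctr k p) (rad k) (zseq i) j G z) ∈ carpet U (push f HP G)) := by
    intro z hz
    have hzHP : cF (ctr k p) (rad k) (zseq i) j G z ∈ HP := hQ (hVQ (hC.conf.mapsTo hz))
    exact (hC.mem z hz).trans (mem_carpet_push hf G hzHP).symm
  have hfy : f y ∈ carpet U (push f HP G) := (mem_carpet_push hf G hy.1).2 hy
  have hyV : f y ∉ f '' (dom (ball (ctr k p) (rad k)) (zseq i) G : Set ℂ) := by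
    rintro ⟨v, hv, hvy⟩
    have hvy' : v = y := hf.inj (hQ (hVQ hv)) hy.1 hvy
    have h2 := hVQ hv
    have h3 := hVQ hxV
    rw [hvy'] at h2
    rw [mem_ball, dist_eq_norm] at h2 h3
    have h4 : ‖x - y‖ ≤ ‖x - ctr k p‖ + ‖ctr k p - y‖ := norm_sub_le_norm_sub_add_norm_sub _ _ _
    rw [norm_sub_rev (ctr k p) y] at h4
    linarith
  obtain ⟨hs1, hs2⟩ := det_step hC.conf (hVQ.trans hQ) hf sdiff_subset hXm hC.length hGd hHX hC.cov
    hC.measOK.supp hC.meas hw hwX hpg hfy hyV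
  rw [hwx] at hs1 hs2
  set R := ‖deriv (cF (ctr k p) (rad k) (zseq i) j G) w‖ / (256 * 32) with hR
  have hR0 : 0 < R := by
    have := norm_pos_iff.2 (hC.conf.deriv_ne w hwHP)
    positivity
  refine ⟨R, hR0, ?_, (hs1.trans hVQ).trans hQ, hs2⟩
  have h5 : x + R ∈ ball (ctr k p) (rad k) := by
    refine hVQ (hs1 ?_)
    rw [mem_closedBall, dist_eq_norm, add_sub_cancel_left, Complex.norm_real, Real.norm_of_nonneg hR0.le]
  have h6 : x - R ∈ ball (ctr k p) (rad k) := by
    refine hVQ (hs1 ?_)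
    rw [mem_closedBall, dist_eq_norm, sub_sub_cancel_left, norm_neg, Complex.norm_real,
      Real.norm_of_nonneg hR0.le]
  rw [mem_ball, dist_eq_norm] at h5 h6
  have h7 : ‖(2 * R : ℂ)‖ < rad k + rad k := by
    have h8 : (2 * R : ℂ) = (x + R - ctr k p) - (x - R - ctr k p) := by ring
    rw [h8]
    exact (norm_sub_le _ _).trans_lt (add_lt_add h5 h6)
  rw [norm_mul, Complex.norm_real, Real.norm_of_nonneg hR0.le, Complex.norm_ofNat] at h7
  linarith

end Pool.H25.CLE
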