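import Pool.Agent.H25.CLE.Distort
import Pool.Agent.H25.CLE.Cell

/-! MODULE DETA (MP_5d7c93_pr, project CLE of helper25; overview /team-store/H25_CLE.md)
Deterministic step, metric part: near a good point w there is a z whose whole D-ball of radius ρ is strictly closer to y (in the metric D₂ of the image) than w. -/

set_option autoImplicit false

namespace Pool.H25.CLE

open MeasureTheory Set Metric Complex
open scoped ENNReal

theorem DetA_rpow {a b : ℝ} (ha : 0 < a) (hb : 0 < b) (h1 : a ≤ 96 * b) (h2 : b ≤ 96 * a) (d : ℝ) :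
    a ^ d ≤ (96 : ℝ) ^ |d| * b ^ d := by
  rcases le_total 0 d with hd | hd
  · rw [abs_of_nonneg hd, ← Real.mul_rpow (by norm_num) hb.le]
    exact Real.rpow_le_rpow ha.le h1 hd
  · rw [abs_of_nonpos hd]
    have h3 : a⁻¹ ≤ 96 * b⁻¹ := by
      rw [inv_le_comm₀ ha (by positivity)]
      rw [mul_inv, inv_inv]
      linarith
    have h4 : (a⁻¹) ^ (-d) ≤ (96 * b⁻¹) ^ (-d) := Real.rpow_le_rpow (by positivity) h3 (by linarith)
    rw [Real.mul_rpow (by norm_num) (by positivity), Real.inv_rpow ha.le, Real.inv_rpow hb.le,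
      ← Real.rpow_neg ha.le, ← Real.rpow_neg hb.le, neg_neg] at h4
    exact h4

theorem DetA_nonneg {U X : Set ℂ} {D : ℂ → ℂ → ℝ} (hD : IsLengthMetric U X D) {x y : ℂ} (hx : x ∈ X)
    (hy : y ∈ X) : 0 ≤ D x y := by
  by_cases h : x = y
  · subst h; exact (hD.self x hx).ge
  · exact (hD.pos x hx y hy h).le

theorem det_metric {d : ℝ} {H : ℂ → ℂ} {V' U X X₂ : Set ℂ} {D D₂ : ℂ → ℂ → ℝ} (hH : IsConf H HP V')
    (hVU : V' ⊆ U) (hX : X ⊆ HP)
    (hD : IsLengthMetric HP X D) (hD₂ : IsLengthMetric U X₂ D₂) (hHX : ∀ z ∈ HP, (z ∈ X ↔ H z ∈ X₂))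
    (hcov : CovLen d H X D D₂) {w : ℂ} (hw : w ∈ cell) (hwX : w ∈ X) {ρ : ℝ} (hρ : 0 < ρ)
    (hα : ∀ u ∈ X, D w u < LL d * ρ → ‖u - w‖ ≤ t1) {y : ℂ} (hy : y ∈ X₂) (hyU : y ∉ V') :
    ∃ z ∈ X, D w z < LL d * ρ ∧ ∀ u ∈ X, D z u < ρ → ‖u - w‖ ≤ t1 ∧ D₂ (H u) y < D₂ (H w) y := by
  have hball : ball w 1 ⊆ HP := ball_subset_HP hw
  have hB1 : ball w (1 / 256) ⊆ ball w 1 := ball_subset_ball (by norm_num)
  have hBHP : ball w (1 / 256) ⊆ HP := hB1.trans hball
  have hwHP : w ∈ HP := hX hwX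
  have hH1 : IsConf H (ball w 1) (H '' ball w 1) := hH.restrict isOpen_ball hball
  obtain ⟨g, hg, hgH, hHg⟩ := hH.exists_inv
  have hM0 : 0 < ‖deriv H w‖ := norm_pos_iff.2 (hH.deriv_ne w hwHP)
  set M := ‖deriv H w‖ with hM
  set c := (96 : ℝ) ^ |d| with hc
  have hc0 : 0 < c := Real.rpow_pos_of_pos (by norm_num) _
  have hc2 : LL d = 2 * (c * c) + 2 := by
    have : c * c = (96 : ℝ) ^ (2 * |d|) := by
      rw [hc, ← Real.rpow_add (by norm_num)]
      congr 1; ring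
    rw [this, LL]
  have hup : ∀ v ∈ ball w (1 / 256), ‖deriv H v‖ ^ d ≤ c * M ^ d := by
    intro v hv
    obtain ⟨h1, h2⟩ := distortion hH1 hv
    exact DetA_rpow (norm_pos_iff.2 (hH.deriv_ne v (hBHP hv))) hM0 h1 h2 d
  have hlo : ∀ v ∈ ball w (1 / 256), ‖deriv H v‖ ^ (-d) ≤ c * M ^ (-d) := by
    intro v hv
    obtain ⟨h1, h2⟩ := distortion hH1 hv
    have := DetA_rpow (norm_pos_iff.2 (hH.deriv_ne v (hBHP hv))) hM0 h1 h2 (-d)
    rwa [abs_neg] at this
  have ht1 : t1 < 1 / 256 := by unfold t1; norm_num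
  have ht1' : 0 < t1 := by unfold t1; norm_num
  have hB₁B : closedBall w t1 ⊆ ball w (1 / 256) := closedBall_subset_ball ht1
  have hMd : 0 < M ^ d := Real.rpow_pos_of_pos hM0 _
  have hMd' : 0 < M ^ (-d) := Real.rpow_pos_of_pos hM0 _
  have hMM : M ^ (-d) * M ^ d = 1 := by
    rw [← Real.rpow_add hM0]; simp
  set s₀ := 2 * c * M ^ d * ρ with hs₀
  have hs₀0 : 0 < s₀ := by positivity
  -- the open set H '' B
  have hO : IsOpen (H '' ball w (1 / 256)) := hH.isOpen_image isOpen_ball hBHP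
  have hOV : H '' ball w (1 / 256) ⊆ V' := by
    rintro _ ⟨v, hv, rfl⟩; exact hH.mapsTo (hBHP hv)
  have hkoebe : ball (H w) (M * (1 / 256) / 16) ⊆ H '' ball w (1 / 256) :=
    koebe (by norm_num) (hH.diff.mono hBHP) (hH.inj.mono hBHP)
  have hr0 : 0 < 3 * M / 16384 := by positivity
  have hrU : closedBall (H w) (3 * M / 16384) ⊆ U := by
    refine (closedBall_subset_ball ?_).trans (hkoebe.trans (hOV.trans hVU))
    linarith
  have hHwX₂ : H w ∈ X₂ := (hHX w hwHP).1 hwX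
  obtain ⟨γ, a, ha0, hγc, hγX, hγ0, hγL, hγe, hγd⟩ :=
    hD₂.length (H w) hHwX₂ y hy (3 * M / 16384) hr0 hrU (s₀ / 4) (by positivity)
  have hderivc : ContinuousOn (deriv H) HP := (hH.diff.deriv hH.isOpen).continuousOn
  -- claim A
  have claimA : ∀ s, 0 ≤ s → s ≤ a → (∀ t ∈ Icc 0 s, γ t ∈ H '' ball w (1 / 256)) →
      ∃ v ∈ X, H v = γ s ∧ D w v ≤ c * M ^ (-d) * s := by
    intro s hs0 hsa hst
    have hmapV : MapsTo γ (Icc 0 s) V' := fun t ht => hOV (hst t ht)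
    have hsub : Icc (0 : ℝ) s ⊆ Icc 0 a := Icc_subset_Icc_right hsa
    have hγ'c : ContinuousOn (fun t => g (γ t)) (Icc 0 s) :=
      hg.diff.continuousOn.comp (hγc.mono hsub) hmapV
    have hγ'B : ∀ t ∈ Icc (0 : ℝ) s, g (γ t) ∈ ball w (1 / 256) := by
      intro t ht
      obtain ⟨v, hv, hvt⟩ := hst t ht
      rw [← hvt, hgH v (hBHP hv)]; exact hv
    have hHγ' : ∀ t ∈ Icc (0 : ℝ) s, H (g (γ t)) = γ t := fun t ht => hHg _ (hmapV ht)
    have hγ'X : MapsTo (fun t => g (γ t)) (Icc 0 s) X := by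
      intro t ht
      refine (hHX _ (hBHP (hγ'B t ht))).2 ?_
      rw [hHγ' t ht]; exact hγX (hsub ht)
    have hlamc : ContinuousOn (fun t => ‖deriv H (g (γ t))‖ ^ (-d)) (Icc 0 s) := by
      refine ContinuousOn.rpow_const ?_ ?_
      · exact (hderivc.comp hγ'c fun t ht => hBHP (hγ'B t ht)).norm
      · intro t ht
        left
        exact norm_ne_zero_iff.2 (hH.deriv_ne _ (hBHP (hγ'B t ht)))
    have hlen : LenLE D₂ (H ∘ fun t => g (γ t))
        (fun t => ‖deriv H (g (γ t))‖ ^ (-d) * ‖deriv H (g (γ t))‖ ^ d) s := by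
      intro p q hp hpq hqs
      have h1 := hγL p q hp hpq (hqs.trans hsa)
      simp only [Function.comp_apply]
      rw [hHγ' p ⟨hp, hpq.trans hqs⟩, hHγ' q ⟨hp.trans hpq, hqs⟩]
      refine h1.trans (le_of_eq ?_)
      refine intervalIntegral.integral_congr fun t ht => ?_
      rw [uIcc_of_le hpq] at ht
      have ht' : t ∈ Icc 0 s := ⟨hp.trans ht.1, ht.2.trans hqs⟩
      have hpos : 0 < ‖deriv H (g (γ t))‖ := norm_pos_iff.2 (hH.deriv_ne _ (hBHP (hγ'B t ht')))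
      rw [← Real.rpow_add hpos]; simp
    have hlen' := (hcov (fun t => g (γ t)) (fun t => ‖deriv H (g (γ t))‖ ^ (-d)) s hs0 hγ'c hγ'X hlamc
      (fun t _ => by positivity)).2 hlen
    refine ⟨g (γ s), hγ'X ⟨hs0, le_rfl⟩, hHγ' s ⟨hs0, le_rfl⟩, ?_⟩
    have h2 := hlen' 0 s le_rfl hs0 le_rfl
    simp only [hγ0, hgH w hwHP] at h2
    refine h2.trans ?_
    have h3 : ‖∫ u in (0 : ℝ)..s, ‖deriv H (g (γ u))‖ ^ (-d)‖ ≤ c * M ^ (-d) * |s - 0| := by
      refine intervalIntegral.norm_integral_le_of_norm_le_const fun t ht => ?_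
      rw [uIoc_of_le hs0] at ht
      rw [Real.norm_of_nonneg (by positivity)]
      exact hlo _ (hγ'B t ⟨ht.1.le, ht.2⟩)
    rw [sub_zero, abs_of_nonneg hs0] at h3
    exact (le_abs_self _).trans h3
  have hbound : ∀ s, s ≤ s₀ → c * M ^ (-d) * s ≤ 2 * (c * c) * ρ := by
    intro s hs
    calc c * M ^ (-d) * s ≤ c * M ^ (-d) * s₀ := by gcongr
      _ = 2 * (c * c) * ρ * (M ^ (-d) * M ^ d) := by rw [hs₀]; ring
      _ = 2 * (c * c) * ρ := by rw [hMM, mul_one]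
  have hboundL : 2 * (c * c) * ρ + ρ < LL d * ρ := by
    rw [hc2]; nlinarith
  -- claim A'
  have claimA' : ∀ s, 0 ≤ s → s ≤ a → s ≤ s₀ → (∀ t ∈ Icc 0 s, γ t ∈ H '' ball w (1 / 256)) →
      γ s ∈ H '' closedBall w t1 := by
    intro s h0 h1 h2 h3
    obtain ⟨v, hvX, hvs, hvD⟩ := claimA s h0 h1 h3
    refine ⟨v, ?_, hvs⟩
    rw [mem_closedBall, dist_eq_norm]
    exact hα v hvX (by linarith [hbound s h2])
  have hKc : IsCompact (H '' closedBall w t1) :=
    (isCompact_closedBall w t1).image_of_continuousOn (hH.diff.continuousOn.mono (hB₁B.trans hBHP))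
  have hKO : H '' closedBall w t1 ⊆ H '' ball w (1 / 256) := image_mono hB₁B
  -- claim C
  have claimO : ∀ t ∈ Icc 0 (min s₀ a), γ t ∈ H '' ball w (1 / 256) := by
    by_contra hcon
    push Not at hcon
    have hAc : IsCompact (Icc 0 (min s₀ a) ∩ γ ⁻¹' (H '' ball w (1 / 256))ᶜ) := by
      have hcl : IsClosed (Icc 0 (min s₀ a) ∩ γ ⁻¹' (H '' ball w (1 / 256))ᶜ) :=
        (hγc.mono (Icc_subset_Icc_right (min_le_right _ _))).preimage_isClosed_of_isClosed isClosed_Icc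
          hO.isClosed_compl
      exact isCompact_Icc.of_isClosed_subset hcl inter_subset_left
    obtain ⟨t₀, ht₀, ht₀'⟩ := hcon
    obtain ⟨t₁, ⟨ht₁, ht₁'⟩, hmin⟩ := hAc.exists_isLeast ⟨t₀, ht₀, ht₀'⟩
    have hpos : 0 < t₁ := by
      rcases eq_or_lt_of_le ht₁.1 with h | h
      · exfalso
        apply ht₁'
        rw [← h, hγ0]
        exact ⟨w, mem_ball_self (by norm_num), rfl⟩
      · exact h
    have hmaps : MapsTo γ (Ico 0 t₁) (H '' closedBall w t1) := by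
      intro s hs
      refine claimA' s hs.1 (hs.2.le.trans (ht₁.2.trans (min_le_right _ _)))
        (hs.2.le.trans (ht₁.2.trans (min_le_left _ _))) fun t ht => ?_
      by_contra hh
      have : t₁ ≤ t := hmin ⟨⟨ht.1, ht.2.trans (hs.2.le.trans ht₁.2)⟩, hh⟩
      linarith [ht.2, hs.2]
    have hcw : ContinuousWithinAt γ (Ico 0 t₁) t₁ :=
      (hγc t₁ ⟨ht₁.1, ht₁.2.trans (min_le_right _ _)⟩).mono fun s hs =>
        ⟨hs.1, hs.2.le.trans (ht₁.2.trans (min_le_right _ _))⟩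
    have hmem : γ t₁ ∈ closure (H '' closedBall w t1) :=
      hcw.mem_closure (by rw [closure_Ico hpos.ne]; exact ⟨hpos.le, le_rfl⟩) hmaps
    rw [hKc.isClosed.closure_eq] at hmem
    exact ht₁' (hKO hmem)
  -- claim D
  have claimD : γ a ∉ H '' closedBall w t1 := by
    rintro ⟨v, hv, hva⟩
    rcases hγe with h | h
    · apply hyU
      rw [← h, ← hva]
      exact hOV ⟨v, hB₁B hv, rfl⟩
    · have h1 := growth hH1 (hB₁B hv)
      rw [← hva] at h
      rw [mem_closedBall, dist_eq_norm] at hv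
      have h2 : 96 * M * ‖v - w‖ ≤ 96 * M * t1 := by gcongr
      have h3 : 96 * M * t1 = M / 8192 := by unfold t1; ring
      have : ‖H v - H w‖ ≤ M / 8192 := h1.trans (h2.trans h3.le)
      linarith
  have hT : s₀ < a := by
    by_contra hcon
    push Not at hcon
    apply claimD
    refine claimA' a ha0 le_rfl hcon fun t ht => claimO t ?_
    rw [min_eq_right hcon]; exact ht
  obtain ⟨z, hzX, hzs, hzD⟩ := claimA s₀ hs₀0.le hT.le fun t ht => claimO t (by
    rw [min_eq_left hT.le]; exact ht)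
  have hzD' : D w z ≤ 2 * (c * c) * ρ := hzD.trans (hbound s₀ le_rfl)
  have hzB : ‖z - w‖ ≤ t1 := hα z hzX (by linarith)
  refine ⟨z, hzX, by linarith, fun u hu hzu => ?_⟩
  have hz_near : closedBall z (1 / 512) ⊆ HP := by
    intro v hv
    apply hball
    rw [mem_closedBall, dist_eq_norm] at hv
    rw [mem_ball, dist_eq_norm]
    calc ‖v - w‖ ≤ ‖v - z‖ + ‖z - w‖ := norm_sub_le_norm_sub_add_norm_sub v z w
      _ < 1 := by linarith
  obtain ⟨β, b, hb0, hβc, hβX, hβ0, hβL, hβe, hβd⟩ :=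
    hD.length z hzX u hu (1 / 512) (by norm_num) hz_near ((ρ - D z u) / 2) (by linarith)
  have hbX : β b ∈ X := hβX ⟨hb0, le_rfl⟩
  have hbρ : b < ρ := by
    have := DetA_nonneg hD hbX hu
    linarith
  have hpts : ∀ t ∈ Icc 0 b, ‖β t - w‖ ≤ t1 := by
    intro t ht
    have h1 := hβL 0 t le_rfl ht.1 ht.2
    rw [hβ0] at h1
    simp only [intervalIntegral.integral_const, smul_eq_mul, mul_one, sub_zero] at h1
    have h2 := hD.tri w hwX z hzX (β t) (hβX ht)
    exact hα _ (hβX ht) (by linarith [ht.2])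
  have hbu : β b = u := by
    rcases hβe with h | h
    · exact h
    · exfalso
      have h1 := hpts b ⟨hb0, le_rfl⟩
      have h2 : ‖β b - z‖ ≤ ‖β b - w‖ + ‖w - z‖ := norm_sub_le_norm_sub_add_norm_sub _ w z
      rw [norm_sub_rev w z] at h2
      have : t1 < 1 / 2048 := by unfold t1; norm_num
      linarith
  have hub : ‖u - w‖ ≤ t1 := by
    rw [← hbu]; exact hpts b ⟨hb0, le_rfl⟩
  refine ⟨hub, ?_⟩
  have hlen2 := (hcov β (fun _ => 1) b hb0 hβc hβX continuousOn_const (fun _ _ => zero_le_one)).1 hβL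
  have h3 := hlen2 0 b le_rfl hb0 le_rfl
  simp only [Function.comp_apply, hβ0, hbu, one_mul] at h3
  have h4 : ‖∫ t in (0 : ℝ)..b, ‖deriv H (β t)‖ ^ d‖ ≤ c * M ^ d * |b - 0| := by
    refine intervalIntegral.norm_integral_le_of_norm_le_const fun t ht => ?_
    rw [uIoc_of_le hb0] at ht
    rw [Real.norm_of_nonneg (by positivity)]
    refine hup _ ?_
    rw [mem_ball, dist_eq_norm]
    exact (hpts t ⟨ht.1.le, ht.2⟩).trans_lt ht1
  rw [sub_zero, abs_of_nonneg hb0] at h4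
  have h5 : D₂ (H z) (H u) < s₀ / 2 := by
    have h6 : c * M ^ d * b < c * M ^ d * ρ := by gcongr
    have h7 : s₀ / 2 = c * M ^ d * ρ := by rw [hs₀]; ring
    rw [h7]
    exact (h3.trans ((le_abs_self _).trans h4)).trans_lt h6
  have hHz : H z ∈ X₂ := (hHX z (hX hzX)).1 hzX
  have hHu : H u ∈ X₂ := (hHX u (hX hu)).1 hu
  have haX : γ a ∈ X₂ := hγX ⟨ha0, le_rfl⟩
  have h8 : D₂ (H z) (γ a) ≤ a - s₀ := by
    have := hγL s₀ a hs₀0.le hT.le le_rfl
    rw [← hzs] at this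
    simpa using this
  have h9 := hD₂.tri (H z) hHz (γ a) haX y hy
  have h10 := hD₂.tri (H u) hHu (H z) hHz y hy
  rw [hD₂.symm (H u) hHu (H z) hHz] at h10
  linarith

end Pool.H25.CLE
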