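import Pool.Agent.H25.CLE.Defs2

/-! MODULE INV (MP_5d7c93_pr, project CLE of helper25; overview /team-store/H25_CLE.md)
Basic facts on conformal isomorphisms, push and pull. Open mapping: F is analytic with non-zero derivative, so `HasStrictDerivAt.map_nhds_eq` (or
`AnalyticOnNhd.is_constant_or_isOpen`). Inverse: `invFunOn`, continuity from the open mapping property, derivative from `HasDerivAt.of_local_left_inverse` / `HasStrictDerivAt.of_local_left_inverse`. -/

set_option autoImplicit false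

namespace Pool.H25.CLE

open Set Metric Complex

theorem isOpen_HP : IsOpen HP := isOpen_lt continuous_const Complex.continuous_im

theorem inv_strict {f : ℂ → ℂ} {U V : Set ℂ} (hf : IsConf f U V) {z : ℂ} (hz : z ∈ U) :
    HasStrictDerivAt f (deriv f z) z :=
  (hf.diff.analyticAt (hf.isOpen.mem_nhds hz)).hasStrictDerivAt

theorem IsConf.isOpen_image {f : ℂ → ℂ} {U V : Set ℂ} (hf : IsConf f U V) {W : Set ℂ} (hW : IsOpen W)
    (hWU : W ⊆ U) : IsOpen (f '' W) := by
  rw [isOpen_iff_mem_nhds]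
  rintro _ ⟨z, hz, rfl⟩
  rw [← (inv_strict hf (hWU hz)).map_nhds_eq (hf.deriv_ne z (hWU hz))]
  exact Filter.image_mem_map (hW.mem_nhds hz)

theorem IsConf.isOpen_target {f : ℂ → ℂ} {U V : Set ℂ} (hf : IsConf f U V) : IsOpen V := by
  rw [← hf.image]
  exact hf.isOpen_image hf.isOpen Subset.rfl

theorem IsConf.mapsTo {f : ℂ → ℂ} {U V : Set ℂ} (hf : IsConf f U V) : MapsTo f U V := by
  intro z hz
  rw [← hf.image]
  exact mem_image_of_mem f hz

theorem IsConf.exists_inv {f : ℂ → ℂ} {U V : Set ℂ} (hf : IsConf f U V) :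
    ∃ g : ℂ → ℂ, IsConf g V U ∧ (∀ z ∈ U, g (f z) = z) ∧ (∀ z ∈ V, f (g z) = z) := by
  have hl : ∀ z ∈ U, Function.invFunOn f U (f z) = z := fun z hz =>
    hf.inj.leftInvOn_invFunOn hz
  have hr : ∀ w ∈ V, f (Function.invFunOn f U w) = w := fun w hw => by
    rw [← hf.image] at hw
    exact Function.invFunOn_eq hw
  have hm : ∀ w ∈ V, Function.invFunOn f U w ∈ U := fun w hw => by
    rw [← hf.image] at hw
    exact Function.invFunOn_mem hw
  have hc : ∀ w ∈ V, ContinuousAt (Function.invFunOn f U) w := by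
    intro w hw
    rw [continuousAt_def]
    intro A hA
    obtain ⟨A', hA'A, hA'o, hwA'⟩ := _root_.mem_nhds_iff.1 hA
    have h1 : IsOpen (f '' (A' ∩ U)) := hf.isOpen_image (hA'o.inter hf.isOpen) inter_subset_right
    refine Filter.mem_of_superset (h1.mem_nhds ⟨_, ⟨hwA', hm w hw⟩, hr w hw⟩) ?_
    rintro _ ⟨z, ⟨hz1, hz2⟩, rfl⟩
    rw [mem_preimage, hl z hz2]
    exact hA'A hz1
  have hd : ∀ w ∈ V, HasDerivAt (Function.invFunOn f U)
      (deriv f (Function.invFunOn f U w))⁻¹ w := by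
    intro w hw
    refine HasDerivAt.of_local_left_inverse (hc w hw) (inv_strict hf (hm w hw)).hasDerivAt
      (hf.deriv_ne _ (hm w hw)) ?_
    filter_upwards [hf.isOpen_target.mem_nhds hw] with y hy
    exact hr y hy
  refine ⟨Function.invFunOn f U, ⟨hf.isOpen_target, ?_, ?_, ?_, ?_⟩, hl, hr⟩
  · intro w hw
    exact (hd w hw).differentiableAt.differentiableWithinAt
  · intro w hw
    rw [(hd w hw).deriv]
    exact inv_ne_zero (hf.deriv_ne _ (hm w hw))
  · intro w hw w' hw' h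
    rw [← hr w hw, ← hr w' hw', h]
  · ext z
    constructor
    · rintro ⟨w, hw, rfl⟩
      exact hm w hw
    · intro hz
      exact ⟨f z, hf.mapsTo hz, hl z hz⟩

theorem inv_differentiableAt {f : ℂ → ℂ} {U V : Set ℂ} (hf : IsConf f U V) {z : ℂ} (hz : z ∈ U) :
    DifferentiableAt ℂ f z := (inv_strict hf hz).hasDerivAt.differentiableAt

theorem IsConf.deriv_comp {f g : ℂ → ℂ} {U V W : Set ℂ} (hf : IsConf f U V) (hg : IsConf g V W) {z : ℂ}
    (hz : z ∈ U) : deriv (fun z => g (f z)) z = deriv g (f z) * deriv f z :=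
  ((inv_strict hg (hf.mapsTo hz)).hasDerivAt.comp z (inv_strict hf hz).hasDerivAt).deriv

theorem IsConf.comp {f g : ℂ → ℂ} {U V W : Set ℂ} (hf : IsConf f U V) (hg : IsConf g V W) :
    IsConf (fun z => g (f z)) U W where
  isOpen := hf.isOpen
  diff := fun z hz => ((inv_differentiableAt hg (hf.mapsTo hz)).comp z
    (inv_differentiableAt hf hz)).differentiableWithinAt
  deriv_ne := by
    intro z hz
    rw [hf.deriv_comp hg hz]
    exact mul_ne_zero (hg.deriv_ne _ (hf.mapsTo hz)) (hf.deriv_ne z hz)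
  inj := fun z hz z' hz' h => hf.inj hz hz' (hg.inj (hf.mapsTo hz) (hf.mapsTo hz') h)
  image := by
    rw [← hg.image, ← hf.image, image_image]

theorem IsConf.restrict {f : ℂ → ℂ} {U V W : Set ℂ} (hf : IsConf f U V) (hW : IsOpen W) (hWU : W ⊆ U) :
    IsConf f W (f '' W) where
  isOpen := hW
  diff := hf.diff.mono hWU
  deriv_ne := fun z hz => hf.deriv_ne z (hWU hz)
  inj := hf.inj.mono hWU
  image := rfl

theorem push_coe {f : ℂ → ℂ} {U V : Set ℂ} (hf : IsConf f U V) (G : Conf) :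
    (push f U G : Set ℂ) = f '' (U ∩ (G : Set ℂ)) :=
  (hf.isOpen_image (hf.isOpen.inter G.isOpen) inter_subset_left).interior_eq

theorem pull_coe {f : ℂ → ℂ} {U V : Set ℂ} (hf : IsConf f U V) (G : Conf) :
    (pull f U G : Set ℂ) = U ∩ f ⁻¹' (G : Set ℂ) :=
  (hf.diff.continuousOn.isOpen_inter_preimage hf.isOpen G.isOpen).interior_eq

theorem mem_carpet_push {f : ℂ → ℂ} {U V : Set ℂ} (hf : IsConf f U V) (G : Conf) {z : ℂ} (hz : z ∈ U) :
    f z ∈ carpet V (push f U G) ↔ z ∈ carpet U G := by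
  unfold carpet
  rw [mem_sdiff, mem_sdiff, push_coe hf]
  constructor
  · rintro ⟨-, h2⟩
    exact ⟨hz, fun h => h2 ⟨z, ⟨hz, h⟩, rfl⟩⟩
  · rintro ⟨-, h2⟩
    refine ⟨hf.mapsTo hz, ?_⟩
    rintro ⟨z', ⟨h3, h4⟩, h5⟩
    rw [hf.inj h3 hz h5] at h4
    exact h2 h4

/-- the carpet of a pulled back configuration -/
theorem mem_carpet_pull {f : ℂ → ℂ} {V : Set ℂ} (hf : IsConf f HP V) (hV : V ⊆ HP) (G : Conf) {z : ℂ}
    (hz : z ∈ HP) : z ∈ carpet HP (pull f HP G) ↔ f z ∈ carpet HP G := by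
  unfold carpet
  rw [mem_sdiff, mem_sdiff, pull_coe hf]
  constructor
  · rintro ⟨-, h2⟩
    exact ⟨hV (hf.mapsTo hz), fun h => h2 ⟨hz, h⟩⟩
  · rintro ⟨-, h2⟩
    exact ⟨hz, fun h => h2 h.2⟩

theorem push_pull {A : ℂ → ℂ} (hA : IsConf A HP HP) (G : Conf) (hG : (G : Set ℂ) ⊆ HP) :
    push A HP (pull A HP G) = G := by
  apply TopologicalSpace.Opens.ext
  rw [push_coe hA, pull_coe hA]
  ext w
  constructor
  · rintro ⟨z, ⟨-, -, h3⟩, rfl⟩
    exact h3
  · intro hw
    have h1 := hG hw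
    rw [← hA.image] at h1
    obtain ⟨z, hz, rfl⟩ := h1
    exact ⟨z, ⟨hz, hz, hw⟩, rfl⟩

/-- pull by an automorphism is push by the inverse -/
theorem pull_eq_push {A B : ℂ → ℂ} (hA : IsConf A HP HP) (hB : IsConf B HP HP) (hBA : ∀ z ∈ HP, B (A z) = z)
    (hAB : ∀ z ∈ HP, A (B z) = z) (G : Conf) : pull A HP G = push B HP G := by
  apply TopologicalSpace.Opens.ext
  rw [push_coe hB, pull_coe hA]
  ext z
  constructor
  · rintro ⟨h1, h2⟩
    exact ⟨A z, ⟨hA.mapsTo h1, h2⟩, hBA z h1⟩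
  · rintro ⟨w, ⟨h1, h2⟩, rfl⟩
    refine ⟨hB.mapsTo h1, ?_⟩
    rw [mem_preimage, hAB w h1]
    exact h2

theorem pull_subset (f : ℂ → ℂ) (U : Set ℂ) (G : Conf) : (pull f U G : Set ℂ) ⊆ U :=
  interior_subset.trans inter_subset_left

end Pool.H25.CLE
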