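import Pool.Agent.H25.CLE.Koebe
import Pool.Agent.H25.CLE.Inv

/-! MODULE DISTORT (MP_5d7c93_pr, project CLE of helper25; overview /team-store/H25_CLE.md)
Bounded distortion of conformal maps of the unit disc B(w,1), on B(w,1/256).
Proof. Step 1: for ‖z - w‖ ≤ 1/128: ‖F'(z)‖ ≤ 96 ‖F'(w)‖. Let B' = ball w (1/2), O = (F '' B')ᶜ, nonempty (F(w + 3/4) ∈ O by injectivity), d(z) = infDist (F z) O for z ∈ B'.
 (a) ball (F z) (d z) ⊆ F '' B'; the inverse g of F (IsConf.exists_inv) maps this ball into B' ⊆ ball z (3/4) for ‖z-w‖ ≤ 1/4, g(F z) = z, so by the Schwarz lemma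
   (`Complex.norm_deriv_le_div_of_mapsTo_ball`) 1/‖F'(z)‖ = ‖g'(F z)‖ ≤ (3/4)/d(z), i.e. d(z) ≤ (3/4)‖F'(z)‖ (trivial if d(z) = 0).
 (b) koebe on ball z (1/4) ⊆ B': ball (F z) (‖F'(z)‖/64) ⊆ F '' B', so d(z) ≥ ‖F'(z)‖/64 (‖z-w‖ ≤ 1/4).
 (c) d(z) ≤ d(w) + ‖F z - F w‖ (infDist is 1-Lipschitz).
 Let z* maximise ‖F'‖ on closedBall w (1/128) (compact, deriv F continuous). ‖F z* - F w‖ ≤ ‖F'(z*)‖/128 (convexity, `Convex.norm_image_sub_le_of_norm_deriv_le`), so
 ‖F'(z*)‖ ≤ 64 d(z*) ≤ 64 ((3/4)‖F'(w)‖ + ‖F'(z*)‖/128), i.e. ‖F'(z*)‖ ≤ 96 ‖F'(w)‖.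
Step 2 (lower bound): for ‖z - w‖ < 1/256 apply step 1 to F̃(ζ) = F(z + ζ/2) on ball 0 1 (z + ball 0 (1/2) ⊆ ball w 1) at the point ζ = 2(w - z), ‖ζ‖ < 1/128: ‖F'(w)‖ ≤ 96 ‖F'(z)‖.
 growth: convexity of the ball. -/

set_option autoImplicit false

namespace Pool.H25.CLE

open Set Metric Complex

theorem distort_upper {F : ℂ → ℂ} {w : ℂ} {V : Set ℂ} (hF : IsConf F (ball w 1) V) {z : ℂ}
    (hz : z ∈ closedBall w (1 / 128)) : ‖deriv F z‖ ≤ 96 * ‖deriv F w‖ := by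
  have hdiffAt : ∀ x ∈ ball w 1, DifferentiableAt ℂ F x := fun x hx =>
    hF.diff.differentiableAt (isOpen_ball.mem_nhds hx)
  have hB' : ball w (1 / 2) ⊆ ball w 1 := ball_subset_ball (by norm_num)
  set O : Set ℂ := (F '' ball w (1 / 2))ᶜ with hO
  have hOne : O.Nonempty := by
    refine ⟨F (w + 3 / 4), ?_⟩
    rintro ⟨y, hy, hyF⟩
    have h1 : w + 3 / 4 ∈ ball w 1 := by
      rw [mem_ball_iff_norm, add_sub_cancel_left]
      rw [norm_div, Complex.norm_ofNat, Complex.norm_ofNat]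
      norm_num
    have h2 := hF.inj (hB' hy) h1 hyF
    rw [h2, mem_ball_iff_norm, add_sub_cancel_left, norm_div, Complex.norm_ofNat,
      Complex.norm_ofNat] at hy
    norm_num at hy
  obtain ⟨g, hg, hgF, hFg⟩ := hF.exists_inv
  -- (a)
  have ha : infDist (F w) O ≤ 3 / 4 * ‖deriv F w‖ := by
    have hwmem : w ∈ ball w (1 / 2) := mem_ball_self (by norm_num)
    rcases eq_or_lt_of_le (infDist_nonneg (x := F w) (s := O)) with h0 | hpos
    · rw [← h0]; positivity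
    have hsub : ball (F w) (infDist (F w) O) ⊆ F '' ball w (1 / 2) := by
      intro x hx
      by_contra hno
      exact (disjoint_left.mp disjoint_ball_infDist hx) hno
    have hsubV : ball (F w) (infDist (F w) O) ⊆ V := by
      intro x hx
      rw [← hF.image]
      exact image_mono hB' (hsub hx)
    have hgd : DifferentiableOn ℂ g (ball (F w) (infDist (F w) O)) := hg.diff.mono hsubV
    have hgw : g (F w) = w := hgF w (hB' hwmem)
    have hmaps : MapsTo g (ball (F w) (infDist (F w) O)) (closedBall (g (F w)) (3 / 4)) := by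
      intro x hx
      obtain ⟨y, hy, rfl⟩ := hsub hx
      rw [hgF y (hB' hy), hgw]
      rw [mem_ball] at hy
      rw [mem_closedBall]
      linarith
    have h1 := Complex.norm_deriv_le_div_of_mapsTo_ball hgd hmaps hpos
    have h2 : deriv g (F w) * deriv F w = 1 := by
      have h3 := hF.deriv_comp hg (hB' hwmem)
      rw [← h3]
      have h4 : (fun z => g (F z)) =ᶠ[nhds w] fun z => z :=
        Filter.eventually_of_mem (ball_mem_nhds w one_pos) hgF
      rw [h4.deriv_eq]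
      exact (hasDerivAt_id w).deriv
    have h3 : ‖deriv g (F w)‖ * ‖deriv F w‖ = 1 := by rw [← norm_mul, h2, norm_one]
    rw [le_div_iff₀ hpos] at h1
    have hn : 0 ≤ ‖deriv F w‖ := norm_nonneg _
    calc infDist (F w) O = (‖deriv g (F w)‖ * infDist (F w) O) * ‖deriv F w‖ := by
          rw [mul_right_comm, h3, one_mul]
      _ ≤ 3 / 4 * ‖deriv F w‖ := mul_le_mul_of_nonneg_right h1 hn
  -- (b)
  have hb : ∀ x ∈ closedBall w (1 / 4), ‖deriv F x‖ / 64 ≤ infDist (F x) O := by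
    intro x hx
    have hsub : ball x (1 / 4) ⊆ ball w (1 / 2) := by
      refine ball_subset_ball' ?_
      rw [mem_closedBall] at hx
      linarith
    have hk := koebe (F := F) (w := x) (t := 1 / 4) (by norm_num)
      (hF.diff.mono (hsub.trans hB')) (hF.inj.mono (hsub.trans hB'))
    rw [le_infDist hOne]
    intro y hy
    by_contra hlt
    rw [not_le] at hlt
    have h1 : y ∈ ball (F x) (‖deriv F x‖ * (1 / 4) / 16) := by
      rw [mem_ball, dist_comm]; linarith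
    obtain ⟨u, hu, hu'⟩ := hk h1
    exact hy ⟨u, hsub hu, hu'⟩
  -- the maximum
  have hcb : closedBall w (1 / 128) ⊆ ball w 1 := closedBall_subset_ball (by norm_num)
  have hcont : ContinuousOn (fun x => ‖deriv F x‖) (closedBall w (1 / 128)) := by
    refine ContinuousOn.norm ?_
    exact ((hF.diff.deriv isOpen_ball).continuousOn).mono hcb
  obtain ⟨zs, hzs, hmax⟩ := (isCompact_closedBall w (1 / 128)).exists_isMaxOn
    ⟨w, mem_closedBall_self (by norm_num)⟩ hcont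
  have hmax' : ∀ x ∈ closedBall w (1 / 128), ‖deriv F x‖ ≤ ‖deriv F zs‖ := fun x hx => hmax hx
  have hmv : ‖F zs - F w‖ ≤ ‖deriv F zs‖ * ‖zs - w‖ :=
    (convex_closedBall w (1 / 128)).norm_image_sub_le_of_norm_deriv_le (𝕜 := ℂ)
      (fun x hx => hdiffAt x (hcb hx)) hmax' (mem_closedBall_self (by norm_num)) hzs
  have hzs' : ‖zs - w‖ ≤ 1 / 128 := by rwa [mem_closedBall_iff_norm] at hzs
  have h1 := hb zs (closedBall_subset_closedBall (by norm_num) hzs)
  have h2 : infDist (F zs) O ≤ infDist (F w) O + dist (F zs) (F w) := infDist_le_infDist_add_dist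
  rw [dist_eq_norm] at h2
  have hn : 0 ≤ ‖deriv F zs‖ := norm_nonneg _
  have h3 : ‖deriv F zs‖ * ‖zs - w‖ ≤ ‖deriv F zs‖ * (1 / 128) :=
    mul_le_mul_of_nonneg_left hzs' hn
  have h4 := hmax' z hz
  linarith

theorem distortion {F : ℂ → ℂ} {w : ℂ} {V : Set ℂ} (hF : IsConf F (ball w 1) V) {z : ℂ}
    (hz : z ∈ ball w (1 / 256)) :
    ‖deriv F z‖ ≤ 96 * ‖deriv F w‖ ∧ ‖deriv F w‖ ≤ 96 * ‖deriv F z‖ := by
  refine ⟨distort_upper hF (closedBall_subset_closedBall (by norm_num)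
    (ball_subset_closedBall hz)), ?_⟩
  rw [mem_ball_iff_norm] at hz
  have hmaps : ∀ ζ ∈ ball (0 : ℂ) 1, z + ζ / 2 ∈ ball w 1 := by
    intro ζ hζ
    rw [mem_ball_zero_iff] at hζ
    rw [mem_ball_iff_norm]
    calc ‖z + ζ / 2 - w‖ = ‖(z - w) + ζ / 2‖ := by congr 1; ring
      _ ≤ ‖z - w‖ + ‖ζ / 2‖ := norm_add_le _ _
      _ = ‖z - w‖ + ‖ζ‖ / 2 := by rw [norm_div, Complex.norm_ofNat]
      _ < 1 := by linarith
  have hderiv : ∀ ζ ∈ ball (0 : ℂ) 1,
      HasDerivAt (fun ζ : ℂ => F (z + ζ / 2)) (deriv F (z + ζ / 2) * (1 / 2)) ζ := by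
    intro ζ hζ
    have h1 : HasDerivAt (fun ζ : ℂ => z + ζ / 2) (1 / 2 : ℂ) ζ :=
      ((hasDerivAt_id ζ).div_const 2).const_add z
    have h2 : HasDerivAt F (deriv F (z + ζ / 2)) (z + ζ / 2) :=
      (hF.diff.differentiableAt (isOpen_ball.mem_nhds (hmaps ζ hζ))).hasDerivAt
    exact h2.comp ζ h1
  have hG : IsConf (fun ζ : ℂ => F (z + ζ / 2)) (ball 0 1)
      ((fun ζ : ℂ => F (z + ζ / 2)) '' ball 0 1) := by
    refine ⟨isOpen_ball, fun ζ hζ => (hderiv ζ hζ).differentiableAt.differentiableWithinAt, ?_, ?_,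
      rfl⟩
    · intro ζ hζ
      rw [(hderiv ζ hζ).deriv]
      exact mul_ne_zero (hF.deriv_ne _ (hmaps ζ hζ)) (by norm_num)
    · intro a ha b hb hab
      have := hF.inj (hmaps a ha) (hmaps b hb) hab
      linear_combination 2 * this
  have hζ : 2 * (w - z) ∈ closedBall (0 : ℂ) (1 / 128) := by
    rw [mem_closedBall_zero_iff, norm_mul, Complex.norm_ofNat, norm_sub_rev]
    linarith
  have h1 := distort_upper hG hζ
  rw [(hderiv _ (closedBall_subset_ball (by norm_num) hζ)).deriv,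
    (hderiv 0 (mem_ball_self one_pos)).deriv, norm_mul, norm_mul] at h1
  have e1 : z + 2 * (w - z) / 2 = w := by ring
  have e2 : z + 0 / 2 = z := by ring
  rw [e1, e2] at h1
  have e3 : ‖(1 / 2 : ℂ)‖ = 1 / 2 := by rw [norm_div, norm_one, Complex.norm_ofNat]
  rw [e3] at h1
  linarith

theorem growth {F : ℂ → ℂ} {w : ℂ} {V : Set ℂ} (hF : IsConf F (ball w 1) V) {z : ℂ}
    (hz : z ∈ ball w (1 / 256)) : ‖F z - F w‖ ≤ 96 * ‖deriv F w‖ * ‖z - w‖ :=
  (convex_ball w (1 / 256)).norm_image_sub_le_of_norm_deriv_le (𝕜 := ℂ)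
    (fun _ hx => hF.diff.differentiableAt
      (isOpen_ball.mem_nhds (ball_subset_ball (by norm_num) hx)))
    (fun _ hx => (distortion hF hx).1) (mem_ball_self (by norm_num)) hz

end Pool.H25.CLE
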