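import Pool.Agent.H25.CLE.Inv

/-! MODULE DOM (MP_5d7c93_pr, project CLE of helper25; overview /team-store/H25_CLE.md)
Topology of the exploration in a disc Q = ball c r ⊆ HP.
isOpen_diff_hull: let z ∈ Q \ hull. Take δ > 0 with closedBall z (2δ) ⊆ Q. A hole O with closure O not inside Q whose closure meets closedBall z δ has diam O ≥ δ (closure O contains a point of
closedBall z δ and a point outside Q, which is at distance ≥ δ; diam (closure O) = diam O, O bounded), so by locfin (K = closedBall z δ) only finitely many such O; the finite union of their closures is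
closed and does not contain z. dom_coe: components of an open subset of ℂ are open (`IsOpen.connectedComponentIn`). chart_cover: the component of x is open and
non-empty, so it contains a point of the dense sequence; take the first index (Nat.find); `connectedComponentIn_eq`. dom_unique: if x lies in both domains they are equal, so they contain both base points. -/

set_option autoImplicit false

namespace Pool.H25.CLE

open MeasureTheory Set Metric Complex

theorem isOpen_diff_hull {G : Conf} (hG : IsLoopConf G) {c : ℂ} {r : ℝ} (hQ : ball c r ⊆ HP) :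
    IsOpen (ball c r \ hull (ball c r) G) := by
  rw [isOpen_iff_mem_nhds]
  rintro z ⟨hz, hzh⟩
  -- a small radius
  obtain ⟨δ, hδ, hδQ⟩ : ∃ δ : ℝ, 0 < δ ∧ closedBall z (2 * δ) ⊆ ball c r := by
    obtain ⟨ε, hε, hεQ⟩ := Metric.isOpen_iff.1 (isOpen_ball : IsOpen (ball c r)) z hz
    exact ⟨ε / 4, by positivity, (closedBall_subset_ball (by linarith)).trans hεQ⟩
  have hKQ : closedBall z δ ⊆ ball c r := (closedBall_subset_closedBall (by linarith)).trans hδQ
  have hfin := hG.locfin (closedBall z δ) (isCompact_closedBall z δ) (hKQ.trans hQ) δ hδ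
  set S : Set (Set ℂ) := {O | IsHole G O ∧ (closure O ∩ closedBall z δ).Nonempty ∧ δ ≤ diam O} with hS
  have hfin' : {O | O ∈ S ∧ ¬ closure O ⊆ ball c r}.Finite := hfin.subset fun O hO => hO.1
  have hclosed : IsClosed (⋃ O ∈ {O | O ∈ S ∧ ¬ closure O ⊆ ball c r}, closure O) :=
    hfin'.isClosed_biUnion fun O _ => isClosed_closure
  have hmem : ball z δ ∩ (⋃ O ∈ {O | O ∈ S ∧ ¬ closure O ⊆ ball c r}, closure O)ᶜ ∈ nhds z := by
    refine (isOpen_ball.inter hclosed.isOpen_compl).mem_nhds ⟨mem_ball_self hδ, ?_⟩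
    intro hz'
    simp only [mem_iUnion] at hz'
    obtain ⟨O, hO, hzO⟩ := hz'
    exact hzh ⟨O, hO.1.1, hO.2, hzO⟩
  refine Filter.mem_of_superset hmem ?_
  rintro y ⟨hy, hy'⟩
  refine ⟨hKQ (ball_subset_closedBall hy), ?_⟩
  rintro ⟨O, hO, hOQ, hyO⟩
  apply hy'
  simp only [mem_iUnion]
  refine ⟨O, ⟨⟨hO, ⟨y, hyO, ball_subset_closedBall hy⟩, ?_⟩, hOQ⟩, hyO⟩
  obtain ⟨p, hpO, hpQ⟩ := not_subset.1 hOQ
  have hb : Bornology.IsBounded (closure O) := (hG.loop O hO).1.closure
  have h1 : dist y p ≤ diam O := by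
    rw [← Metric.diam_closure]
    exact dist_le_diam_of_mem hb hyO hpO
  have h2 : 2 * δ < dist p z := by
    by_contra hcon
    exact hpQ (hδQ (mem_closedBall.2 (not_lt.1 hcon)))
  have h3 : dist y z < δ := mem_ball.1 hy
  have h4 : dist p z ≤ dist p y + dist y z := dist_triangle _ _ _
  rw [dist_comm p y] at h4
  linarith

theorem dom_coe {G : Conf} (hG : IsLoopConf G) {c : ℂ} {r : ℝ} (hQ : ball c r ⊆ HP) (z₀ : ℂ) :
    (dom (ball c r) z₀ G : Set ℂ) = connectedComponentIn (ball c r \ hull (ball c r) G) z₀ := by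
  change interior (connectedComponentIn (ball c r \ hull (ball c r) G) z₀) = _
  exact (isOpen_diff_hull hG hQ).connectedComponentIn.interior_eq

theorem dom_subset (Q : Set ℂ) (z₀ : ℂ) (G : Conf) : (dom Q z₀ G : Set ℂ) ⊆ Q := by
  change interior (connectedComponentIn (Q \ hull Q G) z₀) ⊆ Q
  exact interior_subset.trans ((connectedComponentIn_subset _ _).trans sdiff_subset)

/-- every point `x` of the disc outside the hull is in one of the explored domains, with a first base point -/
theorem chart_cover {G : Conf} (hG : IsLoopConf G) {c : ℂ} {r : ℝ} (hQ : ball c r ⊆ HP) {x : ℂ}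
    (hx : x ∈ ball c r) (hxh : x ∉ hull (ball c r) G) :
    ∃ i : ℕ, zseq i ∈ ball c r ∧ G ∈ good (ball c r) (zseq i) ∧ x ∈ (dom (ball c r) (zseq i) G : Set ℂ) ∧
      ∀ m < i, zseq m ∉ (dom (ball c r) (zseq i) G : Set ℂ) := by
  classical
  have hxm : x ∈ connectedComponentIn (ball c r \ hull (ball c r) G) x :=
    mem_connectedComponentIn ⟨hx, hxh⟩
  have hopen : IsOpen (connectedComponentIn (ball c r \ hull (ball c r) G) x) :=
    (isOpen_diff_hull hG hQ).connectedComponentIn
  have hex : ∃ i : ℕ, zseq i ∈ connectedComponentIn (ball c r \ hull (ball c r) G) x := by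
    obtain ⟨y, hy, i, rfl⟩ := (TopologicalSpace.denseRange_denseSeq ℂ).exists_mem_open hopen ⟨x, hxm⟩ |>.elim
      (fun i hi => (⟨_, hi, i, rfl⟩ : ∃ y ∈ connectedComponentIn (ball c r \ hull (ball c r) G) x,
        ∃ i, TopologicalSpace.denseSeq ℂ i = y))
    exact ⟨i, hy⟩
  have hi := Nat.find_spec hex
  have heq := connectedComponentIn_eq hi
  have hsub := connectedComponentIn_subset (ball c r \ hull (ball c r) G) x hi
  refine ⟨Nat.find hex, hsub.1, hsub.2, ?_, ?_⟩
  · rw [dom_coe hG hQ, ← heq]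
    exact hxm
  · intro m hm
    rw [dom_coe hG hQ, ← heq]
    exact Nat.find_min hex hm

/-- the domains with first base point are disjoint -/
theorem dom_unique {G : Conf} (hG : IsLoopConf G) {c : ℂ} {r : ℝ} (hQ : ball c r ⊆ HP) {x : ℂ} {i i' : ℕ}
    (hi : zseq i ∈ ball c r ∧ G ∈ good (ball c r) (zseq i)) (hi' : zseq i' ∈ ball c r ∧ G ∈ good (ball c r) (zseq i'))
    (hx : x ∈ (dom (ball c r) (zseq i) G : Set ℂ)) (hx' : x ∈ (dom (ball c r) (zseq i') G : Set ℂ))
    (h : ∀ m < i, zseq m ∉ (dom (ball c r) (zseq i) G : Set ℂ))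
    (h' : ∀ m < i', zseq m ∉ (dom (ball c r) (zseq i') G : Set ℂ)) : i = i' := by
  rw [dom_coe hG hQ] at hx hx' h h'
  have h1 := connectedComponentIn_eq hx
  have h2 := connectedComponentIn_eq hx'
  have hm : zseq i ∈ connectedComponentIn (ball c r \ hull (ball c r) G) (zseq i) :=
    mem_connectedComponentIn ⟨hi.1, hi.2⟩
  have hm' : zseq i' ∈ connectedComponentIn (ball c r \ hull (ball c r) G) (zseq i') :=
    mem_connectedComponentIn ⟨hi'.1, hi'.2⟩
  rcases lt_trichotomy i i' with hlt | heq | hgt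
  · refine absurd ?_ (h' i hlt)
    rw [h2, ← h1]
    exact hm
  · exact heq
  · refine absurd ?_ (h i' hgt)
    rw [h1, ← h2]
    exact hm'

end Pool.H25.CLE
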