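import Pool.Agent.H25.CLE.Defs2

/-! MODULE HOLE (MP_5d7c93_pr, project CLE of helper25; overview /team-store/H25_CLE.md)
Holes = connected components of the open set G. isOpen_hole: `IsOpen.connectedComponentIn`. countable_holes: the holes are non-empty open pairwise disjoint subsets of ℂ (`Set.PairwiseDisjoint.countable_of_isOpen`,
`connectedComponentIn_eq`/`connectedComponentIn_disjoint`-type lemmas). frontier_subset: a frontier point z of a hole O is in HP (closure O ⊆ HP); if z ∈ G, its component O' is an open set meeting closure O, so it meets O,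
so O' = O ∋ z, O open: contradiction to z ∈ frontier O. carpet_two: if there is no hole, G = ∅ and the carpet is HP; otherwise frontier O = range ℓ ⊆ carpet is infinite (ℓ injective on the circle).
-/

set_option autoImplicit false

namespace Pool.H25.CLE

open MeasureTheory Set Metric Complex

theorem isOpen_hole {G : Conf} {O : Set ℂ} (hO : IsHole G O) : IsOpen O := by
  obtain ⟨z, hz, rfl⟩ := hO
  exact G.isOpen.connectedComponentIn

theorem HOLE_nonempty {G : Conf} {O : Set ℂ} (hO : IsHole G O) : O.Nonempty := by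
  obtain ⟨z, hz, rfl⟩ := hO
  exact ⟨z, mem_connectedComponentIn hz⟩

theorem HOLE_subset {G : Conf} {O : Set ℂ} (hO : IsHole G O) : O ⊆ (G : Set ℂ) := by
  obtain ⟨z, hz, rfl⟩ := hO
  exact connectedComponentIn_subset _ _

theorem HOLE_eq_of_mem {G : Conf} {O : Set ℂ} (hO : IsHole G O) {w : ℂ} (hw : w ∈ O) :
    O = connectedComponentIn (G : Set ℂ) w := by
  obtain ⟨z, hz, rfl⟩ := hO
  exact connectedComponentIn_eq hw

theorem HOLE_eq {G : Conf} {O O' : Set ℂ} (hO : IsHole G O) (hO' : IsHole G O') (h : (O ∩ O').Nonempty) :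
    O = O' := by
  obtain ⟨w, hw, hw'⟩ := h
  rw [HOLE_eq_of_mem hO hw, HOLE_eq_of_mem hO' hw']

/-- the holes are countably many -/
theorem countable_holes (G : Conf) : {O | IsHole G O}.Countable := by
  have h : ({O | IsHole G O} : Set (Set ℂ)).PairwiseDisjoint id := by
    intro O hO O' hO' hne
    show Disjoint O O'
    rw [Set.disjoint_iff_inter_eq_empty]
    by_contra hcon
    exact hne (HOLE_eq hO hO' (Set.nonempty_iff_ne_empty.mpr hcon))
  exact h.countable_of_isOpen (fun O hO => isOpen_hole hO) (fun O hO => HOLE_nonempty hO)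

theorem frontier_subset {G : Conf} (hG : IsLoopConf G) {O : Set ℂ} (hO : IsHole G O) :
    frontier O ⊆ carpet HP G := by
  intro z hz
  have hcl : z ∈ closure O := frontier_subset_closure hz
  have hnO : z ∉ O := by
    intro h
    have := (isOpen_hole hO).frontier_eq
    rw [this] at hz
    exact hz.2 h
  refine ⟨(hG.loop O hO).2.1 hcl, fun hzG => ?_⟩
  have hO' : IsHole G (connectedComponentIn (G : Set ℂ) z) := ⟨z, hzG, rfl⟩
  have hmeet : (connectedComponentIn (G : Set ℂ) z ∩ O).Nonempty :=
    mem_closure_iff.mp hcl _ (isOpen_hole hO') (mem_connectedComponentIn hzG)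
  have := HOLE_eq hO' hO hmeet
  exact hnO (this ▸ mem_connectedComponentIn hzG)

/-- the carpet has two points -/
theorem carpet_two {G : Conf} (hG : IsLoopConf G) (x : ℂ) : ∃ y ∈ carpet HP G, y ≠ x := by
  by_cases hne : (G : Set ℂ).Nonempty
  · obtain ⟨z, hz⟩ := hne
    have hO : IsHole G (connectedComponentIn (G : Set ℂ) z) := ⟨z, hz, rfl⟩
    obtain ⟨_, _, ℓ, _, hinj, hfr⟩ := hG.loop _ hO
    have hsub := frontier_subset hG hO
    have h1 : ℓ 1 ∈ carpet HP G := hsub (hfr ▸ mem_range_self _)
    have h2 : ℓ (-1) ∈ carpet HP G := hsub (hfr ▸ mem_range_self _)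
    have hne2 : ℓ 1 ≠ ℓ (-1) := by
      intro h
      have h3 := hinj h
      have h4 : ((1 : Circle) : ℂ) = ((-1 : Circle) : ℂ) := by rw [← h3]
      rw [Circle.coe_neg, Circle.coe_one] at h4
      norm_num at h4
    by_cases hx : ℓ 1 = x
    · exact ⟨ℓ (-1), h2, fun h => hne2 (hx.trans h.symm)⟩
    · exact ⟨ℓ 1, h1, hx⟩
  · have hemp : (G : Set ℂ) = ∅ := Set.not_nonempty_iff_eq_empty.mp hne
    have hc : carpet HP G = HP := by unfold carpet; rw [hemp, diff_empty]
    rw [hc]
    by_cases hx : x = I
    · refine ⟨2 * I, ?_, ?_⟩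
      · show 0 < (2 * I).im
        simp
      · rw [hx]
        intro h
        have := congrArg Complex.im h
        simp at this
    · exact ⟨I, by show 0 < I.im; simp, fun h => hx h.symm⟩

end Pool.H25.CLE
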