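import Pool.Agent.H25.CLE.Dens
import Pool.Agent.H25.CLE.Bes
import Pool.Agent.H25.CLE.Hole

/-! MODULE FIN (MP_5d7c93_pr, project CLE of helper25; overview /team-store/H25_CLE.md)
Spheres are null. Fix G in the a.s. event (dens, good_io, measOK_ae, dist_length for (U,f), loops), y ∈ carpet HP G, a ∈ ℝ, L = {x ∈ carpet HP G | D₂ (f x) (f y) = a}.
L is measurable: the carpet is measurable and x ↦ D₂ (f x) (f y) is continuous on it (IsLengthMetric.cont, f continuous on HP, mem_carpet_push), so L is relatively closed in the carpet.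
Case a ≠ 0 (then y ≠ x for x ∈ L by IsLengthMetric.self): null_of_dens with W = HP, m = mu HP G: for mu-a.e. x ∈ L (good_io) and dens: the set of dens is contained in closedBall x R \ L because D₂ (f x) (f y) = a; 0 < mu (closedBall x R) by MeasOK.full
(ball x R, x in the carpet). C = (ofReal ..).toNNReal. Case a = 0: L = {y} (IsLengthMetric.pos, self, injectivity of f). Suppose mu {y} ≠ 0; then y itself is good infinitely often for some n (good_io holds for mu-a.e. point);
take y₂ ∈ carpet, y₂ ≠ y (carpet_two) and dens at x = y with y := y₂: the set of dens does not contain y, so it is contained in closedBall y R \ {y}: not_atom_of_dens gives mu {y} = 0, contradiction. -/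

set_option autoImplicit false

namespace Pool.H25.CLE

open MeasureTheory ProbabilityTheory Set Metric Complex
open scoped ENNReal

theorem fin_measurable_carpet (G : Conf) : MeasurableSet (carpet HP G) :=
  isOpen_HP.measurableSet.diff G.isOpen.measurableSet

theorem spheres_null {P : Measure Conf} (hP : IsCLE P) {d d' : ℝ} (Γ : Geometry P d d') {U : Set ℂ}
    {f : ℂ → ℂ} (hf : IsConf f HP U) :
    ∀ᵐ G ∂P, ∀ y ∈ carpet HP G, ∀ a : ℝ,
      Γ.mu HP G {x | x ∈ carpet HP G ∧ Γ.dist U (push f HP G) (f x) (f y) = a} = 0 := by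
  filter_upwards [dens hP Γ hf, good_io hP Γ, measOK_ae hP Γ, Γ.dist_length U f hf, hP.loops] with
    G hdens hio hmOK hlen hloop
  intro y hy a
  have hsub : carpet HP G ⊆ HP := diff_subset
  have hmaps : ∀ x ∈ carpet HP G, f x ∈ carpet U (push f HP G) := fun x hx =>
    (mem_carpet_push hf G (hsub hx)).2 hx
  by_cases ha : a = 0
  · -- the sphere is the centre
    subst ha
    have hLy : {x | x ∈ carpet HP G ∧ Γ.dist U (push f HP G) (f x) (f y) = 0} ⊆ {y} := by
      rintro x ⟨hx, hxy⟩
      by_contra hne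
      have hfne : f x ≠ f y := fun h => hne (hf.inj (hsub hx) (hsub hy) h)
      exact absurd hxy (hlen.pos _ (hmaps x hx) _ (hmaps y hy) hfne).ne'
    refine measure_mono_null hLy ?_
    by_contra hpos
    have hgood : ∃ n : ℕ, ∃ᶠ k in Filter.atTop, GoodAt Γ n k G y := by
      by_contra hn
      apply hpos
      refine measure_mono_null ?_ hio
      intro x hx
      rw [mem_singleton_iff] at hx
      subst hx
      exact hn
    obtain ⟨n, hn⟩ := hgood
    obtain ⟨y₂, hy₂, hne⟩ := carpet_two hloop y
    apply hpos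
    refine not_atom_of_dens isOpen_HP hmOK.locfin (hsub hy) ⟨Real.toNNReal ((n + 1) * (96 : ℝ) ^ (2 * |d'|)), ?_⟩
    intro ε hε
    obtain ⟨R, hR0, hRε, _, hR⟩ := hdens y hy y₂ hy₂ n hn hne ε hε
    refine ⟨R, hR0, hRε, hR.trans (mul_le_mul' le_rfl (measure_mono ?_))⟩
    rintro v ⟨hv, hv'⟩
    refine ⟨hv, ?_⟩
    rintro rfl
    exact lt_irrefl _ hv'
  · have hcont : ContinuousOn (fun x => Γ.dist U (push f HP G) (f x) (f y)) (carpet HP G) := by
      have h1 : ContinuousOn (fun x => (f x, f y)) (carpet HP G) :=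
        (hf.diff.continuousOn.mono hsub).prodMk continuousOn_const
      exact hlen.cont.comp h1 fun x hx => ⟨hmaps x hx, hmaps y hy⟩
    obtain ⟨u, hu, hu'⟩ := continuousOn_iff_isClosed.1 hcont {a} isClosed_singleton
    have hLeq : {x | x ∈ carpet HP G ∧ Γ.dist U (push f HP G) (f x) (f y) = a} = u ∩ carpet HP G := by
      rw [← hu']
      ext x
      simp only [mem_setOf_eq, mem_inter_iff, mem_preimage, mem_singleton_iff]
      tauto
    have hLm : MeasurableSet {x | x ∈ carpet HP G ∧ Γ.dist U (push f HP G) (f x) (f y) = a} := by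
      rw [hLeq]
      exact hu.measurableSet.inter (fin_measurable_carpet G)
    refine null_of_dens isOpen_HP hmOK.locfin hLm (fun x hx => hsub hx.1) ?_
    filter_upwards [hio] with x hx hxL
    obtain ⟨n, hn⟩ := hx
    refine ⟨Real.toNNReal ((n + 1) * (96 : ℝ) ^ (2 * |d'|)), ?_⟩
    intro ε hε
    have hyx : y ≠ x := by
      rintro rfl
      exact ha (hxL.2.symm.trans (hlen.self _ (hmaps _ hy)))
    obtain ⟨R, hR0, hRε, _, hR⟩ := hdens x hxL.1 y hy n hn hyx ε hε
    refine ⟨R, hR0, hRε, ?_, hR.trans (mul_le_mul' le_rfl (measure_mono ?_))⟩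
    · exact (hmOK.full (ball x R) isOpen_ball ⟨x, mem_ball_self hR0, hxL.1⟩).trans_le
        (measure_mono ball_subset_closedBall)
    · rintro v ⟨hv, hv'⟩
      refine ⟨hv, ?_⟩
      rintro ⟨_, hva⟩
      rw [hva, hxL.2] at hv'
      exact lt_irrefl _ hv'

end Pool.H25.CLE
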