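import Pool.Agent.H25.CLE.Inv

/-! MODULE GRID (MP_5d7c93_pr, project CLE of helper25; overview /team-store/H25_CLE.md)
The discs of level k: centres (p₁ + i p₂)/2^k, radius 2^(-k). They cover ℂ (nearest integers: distance ≤ 2^(-k)/√2 < 2^(-k)), every point is in at most 4 of them (|2^k re x - p₁| < 1 and |2^k im x - p₂| < 1: at most two integers each).
disc_mult: the sum is ≤ ∑ p ∫ 1_K(x) 1_{ball p}(x) dm = ∫_K #{p | x ∈ ball p} dm ≤ 4 m K (lintegral_tsum; countable index set).
The compact sets KK R exhaust HP; a disc of level k ≥ k₀(R) which meets KK R is contained in KKp R (2·2^(-k) ≤ 1/(2(R+1)) suffices). -/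

set_option autoImplicit false

namespace Pool.H25.CLE

open MeasureTheory Set Metric Complex
open scoped ENNReal

/-- compact exhaustion of the half plane -/
def KK (R : ℕ) : Set ℂ := {z | |z.re| ≤ R + 1 ∧ 1 / ((R : ℝ) + 1) ≤ z.im ∧ z.im ≤ R + 1}

/-- a compact neighbourhood of `KK R` -/
def KKp (R : ℕ) : Set ℂ := {z | |z.re| ≤ R + 2 ∧ 1 / (2 * ((R : ℝ) + 1)) ≤ z.im ∧ z.im ≤ R + 2}

theorem isCompact_KK (R : ℕ) : IsCompact (KK R) := by
  refine Metric.isCompact_of_isClosed_isBounded ?_ ?_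
  · unfold KK
    simp only [Set.ofPred_and]
    refine IsClosed.inter ?_ (IsClosed.inter ?_ ?_)
    · exact isClosed_le (continuous_re.abs) continuous_const
    · exact isClosed_le continuous_const continuous_im
    · exact isClosed_le continuous_im continuous_const
  · refine (Metric.isBounded_closedBall (x := (0 : ℂ)) (r := 2 * ((R : ℝ) + 1))).subset ?_
    rintro z ⟨h1, h2, h3⟩
    rw [mem_closedBall_zero_iff]
    have h4 : (0 : ℝ) < 1 / ((R : ℝ) + 1) := by positivity
    have h5 : |z.im| ≤ R + 1 := by rw [abs_of_nonneg (by linarith)]; exact h3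
    have := Complex.norm_le_abs_re_add_abs_im z
    linarith

theorem isCompact_KKp (R : ℕ) : IsCompact (KKp R) := by
  refine Metric.isCompact_of_isClosed_isBounded ?_ ?_
  · unfold KKp
    simp only [Set.ofPred_and]
    refine IsClosed.inter ?_ (IsClosed.inter ?_ ?_)
    · exact isClosed_le (continuous_re.abs) continuous_const
    · exact isClosed_le continuous_const continuous_im
    · exact isClosed_le continuous_im continuous_const
  · refine (Metric.isBounded_closedBall (x := (0 : ℂ)) (r := 2 * ((R : ℝ) + 2))).subset ?_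
    rintro z ⟨h1, h2, h3⟩
    rw [mem_closedBall_zero_iff]
    have h4 : (0 : ℝ) < 1 / (2 * ((R : ℝ) + 1)) := by positivity
    have h5 : |z.im| ≤ R + 2 := by rw [abs_of_nonneg (by linarith)]; exact h3
    have := Complex.norm_le_abs_re_add_abs_im z
    linarith

theorem KKp_subset (R : ℕ) : KKp R ⊆ HP := by
  rintro z ⟨-, h2, -⟩
  have h4 : (0 : ℝ) < 1 / (2 * ((R : ℝ) + 1)) := by positivity
  show 0 < z.im
  linarith

theorem KK_mono : Monotone KK := by
  intro R R' h z hz
  obtain ⟨h1, h2, h3⟩ := hz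
  have h' : (R : ℝ) ≤ R' := by exact_mod_cast h
  refine ⟨h1.trans (by linarith), le_trans ?_ h2, h3.trans (by linarith)⟩
  exact one_div_le_one_div_of_le (by positivity) (by linarith)

theorem iUnion_KK : ⋃ R, KK R = HP := by
  apply Set.Subset.antisymm
  · intro z hz
    obtain ⟨R, -, h2, -⟩ := Set.mem_iUnion.mp hz
    have h4 : (0 : ℝ) < 1 / ((R : ℝ) + 1) := by positivity
    show 0 < z.im
    linarith
  · intro z hz
    have hz' : 0 < z.im := hz
    obtain ⟨R, hR⟩ := exists_nat_ge (max |z.re| (max z.im (1 / z.im)))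
    have h1 : |z.re| ≤ R := (le_max_left _ _).trans hR
    have h2 : z.im ≤ R := ((le_max_left _ _).trans (le_max_right _ _)).trans hR
    have h3 : 1 / z.im ≤ R := ((le_max_right _ _).trans (le_max_right _ _)).trans hR
    refine Set.mem_iUnion.mpr ⟨R, by linarith, ?_, by linarith⟩
    rw [div_le_iff₀ (by positivity)]
    rw [div_le_iff₀ hz'] at h3
    nlinarith

/-- level from which the discs meeting `KK R` are contained in `KKp R` -/
theorem disc_subset (R : ℕ) : ∃ k₀ : ℕ, ∀ k ≥ k₀, ∀ p : ℤ × ℤ, (ball (ctr k p) (rad k) ∩ KK R).Nonempty →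
    ball (ctr k p) (rad k) ⊆ KKp R := by
  have hpos : (0 : ℝ) < 1 / (4 * ((R : ℝ) + 1)) := by positivity
  obtain ⟨k₀, hk₀⟩ := exists_pow_lt_of_lt_one hpos (show (1 / 2 : ℝ) < 1 by norm_num)
  refine ⟨k₀, fun k hk p hne z hz => ?_⟩
  obtain ⟨q, hq1, hq2, hq3, hq4⟩ := hne
  have hrad : rad k < 1 / (4 * ((R : ℝ) + 1)) := by
    refine lt_of_le_of_lt ?_ hk₀
    unfold rad
    rw [one_div, ← inv_pow, ← one_div]
    exact pow_le_pow_of_le_one (by norm_num) (by norm_num) hk
  have hd : ‖z - q‖ < 1 / (2 * ((R : ℝ) + 1)) := by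
    rw [mem_ball, dist_eq_norm] at hz hq1
    have h1 : z - q = (z - ctr k p) - (q - ctr k p) := by ring
    have h2 := norm_sub_le (z - ctr k p) (q - ctr k p)
    rw [← h1] at h2
    have h3 : 1 / (2 * ((R : ℝ) + 1)) = 1 / (4 * ((R : ℝ) + 1)) + 1 / (4 * ((R : ℝ) + 1)) := by
      field_simp; norm_num
    rw [h3]
    linarith
  have hre : |z.re - q.re| ≤ ‖z - q‖ := by
    rw [← Complex.sub_re]; exact Complex.abs_re_le_norm _
  have him : |z.im - q.im| ≤ ‖z - q‖ := by
    rw [← Complex.sub_im]; exact Complex.abs_im_le_norm _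
  have hone : 1 / (2 * ((R : ℝ) + 1)) ≤ 1 := by
    rw [div_le_one (by positivity)]
    have : (0 : ℝ) ≤ R := Nat.cast_nonneg R
    linarith
  have hhalf : 1 / ((R : ℝ) + 1) = 1 / (2 * ((R : ℝ) + 1)) + 1 / (2 * ((R : ℝ) + 1)) := by
    field_simp; norm_num
  obtain ⟨hi1, hi2⟩ := abs_le.mp him
  refine ⟨?_, ?_, ?_⟩
  · have h1 : |z.re| ≤ |q.re| + |z.re - q.re| := by
      have := abs_add_le q.re (z.re - q.re)
      rwa [add_sub_cancel] at this
    linarith
  · rw [hhalf] at hq3
    linarith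
  · linarith

theorem grid_ctr_re (k : ℕ) (p : ℤ × ℤ) : (ctr k p).re = (p.1 : ℝ) / 2 ^ k := by
  unfold ctr
  rw [add_re, ofReal_re, re_ofReal_mul, I_re, mul_zero, add_zero]

theorem grid_ctr_im (k : ℕ) (p : ℤ × ℤ) : (ctr k p).im = (p.2 : ℝ) / 2 ^ k := by
  unfold ctr
  rw [add_im, ofReal_im, im_ofReal_mul, I_im, mul_one, zero_add]

theorem disc_cover (k : ℕ) (x : ℂ) : ∃ p : ℤ × ℤ, x ∈ ball (ctr k p) (rad k) := by
  have h2 : (0 : ℝ) < 2 ^ k := by positivity
  refine ⟨(round (2 ^ k * x.re), round (2 ^ k * x.im)), ?_⟩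
  rw [mem_ball, dist_eq_norm]
  have hkey : ∀ t : ℝ, |t - (round (2 ^ k * t) : ℝ) / 2 ^ k| ≤ 1 / 2 / 2 ^ k := by
    intro t
    have h1 := abs_sub_round (2 ^ k * t)
    have h3 : t - (round (2 ^ k * t) : ℝ) / 2 ^ k = (2 ^ k * t - round (2 ^ k * t)) / 2 ^ k := by
      field_simp
    rw [h3, abs_div, abs_of_pos h2]
    exact div_le_div_of_nonneg_right h1 h2.le
  have hre : (x - ctr k (round (2 ^ k * x.re), round (2 ^ k * x.im))).re =
      x.re - (round (2 ^ k * x.re) : ℝ) / 2 ^ k := by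
    rw [sub_re, grid_ctr_re]
  have him : (x - ctr k (round (2 ^ k * x.re), round (2 ^ k * x.im))).im =
      x.im - (round (2 ^ k * x.im) : ℝ) / 2 ^ k := by
    rw [sub_im, grid_ctr_im]
  have hsq : ‖x - ctr k (round (2 ^ k * x.re), round (2 ^ k * x.im))‖ ^ 2 < rad k ^ 2 := by
    rw [Complex.sq_norm, Complex.normSq_apply, hre, him]
    have e1 := hkey x.re
    have e2 := hkey x.im
    have e3 := sq_le_sq' (by linarith [abs_nonneg (x.re - (round (2 ^ k * x.re) : ℝ) / 2 ^ k),
      show (0 : ℝ) ≤ 1 / 2 / 2 ^ k by positivity]) e1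
    have e4 := sq_le_sq' (by linarith [abs_nonneg (x.im - (round (2 ^ k * x.im) : ℝ) / 2 ^ k),
      show (0 : ℝ) ≤ 1 / 2 / 2 ^ k by positivity]) e2
    rw [sq_abs] at e3 e4
    have e5 : rad k ^ 2 = 4 * (1 / 2 / 2 ^ k) ^ 2 := by
      unfold rad; ring
    have e6 : (0 : ℝ) < (1 / 2 / 2 ^ k) ^ 2 := by positivity
    rw [e5]
    nlinarith
  exact lt_of_pow_lt_pow_left₀ 2 (by unfold rad; positivity) hsq

open Classical in
theorem disc_mult (k : ℕ) (m : Measure ℂ) (K : Set ℂ) (hK : MeasurableSet K) :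
    ∑' p : ℤ × ℤ, (if ball (ctr k p) (rad k) ⊆ K then m (ball (ctr k p) (rad k)) else 0) ≤ 4 * m K := by
  set A : ℤ × ℤ → Set ℂ := fun p => if ball (ctr k p) (rad k) ⊆ K then ball (ctr k p) (rad k) else ∅
    with hA
  have hAm : ∀ p, MeasurableSet (A p) := by
    intro p
    simp only [hA]
    split_ifs
    · exact measurableSet_ball
    · exact MeasurableSet.empty
  have hAK : ∀ p, A p ⊆ K := by
    intro p
    simp only [hA]
    split_ifs with h
    · exact h
    · exact Set.empty_subset _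
  have hAb : ∀ p, A p ⊆ ball (ctr k p) (rad k) := by
    intro p
    simp only [hA]
    split_ifs with h
    · exact subset_rfl
    · exact Set.empty_subset _
  have hterm : ∀ p, (if ball (ctr k p) (rad k) ⊆ K then m (ball (ctr k p) (rad k)) else 0) =
      ∫⁻ x, (A p).indicator (fun _ => (1 : ℝ≥0∞)) x ∂m := by
    intro p
    rw [lintegral_indicator_const (hAm p), one_mul]
    simp only [hA]
    split_ifs
    · rfl
    · simp
  simp only [hterm]
  rw [← lintegral_tsum (fun p => (measurable_const.indicator (hAm p)).aemeasurable)]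
  have hpt : ∀ x, ∑' p, (A p).indicator (fun _ => (1 : ℝ≥0∞)) x ≤
      K.indicator (fun _ => (4 : ℝ≥0∞)) x := by
    intro x
    by_cases hx : x ∈ K
    · rw [Set.indicator_of_mem hx]
      set s : Finset (ℤ × ℤ) := ({⌊2 ^ k * x.re⌋, ⌊2 ^ k * x.re⌋ + 1} : Finset ℤ) ×ˢ
        ({⌊2 ^ k * x.im⌋, ⌊2 ^ k * x.im⌋ + 1} : Finset ℤ) with hs
      have hzero : ∀ p ∉ s, (A p).indicator (fun _ => (1 : ℝ≥0∞)) x = 0 := by
        intro p hp
        apply Set.indicator_of_notMem
        intro hxp
        apply hp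
        have h1 := hAb p hxp
        rw [mem_ball, dist_eq_norm] at h1
        have h2 : (0 : ℝ) < 2 ^ k := by positivity
        have hre : (x - ctr k p).re = x.re - (p.1 : ℝ) / 2 ^ k := by rw [sub_re, grid_ctr_re]
        have him : (x - ctr k p).im = x.im - (p.2 : ℝ) / 2 ^ k := by rw [sub_im, grid_ctr_im]
        have h3 := (Complex.abs_re_le_norm (x - ctr k p)).trans_lt h1
        have h4 := (Complex.abs_im_le_norm (x - ctr k p)).trans_lt h1
        rw [hre] at h3
        rw [him] at h4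
        have hkey : ∀ (t : ℝ) (q : ℤ), |t - (q : ℝ) / 2 ^ k| < rad k →
            q = ⌊2 ^ k * t⌋ ∨ q = ⌊2 ^ k * t⌋ + 1 := by
          intro t q hq
          have h5 : |2 ^ k * t - q| < 1 := by
            have h6 : 2 ^ k * t - (q : ℝ) = 2 ^ k * (t - (q : ℝ) / 2 ^ k) := by field_simp
            rw [h6, abs_mul, abs_of_pos h2]
            calc 2 ^ k * |t - (q : ℝ) / 2 ^ k| < 2 ^ k * rad k := by gcongr
              _ = 1 := by unfold rad; field_simp
          obtain ⟨h6, h7⟩ := abs_lt.mp h5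
          have h8 := Int.floor_le (2 ^ k * t)
          have h9 := Int.lt_floor_add_one (2 ^ k * t)
          have h10 : (q : ℝ) < (⌊2 ^ k * t⌋ : ℝ) + 2 := by linarith
          have h11 : (⌊2 ^ k * t⌋ : ℝ) - 1 < q := by linarith
          have h12 : q < ⌊2 ^ k * t⌋ + 2 := by exact_mod_cast h10
          have h13 : ⌊2 ^ k * t⌋ - 1 < q := by exact_mod_cast h11
          omega
        rw [hs, Finset.mem_product, Finset.mem_insert, Finset.mem_singleton, Finset.mem_insert,
          Finset.mem_singleton]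
        exact ⟨hkey _ _ h3, hkey _ _ h4⟩
      rw [tsum_eq_sum hzero]
      have hle : ∀ p ∈ s, (A p).indicator (fun _ => (1 : ℝ≥0∞)) x ≤ 1 := fun p _ =>
        Set.indicator_le_self' (fun _ _ => zero_le_one) x
      refine (Finset.sum_le_card_nsmul s _ 1 hle).trans ?_
      have hcard : s.card ≤ 4 := by
        rw [hs, Finset.card_product]
        exact Nat.mul_le_mul Finset.card_le_two Finset.card_le_two
      rw [nsmul_eq_mul, mul_one]
      exact_mod_cast hcard
    · rw [Set.indicator_of_notMem hx]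
      have : ∀ p, (A p).indicator (fun _ => (1 : ℝ≥0∞)) x = 0 := fun p =>
        Set.indicator_of_notMem (fun h => hx (hAK p h)) _
      simp [this]
  refine (lintegral_mono hpt).trans ?_
  rw [lintegral_indicator_const hK]

theorem rad_pos (k : ℕ) : 0 < rad k := by
  unfold rad; positivity

theorem tendsto_rad : Filter.Tendsto rad Filter.atTop (nhds 0) := by
  have h : rad = fun k => (1 / 2 : ℝ) ^ k := by
    funext k
    unfold rad
    rw [one_div, ← inv_pow, ← one_div]
  rw [h]
  exact tendsto_pow_atTop_nhds_zero_of_lt_one (by norm_num) (by norm_num)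

end Pool.H25.CLE
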