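import Mathlib

/-! # MP_5d7c93_pr : an interval is not a countable disjoint union of at least two closed sets (Sierpinski) -/

set_option autoImplicit false

namespace Pool.H25.CLE

open Set

theorem sier_right {ι : Type*} (C : ι → Set ℝ) (hc : ∀ i, IsClosed (C i))
    (hd : ∀ i j, i ≠ j → Disjoint (C i) (C j)) {p q : ℝ} (hcov : Icc p q ⊆ ⋃ i, C i) {n : ι}
    (hp : p ∉ C n) (hq : q ∈ C n) (hpq : p ≤ q) :
    ∃ b', p ≤ b' ∧ b' ≤ q ∧ (∀ i, ¬ Icc p b' ⊆ C i) ∧ Disjoint (Icc p b') (C n) := by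
  have hK : IsCompact (Icc p q ∩ C n) := isCompact_Icc.inter_right (hc n)
  obtain ⟨v, ⟨hv1, hv2⟩, hv3⟩ := hK.exists_isLeast ⟨q, ⟨hpq, le_rfl⟩, hq⟩
  have hpv : p < v := lt_of_le_of_ne hv1.1 fun h => hp (h ▸ hv2)
  have hfree : ∀ t, p ≤ t → t < v → t ∉ C n := fun t h1 h2 h3 =>
    absurd (hv3 ⟨⟨h1, h2.le.trans hv1.2⟩, h3⟩) (not_le.2 h2)
  obtain ⟨m, hm⟩ := mem_iUnion.1 (hcov ⟨le_rfl, hpq⟩)
  have hmn : m ≠ n := by
    rintro rfl; exact hp hm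
  have hex : ∃ v', p ≤ v' ∧ v' < v ∧ ¬ Icc p v' ⊆ C m := by
    by_contra hcon
    push Not at hcon
    have h1 : Ico p v ⊆ C m := fun t ht => hcon t ht.1 ht.2 ⟨ht.1, le_rfl⟩
    have h2 : v ∈ closure (Ico p v) := by
      rw [closure_Ico hpv.ne]; exact ⟨hpv.le, le_rfl⟩
    have h3 : v ∈ C m := (hc m).closure_subset_iff.2 h1 h2
    exact (Set.disjoint_left.1 (hd m n hmn)) h3 hv2
  obtain ⟨v', h1, h2, h3⟩ := hex
  refine ⟨v', h1, h2.le.trans hv1.2, ?_, ?_⟩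
  · intro i hi
    have h4 : p ∈ C i := hi ⟨le_rfl, h1⟩
    have h5 : i = m := by
      by_contra hne
      exact (Set.disjoint_left.1 (hd i m hne)) h4 hm
    exact h3 (h5 ▸ hi)
  · rw [Set.disjoint_left]
    intro t ht
    exact hfree t ht.1 (ht.2.trans_lt h2)

theorem sier_step {ι : Type*} (C : ι → Set ℝ) (hc : ∀ i, IsClosed (C i))
    (hd : ∀ i j, i ≠ j → Disjoint (C i) (C j)) {a b : ℝ} (hab : a ≤ b) (hcov : Icc a b ⊆ ⋃ i, C i)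
    (hn : ∀ i, ¬ Icc a b ⊆ C i) (n : ι) :
    ∃ a' b', a ≤ a' ∧ a' ≤ b' ∧ b' ≤ b ∧ (∀ i, ¬ Icc a' b' ⊆ C i) ∧ Disjoint (Icc a' b') (C n) := by
  obtain ⟨p, hp, hpn⟩ := not_subset.1 (hn n)
  by_cases hdis : Disjoint (Icc a b) (C n)
  · exact ⟨a, b, le_rfl, hab, le_rfl, hn, hdis⟩
  · obtain ⟨q, hq, hqn⟩ := Set.not_disjoint_iff.1 hdis
    rcases le_total p q with h | h
    · obtain ⟨b', h1, h2, h3, h4⟩ := sier_right C hc hd ((Icc_subset_Icc hp.1 hq.2).trans hcov) hpn hqn h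
      exact ⟨p, b', hp.1, h1, h2.trans hq.2, h3, h4⟩
    · have hcov' : Icc (-p) (-q) ⊆ ⋃ i, (fun t : ℝ => -t) ⁻¹' C i := by
        intro t ht
        have h5 : -t ∈ Icc a b := ⟨by linarith [ht.2, hq.1], by linarith [ht.1, hp.2]⟩
        obtain ⟨i, hi⟩ := mem_iUnion.1 (hcov h5)
        exact mem_iUnion.2 ⟨i, hi⟩
      obtain ⟨b', h1, h2, h3, h4⟩ := sier_right (fun i => (fun t : ℝ => -t) ⁻¹' C i)
        (fun i => (hc i).preimage continuous_neg) (fun i j hij => (hd i j hij).preimage _) hcov'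
        (n := n) (by simpa using hpn) (by simpa using hqn) (by linarith)
      refine ⟨-b', p, by linarith [hq.1], by linarith, hp.2, ?_, ?_⟩
      · intro i hi
        apply h3 i
        intro t ht
        exact hi ⟨by linarith [ht.2], by linarith [ht.1]⟩
      · rw [Set.disjoint_left] at h4 ⊢
        intro t ht htn
        refine h4 (a := -t) ⟨by linarith [ht.2], by linarith [ht.1]⟩ ?_
        change - -t ∈ C n
        rwa [neg_neg]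

theorem sier {ι : Type*} [Countable ι] (C : ι → Set ℝ) (hc : ∀ i, IsClosed (C i))
    (hd : ∀ i j, i ≠ j → Disjoint (C i) (C j)) (hcov : Icc (0 : ℝ) 1 ⊆ ⋃ i, C i) :
    ∃ i, Icc (0 : ℝ) 1 ⊆ C i := by
  by_contra hcon
  push Not at hcon
  obtain ⟨i₀, hi₀⟩ := mem_iUnion.1 (hcov ⟨le_rfl, zero_le_one⟩)
  have : Nonempty ι := ⟨i₀⟩
  obtain ⟨f, hf⟩ := exists_surjective_nat ι
  have step : ∀ (x : {ab : ℝ × ℝ // 0 ≤ ab.1 ∧ ab.1 ≤ ab.2 ∧ ab.2 ≤ 1 ∧ ∀ i, ¬ Icc ab.1 ab.2 ⊆ C i}) (n : ι),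
      ∃ y : {ab : ℝ × ℝ // 0 ≤ ab.1 ∧ ab.1 ≤ ab.2 ∧ ab.2 ≤ 1 ∧ ∀ i, ¬ Icc ab.1 ab.2 ⊆ C i},
        Icc y.1.1 y.1.2 ⊆ Icc x.1.1 x.1.2 ∧ Disjoint (Icc y.1.1 y.1.2) (C n) := by
    rintro ⟨⟨a, b⟩, h1, h2, h3, h4⟩ n
    obtain ⟨a', b', g1, g2, g3, g4, g5⟩ := sier_step C hc hd h2 ((Icc_subset_Icc h1 h3).trans hcov) h4 n
    exact ⟨⟨(a', b'), h1.trans g1, g2, g3.trans h3, g4⟩, Icc_subset_Icc g1 g3, g5⟩
  choose nxt hnxt1 hnxt2 using step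
  let s : ℕ → {ab : ℝ × ℝ // 0 ≤ ab.1 ∧ ab.1 ≤ ab.2 ∧ ab.2 ≤ 1 ∧ ∀ i, ¬ Icc ab.1 ab.2 ⊆ C i} := fun n =>
    Nat.rec ⟨(0, 1), le_rfl, zero_le_one, le_rfl, hcon⟩ (fun n x => nxt x (f n)) n
  have hs : ∀ n, s (n + 1) = nxt (s n) (f n) := fun n => rfl
  obtain ⟨x, hx⟩ := IsCompact.nonempty_iInter_of_sequence_nonempty_isCompact_isClosed
    (fun n => Icc (s n).1.1 (s n).1.2) (fun n => by rw [hs]; exact hnxt1 _ _)
    (fun n => nonempty_Icc.2 (s n).2.2.1) isCompact_Icc (fun n => isClosed_Icc)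
  rw [mem_iInter] at hx
  have hx0 := hx 0
  have hx01 : x ∈ Icc (0 : ℝ) 1 := ⟨(s 0).2.1.trans hx0.1, hx0.2.trans (s 0).2.2.2.1⟩
  obtain ⟨i, hi⟩ := mem_iUnion.1 (hcov hx01)
  obtain ⟨n, rfl⟩ := hf i
  have h1 := hx (n + 1)
  rw [hs] at h1
  exact (Set.disjoint_left.1 (hnxt2 (s n) (f n))) h1 hi

end Pool.H25.CLE
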