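import Pool.Agent.H25.CLE.Law
import Pool.Agent.H25.CLE.Cov
import Pool.Agent.H25.CLE.Dom
import Pool.Agent.H25.CLE.Hole
import Pool.Agent.H25.CLE.Grid
import Pool.Agent.H25.CLE.Sier

/-! # MP_5d7c93_pr : the carpet measure charges every relatively open subset of the carpet
Every open set W meeting the carpet contains an explored domain V of a disc of the grid (Sierpinski: a segment is not a
countable disjoint union of closed filled loops), and mu(V) > 0 by locality, covariance and mu ≠ 0. -/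

set_option autoImplicit false

namespace Pool.H25.CLE

open MeasureTheory ProbabilityTheory Set Metric Complex
open scoped ENNReal

theorem exists_free {G : Conf} (hG : IsLoopConf G) {W : Set ℂ} (hW : IsOpen W)
    (h : (W ∩ carpet HP G).Nonempty) : ∃ z ∈ W ∩ carpet HP G, ∀ O, IsHole G O → z ∉ closure O := by
  obtain ⟨x, hxW, hxc⟩ := h
  by_cases hfree : ∀ O, IsHole G O → x ∉ closure O
  · exact ⟨x, ⟨hxW, hxc⟩, hfree⟩
  push Not at hfree
  obtain ⟨O₁, hO₁, hxO₁⟩ := hfree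
  have hxnO : x ∉ O₁ := fun hx => hxc.2 (HOLE_subset hO₁ hx)
  obtain ⟨ε, hε, hεW⟩ := Metric.isOpen_iff.1 (hW.inter isOpen_HP) x ⟨hxW, hxc.1⟩
  have hx' : ∃ x' ∈ ball x ε, x' ∉ closure O₁ := by
    by_contra hcon
    push Not at hcon
    apply hxnO
    rw [← hG.reg O₁ hO₁]
    exact mem_interior.2 ⟨ball x ε, hcon, isOpen_ball, mem_ball_self hε⟩
  obtain ⟨x', hx'b, hx'O⟩ := hx'
  have : Countable {O // IsHole G O} := (countable_holes G).to_subtype
  have hseg : ∀ t ∈ Icc (0 : ℝ) 1, x + (t : ℂ) * (x' - x) ∈ ball x ε := by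
    intro t ht
    rw [mem_ball, dist_eq_norm, add_sub_cancel_left, norm_mul, Complex.norm_real, Real.norm_of_nonneg ht.1]
    rw [mem_ball, dist_eq_norm] at hx'b
    calc t * ‖x' - x‖ ≤ 1 * ‖x' - x‖ := by gcongr; exact ht.2
      _ < ε := by rw [one_mul]; exact hx'b
  have hcont : Continuous fun t : ℝ => x + (t : ℂ) * (x' - x) := by fun_prop
  by_cases hcov : Icc (0 : ℝ) 1 ⊆ ⋃ O : {O // IsHole G O}, (fun t : ℝ => x + (t : ℂ) * (x' - x)) ⁻¹' closure O.1
  · exfalso
    obtain ⟨O, hO⟩ := sier (fun O : {O // IsHole G O} => (fun t : ℝ => x + (t : ℂ) * (x' - x)) ⁻¹' closure O.1)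
      (fun O => isClosed_closure.preimage hcont)
      (fun O O' hne => (hG.disj O.1 O'.1 O.2 O'.2 fun h => hne (Subtype.ext h)).preimage _) hcov
    have h0 := hO ⟨le_rfl, zero_le_one⟩
    have h1 := hO ⟨zero_le_one, le_rfl⟩
    simp only [mem_preimage, Complex.ofReal_zero, zero_mul, add_zero] at h0
    simp only [mem_preimage, Complex.ofReal_one, one_mul, add_sub_cancel] at h1
    have h2 : O.1 = O₁ := by
      by_contra hne
      exact (Set.disjoint_left.1 (hG.disj O.1 O₁ O.2 hO₁ hne)) h0 hxO₁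
    exact hx'O (h2 ▸ h1)
  · obtain ⟨t, ht, htn⟩ := not_subset.1 hcov
    have hz := hεW (hseg t ht)
    have hzfree : ∀ O, IsHole G O → x + (t : ℂ) * (x' - x) ∉ closure O := fun O hO hcl =>
      htn (mem_iUnion.2 ⟨⟨O, hO⟩, hcl⟩)
    refine ⟨x + (t : ℂ) * (x' - x), ⟨hz.1, hz.2, fun hzG => ?_⟩, hzfree⟩
    exact hzfree _ ⟨_, hzG, rfl⟩ (subset_closure (mem_connectedComponentIn hzG))

/-- the pulled back configuration inherits the a.s. properties -/
theorem ae_pull {P : Measure Conf} (hP : IsCLE P) {c : ℂ} {r : ℝ} (hr : 0 < r) (hQ : ball c r ⊆ HP)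
    {z₀ : ℂ} (hz : z₀ ∈ ball c r) {R : Conf → Prop} (hR : ∀ᵐ G ∂P, R G) :
    ∀ᵐ G ∂P, G ∈ good (ball c r) z₀ → R (pull (riem z₀ (dom (ball c r) z₀ G)) HP G) := by
  have := hP.prob
  have h1 : ∀ᵐ p ∂(((P.restrict (good (ball c r) z₀)).map (dom (ball c r) z₀)).prod P), R p.2 :=
    (Measure.quasiMeasurePreserving_snd (μ := (P.restrict (good (ball c r) z₀)).map
      (dom (ball c r) z₀)) (ν := P)).ae hR
  rw [← hP.restriction c r hr hQ z₀ hz] at h1
  have h2 := ae_of_ae_map (hP.dom_meas c r hr hQ z₀ hz) h1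
  exact (ae_restrict_iff'₀ (hP.good_meas c r hr hQ z₀ hz)).1 h2

theorem Full_pos {d' : ℝ} {φ : ℂ → ℂ} {V : Set ℂ} (hφ : IsConf φ HP V) {m m₂ : Measure ℂ} (hm : m HPᶜ = 0)
    (hm0 : m univ ≠ 0) (h : m₂.restrict V = covMeas d' φ m) : 0 < m₂ V := by
  rw [pos_iff_ne_zero]
  intro h0
  have h1 : covMeas d' φ m (φ '' HP) = 0 := by
    rw [← h, Measure.restrict_eq_zero.2 h0]; rfl
  rw [covMeas_image hφ hm isOpen_HP.measurableSet subset_rfl] at h1
  have hc : ContinuousOn (fun z => ENNReal.ofReal (‖deriv φ z‖ ^ d')) HP := by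
    refine ENNReal.continuous_ofReal.comp_continuousOn ?_
    refine ContinuousOn.rpow_const (hφ.diff.deriv hφ.isOpen).continuousOn.norm fun z hz => ?_
    exact Or.inl (norm_ne_zero_iff.2 (hφ.deriv_ne z hz))
  rw [lintegral_eq_zero_iff' (hc.aemeasurable isOpen_HP.measurableSet)] at h1
  have h2 : ∀ᵐ z ∂(m.restrict HP), False := by
    filter_upwards [h1, ae_restrict_mem isOpen_HP.measurableSet] with z hz hzH
    have h3 : 0 < ‖deriv φ z‖ ^ d' := Real.rpow_pos_of_pos (norm_pos_iff.2 (hφ.deriv_ne z hzH)) _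
    simp only [Pi.zero_apply, ENNReal.ofReal_eq_zero] at hz
    linarith
  rw [ae_iff] at h2
  simp only [not_false_eq_true, ofPred_true, Measure.restrict_apply_univ] at h2
  apply hm0
  rw [← union_compl_self HP]
  exact measure_union_null h2 hm

theorem mu_full_ae {P : Measure Conf} (hP : IsCLE P) {d d' : ℝ} (Γ : Geometry P d d') :
    ∀ᵐ G ∂P, ∀ W : Set ℂ, IsOpen W → (W ∩ carpet HP G).Nonempty → 0 < Γ.mu HP G W := by
  have h1 : ∀ᵐ G ∂P, ∀ (k : ℕ) (p : ℤ × ℤ) (i : ℕ), ball (ctr k p) (rad k) ⊆ HP →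
      zseq i ∈ ball (ctr k p) (rad k) → G ∈ good (ball (ctr k p) (rad k)) (zseq i) →
      0 < Γ.mu HP G (dom (ball (ctr k p) (rad k)) (zseq i) G : Set ℂ) := by
    rw [ae_all_iff]; intro k
    rw [ae_all_iff]; intro p
    rw [ae_all_iff]; intro i
    by_cases hQ : ball (ctr k p) (rad k) ⊆ HP
    · by_cases hz : zseq i ∈ ball (ctr k p) (rad k)
      · filter_upwards [hP.riem_exists _ _ (rad_pos k) hQ _ hz, ae_pull hP (rad_pos k) hQ hz Γ.mu_supp,
          ae_pull hP (rad_pos k) hQ hz Γ.mu_pos, Γ.mu_loc _ _ (rad_pos k) hQ _ hz] with G g1 g2 g3 g4 _ _ hG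
        have hR : IsRiem (riem (zseq i) (dom (ball (ctr k p) (rad k)) (zseq i) G)) (zseq i)
            (dom (ball (ctr k p) (rad k)) (zseq i) G : Set ℂ) := by
          unfold riem
          rw [dif_pos (g1 hG)]
          exact (g1 hG).choose_spec
        refine Full_pos hR.1 (measure_mono_null ?_ (g2 hG)) (g3 hG) (g4 hG)
        exact compl_subset_compl.2 sdiff_subset
      · exact Filter.Eventually.of_forall fun G _ h => absurd h hz
    · exact Filter.Eventually.of_forall fun G h => absurd h hQ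
  filter_upwards [h1, hP.loops] with G hG hl W hW hne
  obtain ⟨z, ⟨hzW, hzc⟩, hfree⟩ := exists_free hl hW hne
  obtain ⟨ε, hε, hεW⟩ := Metric.isOpen_iff.1 (hW.inter isOpen_HP) z ⟨hzW, hzc.1⟩
  obtain ⟨k, hk⟩ := (tendsto_rad.eventually_lt_const (show (0 : ℝ) < ε / 2 by positivity)).exists
  obtain ⟨p, hp⟩ := disc_cover k z
  have hsub : ball (ctr k p) (rad k) ⊆ W ∩ HP := by
    refine Subset.trans ?_ hεW
    intro v hv
    rw [mem_ball] at hv hp ⊢
    calc dist v z ≤ dist v (ctr k p) + dist (ctr k p) z := dist_triangle _ _ _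
      _ < ε := by rw [dist_comm (ctr k p) z]; linarith
  have hQ : ball (ctr k p) (rad k) ⊆ HP := hsub.trans inter_subset_right
  have hzh : z ∉ hull (ball (ctr k p) (rad k)) G := by
    rintro ⟨O, hO, -, hzO⟩
    exact hfree O hO hzO
  obtain ⟨i, hi, hgood, -, -⟩ := chart_cover hl hQ hp hzh
  refine (hG k p i hQ hi hgood).trans_le (measure_mono ?_)
  exact (dom_subset _ _ _).trans (hsub.trans inter_subset_left)

end Pool.H25.CLE
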