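import Pool.Agent.H25.CLE.Cell

/-! MODULE GOODA (MP_5d7c93_pr, project CLE of helper25; overview /team-store/H25_CLE.md)
Every point of the carpet in the cell is an n-good point (essential version) for some n. Pure metric geometry for a FIXED configuration; X = carpet HP G is relatively closed in HP.
Proof. (1) There is ρ₀ > 0 such that D w u < L ρ₀, u ∈ X implies ‖u - w‖ < t1: otherwise there are u_k ∈ X, D w u_k → 0, ‖u_k - w‖ ≥ t1. IsLengthMetric.length (x = w, y = u_k, r = t1, closedBall w t1 ⊆ HP,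
η = 1/(k+1)) gives a curve γ in X from w, of length a, with γ a = u_k or ‖γ a - w‖ ≥ t1, so ‖γ a - w‖ ≥ t1 in both cases, and a ≤ D w u_k + η → 0 (D (γ a) u_k ≥ 0). It crosses the circle ‖v - w‖ = t1 at a point v_k = γ s
(intermediate value theorem for s ↦ ‖γ s - w‖), D w v_k ≤ s ≤ a → 0 (LenLE with γ 0 = w). v_k is in the compact set X ∩ sphere w t1 (closed: X relatively closed in HP and closedBall w t1 ⊆ HP), a subsequence converges to
v ∈ X, D w v = 0 by continuity, v ≠ w: contradiction to pos. (Or: D w · has a positive minimum c on the compact set X ∩ sphere w t1 if it is non-empty; then every u ∈ X with ‖u - w‖ ≥ t1 has D w u ≥ c.)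
Take k₀ with L/(k₀+1) < L ρ₀ : first condition of EGood for k = k₀ (the set is contained in Xᶜ).
(2) For this k, β = 1/(2(k+1)): claim: there is ε > 0 with m {u | D z u < β} ≥ ε for all z ∈ X with D w z < L/(k+1). Otherwise z_l ∈ X ∩ closedBall w t1 (compact), m{u | D z_l u < β} → 0 , z_l → z ∈ X (subsequence),
D(z_l, z) → 0, the set W' = {u ∈ X | D z u < β/2} ⊆ {u | D z_l u < β} for large l, and W' = X ∩ W with W open (continuity of D z · on X), z ∈ W, so m W' = m W > 0 (m Xᶜ = 0): contradiction.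
(3) m (ball w (1/256)) < ∞ (locfin on closedBall w (1/256) ⊆ HP), so (n+1) ε ≥ m (ball w (1/256)) for some n: second condition (again up to Xᶜ, a null set). -/

set_option autoImplicit false

namespace Pool.H25.CLE

open MeasureTheory Set Metric Complex
open scoped ENNReal

/-- a point of the sphere of radius `t1` which is almost as close as `u` -/
private theorem gooda_cross {G : Conf} {D : ℂ → ℂ → ℝ} (hD : IsLengthMetric HP (carpet HP G) D)
    {w : ℂ} (hwX : w ∈ carpet HP G) {r : ℝ} (hr : 0 < r) (hrw : closedBall w r ⊆ HP) {u : ℂ}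
    (hu : u ∈ carpet HP G) (hur : r ≤ ‖u - w‖) {η : ℝ} (hη : 0 < η) :
    ∃ v ∈ carpet HP G ∩ sphere w r, D w v ≤ D w u + η := by
  obtain ⟨γ, a, ha, hγc, hγX, hγ0, hlen, hend, hle⟩ := hD.length w hwX u hu r hr hrw η hη
  have haa : a ∈ Icc 0 a := ⟨ha, le_rfl⟩
  have hfar : r ≤ ‖γ a - w‖ := by
    rcases hend with h | h
    · rw [h]; exact hur
    · exact h
  have hnear : ‖γ 0 - w‖ ≤ r := by
    rw [hγ0]; simp [hr.le]
  have hcont : ContinuousOn (fun s => ‖γ s - w‖) (Icc 0 a) := (hγc.sub continuousOn_const).norm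
  obtain ⟨s, hs, hsr⟩ := intermediate_value_Icc ha hcont ⟨hnear, hfar⟩
  have hsX := hγX hs
  refine ⟨γ s, ⟨hsX, by rw [mem_sphere, dist_eq_norm]; exact hsr⟩, ?_⟩
  have h1 := hlen 0 s le_rfl hs.1 hs.2
  rw [hγ0] at h1
  simp only [intervalIntegral.integral_const, sub_zero, smul_eq_mul, mul_one] at h1
  have h2 : 0 ≤ D (γ a) u := by
    by_cases h : γ a = u
    · rw [h, hD.self u hu]
    · exact (hD.pos _ (hγX haa) _ hu h).le
  have h3 := hs.2
  linarith

private theorem gooda_compact {G : Conf} {w : ℂ} {r : ℝ} (hrw : closedBall w r ⊆ HP) {S : Set ℂ}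
    (hS : IsClosed S) (hSb : S ⊆ closedBall w r) : IsCompact (carpet HP G ∩ S) := by
  have h1 : carpet HP G ∩ S = S \ (G : Set ℂ) := by
    ext z
    constructor
    · rintro ⟨⟨_, h2⟩, h3⟩
      exact ⟨h3, h2⟩
    · rintro ⟨h3, h2⟩
      exact ⟨⟨hrw (hSb h3), h2⟩, h3⟩
  rw [h1]
  have h2 : IsClosed (S \ (G : Set ℂ)) := hS.sdiff G.isOpen
  exact (isCompact_closedBall w r).of_isClosed_subset h2 (fun z hz => hSb hz.1)

private theorem gooda_rho {G : Conf} {D : ℂ → ℂ → ℝ} (hD : IsLengthMetric HP (carpet HP G) D)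
    {w : ℂ} (hwX : w ∈ carpet HP G) {r : ℝ} (hr : 0 < r) (hrw : closedBall w r ⊆ HP) :
    ∃ ρ : ℝ, 0 < ρ ∧ ∀ u ∈ carpet HP G, D w u < ρ → ‖u - w‖ < r := by
  set S := carpet HP G ∩ sphere w r with hS
  have hSc : IsCompact S := gooda_compact hrw isClosed_sphere sphere_subset_closedBall
  rcases S.eq_empty_or_nonempty with he | hne
  · refine ⟨1, one_pos, fun u hu _ => ?_⟩
    by_contra hcon
    push Not at hcon
    obtain ⟨v, hv, _⟩ := gooda_cross hD hwX hr hrw hu hcon one_pos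
    rw [← hS, he] at hv
    exact hv
  · have hcont : ContinuousOn (fun v => D w v) S := by
      have h1 : ContinuousOn (fun v : ℂ => ((w, v) : ℂ × ℂ)) S := by fun_prop
      exact hD.cont.comp h1 (fun v hv => ⟨hwX, hv.1⟩)
    obtain ⟨v₀, hv₀, hmin⟩ := hSc.exists_isMinOn hne hcont
    have hwv : w ≠ v₀ := by
      intro h
      have h2 := hv₀.2
      rw [← h, mem_sphere, dist_self] at h2
      exact hr.ne h2
    refine ⟨D w v₀, hD.pos w hwX v₀ hv₀.1 hwv, fun u hu hlt => ?_⟩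
    by_contra hcon
    push Not at hcon
    obtain ⟨v, hv, hle⟩ := gooda_cross hD hwX hr hrw hu hcon (η := (D w v₀ - D w u) / 2) (by linarith)
    have h3 : D w v₀ ≤ D w v := hmin hv
    linarith

private theorem gooda_eps {G : Conf} {D : ℂ → ℂ → ℝ} {m : Measure ℂ}
    (hD : IsLengthMetric HP (carpet HP G) D)
    (hm : MeasOK (carpet HP G) m) {K : Set ℂ} (hK : IsCompact K) (hKX : K ⊆ carpet HP G) {β : ℝ}
    (hβ : 0 < β) : ∃ ε : ℝ≥0∞, 0 < ε ∧ ∀ z ∈ K, ε ≤ m {u | D z u < β} := by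
  refine hK.induction_on (p := fun S => ∃ ε : ℝ≥0∞, 0 < ε ∧ ∀ z ∈ S, ε ≤ m {u | D z u < β})
    ⟨1, one_pos, fun z hz => absurd hz (Set.notMem_empty z)⟩ ?_ ?_ ?_
  · rintro S T hST ⟨ε, hε, h⟩
    exact ⟨ε, hε, fun z hz => h z (hST hz)⟩
  · rintro S T ⟨ε, hε, h⟩ ⟨ε', hε', h'⟩
    refine ⟨min ε ε', lt_min hε hε', fun z hz => ?_⟩
    rcases hz with hz | hz
    · exact (min_le_left _ _).trans (h z hz)
    · exact (min_le_right _ _).trans (h' z hz)
  · intro z hz
    have hzX := hKX hz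
    have h1 : Filter.Tendsto (fun p : ℂ × ℂ => D p.1 p.2)
        (nhdsWithin (z, z) (carpet HP G ×ˢ carpet HP G)) (nhds (D z z)) := hD.cont (z, z) ⟨hzX, hzX⟩
    have h2 : ∀ᶠ p in nhdsWithin (z, z) (carpet HP G ×ˢ carpet HP G), D p.1 p.2 < β := by
      refine h1.eventually (gt_mem_nhds ?_)
      rw [hD.self z hzX]
      exact hβ
    rw [nhdsWithin_prod_eq, Filter.eventually_prod_iff] at h2
    obtain ⟨pa, hpa, pb, hpb, hab⟩ := h2
    rw [eventually_nhdsWithin_iff] at hpa hpb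
    obtain ⟨N, hN1, hN2, hN3⟩ := _root_.mem_nhds_iff.1 (hpa.and hpb)
    refine ⟨N ∩ K, Filter.inter_mem (mem_nhdsWithin_of_mem_nhds (hN2.mem_nhds hN3))
      self_mem_nhdsWithin, m N, hm.full N hN2 ⟨z, hN3, hzX⟩, ?_⟩
    rintro z' ⟨hz'N, hz'K⟩
    have h3 : m N ≤ m (N ∩ carpet HP G) + m (carpet HP G)ᶜ := by
      refine (measure_mono ?_).trans (measure_union_le _ _)
      intro y hy
      by_cases hyX : y ∈ carpet HP G
      · exact Or.inl ⟨hy, hyX⟩
      · exact Or.inr hyX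
    rw [hm.supp, add_zero] at h3
    refine h3.trans (measure_mono ?_)
    rintro u ⟨huN, huX⟩
    exact hab ((hN1 hz'N).1 (hKX hz'K)) ((hN1 huN).2 huX)

theorem exists_EGood {G : Conf} {D : ℂ → ℂ → ℝ} {m : Measure ℂ} (hD : IsLengthMetric HP (carpet HP G) D)
    (hm : MeasOK (carpet HP G) m) {L : ℝ} (hL : 0 < L) {w : ℂ} (hw : w ∈ cell) (hwX : w ∈ carpet HP G) :
    ∃ n : ℕ, EGood D m L n w := by
  have ht1 : 0 < t1 := by unfold t1; norm_num
  have ht1' : t1 < 1 := by unfold t1; norm_num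
  have hball : closedBall w t1 ⊆ HP :=
    (closedBall_subset_ball ht1').trans (ball_subset_HP hw)
  have hball2 : closedBall w (1 / 2) ⊆ HP :=
    (closedBall_subset_ball (by norm_num)).trans (ball_subset_HP hw)
  obtain ⟨ρ, hρ, hρ2⟩ := gooda_rho hD hwX ht1 hball
  -- choice of `k`
  obtain ⟨k, hk⟩ := exists_nat_gt (L / ρ)
  have hk1 : L / (k + 1) < ρ := by
    have hk0 : (0 : ℝ) < (k : ℝ) + 1 := by positivity
    rw [div_lt_iff₀ hk0]
    rw [div_lt_iff₀ hρ] at hk
    nlinarith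
  have hβ : (0 : ℝ) < 1 / (2 * (k + 1)) := by positivity
  have hK : IsCompact (carpet HP G ∩ closedBall w t1) := gooda_compact hball isClosed_closedBall subset_rfl
  obtain ⟨ε, hε, hε2⟩ := gooda_eps hD hm hK inter_subset_left hβ
  have hfin : m (ball w (1 / 256)) ≠ ⊤ := by
    have h1 := hm.locfin _ (isCompact_closedBall w (1 / 2)) hball2
    refine (lt_of_le_of_lt (measure_mono ?_) h1).ne
    exact (ball_subset_ball (by norm_num)).trans ball_subset_closedBall
  obtain ⟨n, hn⟩ := ENNReal.exists_nat_mul_gt hε.ne' hfin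
  refine ⟨n, k, measure_mono_null ?_ hm.supp, measure_mono_null ?_ hm.supp⟩
  · rintro u ⟨h1, h2, -⟩ huX
    have := hρ2 u huX (h1.trans hk1)
    linarith
  · rintro z ⟨h1, -, h3⟩ hzX
    have h4 := hρ2 z hzX (h1.trans hk1)
    have h5 := hε2 z ⟨hzX, by rw [mem_closedBall, dist_eq_norm]; exact h4.le⟩
    have h6 : (n : ℝ≥0∞) * ε ≤ ((n : ℝ≥0∞) + 1) * m {u | D z u < 1 / (2 * (k + 1))} := by
      gcongr
      exact le_self_add
    exact absurd (h6.trans_lt h3) (not_lt.2 hn.le)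

theorem EGood.mono {D : ℂ → ℂ → ℝ} {m : Measure ℂ} {L : ℝ} {n n' : ℕ} (h : n ≤ n') {w : ℂ}
    (hE : EGood D m L n w) : EGood D m L n' w := by
  obtain ⟨k, h1, h2⟩ := hE
  refine ⟨k, h1, measure_mono_null ?_ h2⟩
  rintro z ⟨hz1, hz2, hz3⟩
  refine ⟨hz1, hz2, lt_of_le_of_lt ?_ hz3⟩
  gcongr

end Pool.H25.CLE
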