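import Pool.Agent.H25.CLE.One
import Pool.Agent.H25.CLE.Grid

/-! # MP_5d7c93_pr : definition of the majorant (no proofs here) -/

set_option autoImplicit false

namespace Pool.H25.CLE

open MeasureTheory ProbabilityTheory Set Metric Complex
open scoped ENNReal

/-- `i` is the first index of a base point in the domain -/
def firstEv (i : ℕ) : Set Conf := {V | ∀ m < i, zseq m ∉ (V : Set ℂ)}

open Classical in
/-- the majorant of the bad mass at level `k` in `KK R` -/
noncomputable def gsum {P : Measure Conf} {d d' : ℝ} (Γ : Geometry P d d') (R k : ℕ) (B : Set (Conf × ℂ))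
    (G : Conf) : ℝ≥0∞ :=
  ∑' p : ℤ × ℤ, ∑' i : ℕ, ∑' j : ℤ × ℤ,
    if (ball (ctr k p) (rad k) ∩ KK R).Nonempty ∧ zseq i ∈ ball (ctr k p) (rad k) then
      ghat Γ (ctr k p) (rad k) (zseq i) j (firstEv i) B G else 0

end Pool.H25.CLE
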