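import Mathlib

/-! MODULE LANDAU (MP_5d7c93_pr, project CLE of helper25; overview /team-store/H25_CLE.md)
Quantitative open mapping theorem for bounded functions.
Proof: put a = ‖g'(0)‖ ≤ M (Cauchy/Schwarz: `norm_deriv_le_div_of_mapsTo_ball`, or with 2M instead of strict bounds). The function g(z) - g'(0) z is bounded by 2M on the
disc and is o(z) at 0, so by the Schwarz lemma with multiplicity (`Complex.dist_le_mul_div_pow_of_mapsTo_ball_of_isLittleO`) it is ≤ 2M ‖z‖^2 (strict bounds: use M' > M and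
let M' → M, or apply the lemma for every M' > 2M). On ‖z‖ = r := a/(4M) ≤ 1/4: ‖g z‖ ≥ a r - 2M r^2 = a r/2 = a^2/(8M).
`DiffContOnCl.ball_subset_image_closedBall` (with z₀ = 0, ε = a^2/(8M)) gives ball 0 (a^2/(16M)) ⊆ g '' closedBall 0 r ⊆ g '' ball 0 1. -/

set_option autoImplicit false

namespace Pool.H25.CLE

open Set Metric Complex

open Asymptotics in
theorem landau {g : ℂ → ℂ} {M : ℝ} (hg : DifferentiableOn ℂ g (ball 0 1))
    (hM : ∀ z ∈ ball (0 : ℂ) 1, ‖g z‖ ≤ M) (h0 : g 0 = 0) (hd : deriv g 0 ≠ 0) :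
    ball 0 (‖deriv g 0‖ ^ 2 / (16 * M)) ⊆ g '' ball 0 1 := by
  have h0b : (0 : ℂ) ∈ ball (0 : ℂ) 1 := mem_ball_self one_pos
  have hgd : HasDerivAt g (deriv g 0) 0 := (hg.differentiableAt (isOpen_ball.mem_nhds h0b)).hasDerivAt
  have ha : 0 < ‖deriv g 0‖ := norm_pos_iff.2 hd
  set a := ‖deriv g 0‖ with ha_def
  -- a ≤ M
  have haM : a ≤ M := by
    have h1 : MapsTo g (ball 0 1) (closedBall (g 0) M) := by
      intro z hz
      rw [h0, mem_closedBall, dist_zero_right]
      exact hM z hz
    have h2 : a ≤ M / 1 := Complex.norm_deriv_le_div_of_mapsTo_ball (f := g) hg h1 one_pos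
    simpa using h2
  have hMpos : 0 < M := ha.trans_le haM
  -- the remainder
  have hrem : ∀ z ∈ ball (0 : ℂ) 1, ‖g z - deriv g 0 * z‖ ≤ 2 * M * ‖z‖ ^ 2 := by
    intro z hz
    have hd' : DifferentiableOn ℂ (fun z => g z - deriv g 0 * z) (ball 0 1) :=
      hg.sub ((differentiable_id.const_mul _).differentiableOn)
    have hmaps : MapsTo (fun z => g z - deriv g 0 * z) (ball 0 1)
        (closedBall ((fun z => g z - deriv g 0 * z) 0) (2 * M)) := by
      intro w hw
      simp only [h0, mul_zero, sub_zero, mem_closedBall, dist_zero_right]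
      have hw' : ‖w‖ < 1 := by simpa using hw
      calc ‖g w - deriv g 0 * w‖ ≤ ‖g w‖ + ‖deriv g 0 * w‖ := norm_sub_le _ _
        _ ≤ M + M * 1 := by
            rw [norm_mul]
            gcongr
            exact hM w hw
        _ = 2 * M := by ring
    have hlo : ((fun z => g z - deriv g 0 * z) · - (fun z => g z - deriv g 0 * z) 0) =o[nhds 0]
        (fun w : ℂ ↦ ‖w - 0‖ ^ 1) := by
      have := hgd.isLittleO
      simp only [h0, sub_zero, smul_eq_mul, mul_zero, pow_one] at this ⊢
      refine (this.norm_right).congr_left ?_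
      intro x
      ring
    have := Complex.dist_le_mul_div_pow_of_mapsTo_ball_of_isLittleO hd' hmaps hlo hz
    simpa [h0, dist_eq_norm] using this
  set r := a / (4 * M) with hr_def
  have hr : 0 < r := by positivity
  have hr4 : r ≤ 1 / 4 := by
    rw [hr_def, div_le_div_iff₀ (by positivity) (by norm_num)]
    linarith
  have hsub : closedBall (0 : ℂ) r ⊆ ball 0 1 := closedBall_subset_ball (by linarith)
  have hdc : DiffContOnCl ℂ g (ball 0 r) := by
    refine ⟨hg.mono (ball_subset_closedBall.trans hsub), ?_⟩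
    rw [closure_ball _ hr.ne']
    exact hg.continuousOn.mono hsub
  have hsph : ∀ z ∈ sphere (0 : ℂ) r, a ^ 2 / (8 * M) ≤ ‖g z - g 0‖ := by
    intro z hz
    have hzr : ‖z‖ = r := by simpa using hz
    have hzb : z ∈ ball (0 : ℂ) 1 := hsub (sphere_subset_closedBall hz)
    have h1 := hrem z hzb
    have h2 : ‖deriv g 0 * z‖ - ‖g z‖ ≤ ‖g z - deriv g 0 * z‖ := by
      rw [norm_sub_rev]; exact norm_sub_norm_le _ _
    rw [norm_mul, hzr, ← ha_def] at h2
    rw [hzr] at h1
    rw [h0, sub_zero]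
    have h3 : a * r - 2 * M * r ^ 2 = a ^ 2 / (8 * M) := by
      rw [hr_def]; field_simp; ring
    linarith
  have hfreq : ∃ᶠ z in nhds (0 : ℂ), g z ≠ g 0 := by
    have := (hgd.eventually_ne hd : ∀ᶠ z in nhdsWithin 0 {0}ᶜ, g z ≠ g 0)
    exact (this.frequently).filter_mono nhdsWithin_le_nhds
  have hmain := hdc.ball_subset_image_closedBall hr hsph hfreq
  rw [h0] at hmain
  have he : a ^ 2 / (8 * M) / 2 = a ^ 2 / (16 * M) := by field_simp; norm_num
  rw [he] at hmain
  exact hmain.trans (image_mono hsub)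

end Pool.H25.CLE
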