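import Pool.Agent.H25.CLE.Log
import Pool.Agent.H25.CLE.Landau

/-! MODULE KOEBE (MP_5d7c93_pr, project CLE of helper25; overview /team-store/H25_CLE.md)
Koebe-type covering theorem with the constant 1/16 (elementary proof, no area theorem).
Proof. Scaling ζ ↦ F(w + tζ) - F(w) reduces to w = 0, t = 1, φ injective on the unit disc, φ(0) = 0. If φ'(0) = 0 the ball is empty. Let w₀ ∉ φ(disc); w₀ ≠ 0. Claim: ‖φ'(0)‖ ≤ 16 ‖w₀‖.
1 - φ/w₀ has no zero, so (exists_log) it is s^2 with s holomorphic, s(0) = 1 (replace s by -s if necessary). s ≠ -1 on the disc (s = -1 → φ = 0 → z = 0 → s = 1). T = (s-1)/(s+1), T(0) = 0,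
T'(0) = s'(0)/2 = -φ'(0)/(4 w₀) =: τ ≠ 0. If T(z) T(z') = 1 then s(z') = -s(z), so φ(z) = φ(z'), z = z', s(z) = 0, φ(z) = w₀: impossible. So if ball 0 δ ⊆ T(disc) (δ > 0) then ‖T‖ ≤ 1/δ on the disc
(otherwise 1/T(z) is in the ball). By the open mapping theorem some δ > 0 exists, so T is bounded by some M₀. If T is bounded by M then `landau` gives ball 0 (‖τ‖²/(16M)) ⊆ T(disc), so T is
bounded by 16 M/‖τ‖². With M the supremum of ‖T‖ this gives ‖τ‖² ≤ 16, so ‖τ‖ ≤ 4, i.e. ‖φ'(0)‖ ≤ 16 ‖w₀‖. -/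

set_option autoImplicit false

namespace Pool.H25.CLE

open Set Metric Complex

/-- the bound for an omitted value -/
theorem koebe_omit {φ : ℂ → ℂ} (hφ : DifferentiableOn ℂ φ (ball 0 1)) (hinj : InjOn φ (ball 0 1))
    (h0 : φ 0 = 0) (hd : deriv φ 0 ≠ 0) {w₀ : ℂ} (hw : w₀ ∉ φ '' ball 0 1) :
    ‖deriv φ 0‖ ≤ 16 * ‖w₀‖ := by
  have h0mem : (0 : ℂ) ∈ ball (0 : ℂ) 1 := mem_ball_self one_pos
  have hnhds : ball (0 : ℂ) 1 ∈ nhds (0 : ℂ) := ball_mem_nhds _ one_pos
  have hw0 : w₀ ≠ 0 := by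
    rintro rfl
    exact hw ⟨0, h0mem, h0⟩
  -- the square root
  have hq : DifferentiableOn ℂ (fun z => 1 - φ z / w₀) (ball 0 1) :=
    (differentiableOn_const 1).sub (hφ.div_const w₀)
  obtain ⟨L, hL, hLe⟩ := exists_log hq (fun z hz h => by
    apply hw
    refine ⟨z, hz, ?_⟩
    have h1 : φ z / w₀ = 1 := by linear_combination -h
    rwa [div_eq_one_iff_eq hw0] at h1)
  obtain ⟨s, hs, hs2, hs0⟩ : ∃ s : ℂ → ℂ, DifferentiableOn ℂ s (ball 0 1) ∧
      (∀ z ∈ ball (0 : ℂ) 1, s z * s z = 1 - φ z / w₀) ∧ s 0 = 1 := by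
    let s1 : ℂ → ℂ := fun z => exp (L z / 2)
    have hs1 : DifferentiableOn ℂ s1 (ball 0 1) := (hL.div_const 2).cexp
    have hs1sq : ∀ z ∈ ball (0 : ℂ) 1, s1 z * s1 z = 1 - φ z / w₀ := by
      intro z hz
      simp only [s1]
      rw [← Complex.exp_add, add_halves, ← hLe z hz]
    have h1 : s1 0 * s1 0 = 1 := by
      rw [hs1sq 0 h0mem, h0]; simp
    rcases mul_self_eq_one_iff.mp h1 with h | h
    · exact ⟨s1, hs1, hs1sq, h⟩
    · refine ⟨fun z => -s1 z, hs1.neg, fun z hz => ?_, ?_⟩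
      · rw [neg_mul_neg]; exact hs1sq z hz
      · simp only; rw [h, neg_neg]
  have hsm : ∀ z ∈ ball (0 : ℂ) 1, s z + 1 ≠ 0 := by
    intro z hz h
    have h1 : s z = -1 := by linear_combination h
    have h2 := hs2 z hz
    rw [h1] at h2
    have h3 : φ z / w₀ = 0 := by linear_combination h2
    have h4 : φ z = 0 := by
      rcases div_eq_zero_iff.mp h3 with h | h
      · exact h
      · exact absurd h hw0
    have h5 : z = 0 := hinj hz h0mem (by rw [h4, h0])
    rw [h5, hs0] at h1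
    norm_num at h1
  let T : ℂ → ℂ := fun z => (s z - 1) / (s z + 1)
  have hT : DifferentiableOn ℂ T (ball 0 1) :=
    (hs.sub (differentiableOn_const 1)).div (hs.add (differentiableOn_const 1)) hsm
  have hT0 : T 0 = 0 := by simp only [T]; rw [hs0]; simp
  have hsd : HasDerivAt s (deriv s 0) 0 := (hs.differentiableAt hnhds).hasDerivAt
  have hφd : HasDerivAt φ (deriv φ 0) 0 := (hφ.differentiableAt hnhds).hasDerivAt
  have hs' : deriv s 0 = -(deriv φ 0) / (2 * w₀) := by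
    have h1 : HasDerivAt (fun z => s z * s z) (deriv s 0 * s 0 + s 0 * deriv s 0) 0 := hsd.mul hsd
    have h2 : HasDerivAt (fun z => 1 - φ z / w₀) (-(deriv φ 0 / w₀)) 0 := by
      simpa using (hφd.div_const w₀).const_sub 1
    have h3 : (fun z => s z * s z) =ᶠ[nhds 0] fun z => 1 - φ z / w₀ :=
      Filter.eventually_of_mem hnhds hs2
    have h4 := (h1.congr_of_eventuallyEq h3.symm).unique h2
    rw [hs0] at h4
    field_simp at h4 ⊢
    linear_combination h4
  have hTd : HasDerivAt T (-(deriv φ 0) / (4 * w₀)) 0 := by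
    have h1 := (hsd.sub_const 1).div (hsd.add_const 1) (hsm 0 h0mem)
    refine h1.congr_deriv ?_
    rw [hs0, hs']
    field_simp
    ring
  have hTderiv : deriv T 0 = -(deriv φ 0) / (4 * w₀) := hTd.deriv
  have hτ : deriv T 0 ≠ 0 := by
    rw [hTderiv]
    exact div_ne_zero (neg_ne_zero.mpr hd) (mul_ne_zero (by norm_num) hw0)
  have hprod : ∀ z ∈ ball (0 : ℂ) 1, ∀ z' ∈ ball (0 : ℂ) 1, T z * T z' ≠ 1 := by
    intro z hz z' hz' h
    have h1 := hsm z hz
    have h2 := hsm z' hz'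
    simp only [T] at h
    rw [div_mul_div_comm, div_eq_one_iff_eq (mul_ne_zero h1 h2)] at h
    have h3 : s z' = -s z := by linear_combination (-1 / 2 : ℂ) * h
    have h4 : φ z = φ z' := by
      have e1 := hs2 z hz
      have e2 := hs2 z' hz'
      rw [h3, neg_mul_neg, e1] at e2
      have e3 : φ z / w₀ = φ z' / w₀ := by linear_combination -e2
      field_simp at e3
      exact e3
    have h5 : z = z' := hinj hz hz' h4
    rw [← h5] at h3
    have h6 : s z = 0 := by linear_combination (1 / 2 : ℂ) * h3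
    have h7 := hs2 z hz
    rw [h6, mul_zero] at h7
    apply hw
    refine ⟨z, hz, ?_⟩
    have h8 : φ z / w₀ = 1 := by linear_combination h7
    rwa [div_eq_one_iff_eq hw0] at h8
  have hbdd : ∀ δ : ℝ, 0 < δ → ball 0 δ ⊆ T '' ball 0 1 → ∀ z ∈ ball (0 : ℂ) 1, ‖T z‖ ≤ 1 / δ := by
    intro δ hδ hsub z hz
    by_contra hlt
    rw [not_le] at hlt
    have hTpos : 0 < ‖T z‖ := (by positivity : (0 : ℝ) < 1 / δ).trans hlt
    have hTz : T z ≠ 0 := norm_pos_iff.mp hTpos
    have h1 : (T z)⁻¹ ∈ ball (0 : ℂ) δ := by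
      rw [mem_ball_zero_iff, norm_inv]
      rw [inv_lt_comm₀ hTpos hδ, inv_eq_one_div]
      exact hlt
    obtain ⟨z', hz', h2⟩ := hsub h1
    apply hprod z hz z' hz'
    rw [h2, mul_inv_cancel₀ hTz]
  -- some ball is covered
  obtain ⟨δ, hδ, hδsub⟩ : ∃ δ : ℝ, 0 < δ ∧ ball 0 δ ⊆ T '' ball 0 1 := by
    have hstrict : HasStrictDerivAt T (deriv T 0) 0 :=
      ((hT.analyticAt hnhds).hasStrictDerivAt)
    have hmap := hstrict.map_nhds_eq hτ
    have h1 : T '' ball 0 1 ∈ nhds (T 0) := by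
      rw [← hmap]
      exact Filter.image_mem_map hnhds
    rw [hT0] at h1
    exact Metric.mem_nhds_iff.mp h1
  have hB := hbdd δ hδ hδsub
  -- the supremum
  let A : Set ℝ := (fun z => ‖T z‖) '' ball (0 : ℂ) 1
  have hAbdd : BddAbove A := ⟨1 / δ, by rintro _ ⟨z, hz, rfl⟩; exact hB z hz⟩
  have hAne : A.Nonempty := ⟨_, 0, h0mem, rfl⟩
  set M := sSup A with hMdef
  have hM : ∀ z ∈ ball (0 : ℂ) 1, ‖T z‖ ≤ M := fun z hz => le_csSup hAbdd ⟨z, hz, rfl⟩
  have hMpos : 0 < M := by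
    by_contra hle
    rw [not_lt] at hle
    have h1 : T =ᶠ[nhds 0] fun _ => (0 : ℂ) := by
      refine Filter.eventually_of_mem hnhds fun z hz => ?_
      exact norm_le_zero_iff.mp ((hM z hz).trans hle)
    exact hτ (by rw [h1.deriv_eq, deriv_const])
  have hland := landau hT hM hT0 hτ
  have hτpos : 0 < ‖deriv T 0‖ := norm_pos_iff.mpr hτ
  have hδ' : 0 < ‖deriv T 0‖ ^ 2 / (16 * M) := by positivity
  have h1 : M ≤ 1 / (‖deriv T 0‖ ^ 2 / (16 * M)) := by
    refine csSup_le hAne ?_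
    rintro _ ⟨z, hz, rfl⟩
    exact hbdd _ hδ' hland z hz
  rw [one_div_div, le_div_iff₀ (by positivity)] at h1
  have h2 : ‖deriv T 0‖ ^ 2 ≤ 16 := by
    by_contra hgt
    rw [not_le] at hgt
    have := mul_lt_mul_of_pos_left hgt hMpos
    linarith
  have h3 : ‖deriv T 0‖ ≤ 4 := by
    by_contra hgt
    rw [not_le] at hgt
    nlinarith
  rw [hTderiv, norm_div, norm_neg, norm_mul, Complex.norm_ofNat] at h3
  have hw0' : 0 < ‖w₀‖ := norm_pos_iff.mpr hw0
  rw [div_le_iff₀ (by positivity)] at h3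
  linarith

theorem koebe {F : ℂ → ℂ} {w : ℂ} {t : ℝ} (ht : 0 < t) (hF : DifferentiableOn ℂ F (ball w t))
    (hinj : InjOn F (ball w t)) :
    ball (F w) (‖deriv F w‖ * t / 16) ⊆ F '' ball w t := by
  by_cases hd : deriv F w = 0
  · rw [hd, norm_zero, zero_mul, zero_div, ball_zero]
    exact empty_subset _
  intro x hx
  by_contra hno
  have htc : (t : ℂ) ≠ 0 := by exact_mod_cast ht.ne'
  have hmaps : ∀ ζ ∈ ball (0 : ℂ) 1, w + t * ζ ∈ ball w t := by
    intro ζ hζ
    rw [mem_ball_zero_iff] at hζ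
    rw [mem_ball_iff_norm, add_sub_cancel_left, norm_mul, Complex.norm_real,
      Real.norm_of_nonneg ht.le]
    nlinarith
  let φ : ℂ → ℂ := fun ζ => F (w + t * ζ) - F w
  have hφ : DifferentiableOn ℂ φ (ball 0 1) := by
    refine DifferentiableOn.sub_const ?_ _
    refine hF.comp ?_ hmaps
    exact ((differentiable_const w).add ((differentiable_const (t : ℂ)).mul
      differentiable_id)).differentiableOn
  have hφinj : InjOn φ (ball 0 1) := by
    intro a ha b hb hab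
    have h1 : F (w + t * a) = F (w + t * b) := by
      simp only [φ] at hab
      linear_combination hab
    have h2 := hinj (hmaps a ha) (hmaps b hb) h1
    have h3 : (t : ℂ) * a = t * b := by linear_combination h2
    exact mul_left_cancel₀ htc h3
  have hφ0 : φ 0 = 0 := by simp [φ]
  have hFd : HasDerivAt F (deriv F w) w :=
    (hF.differentiableAt (ball_mem_nhds w ht)).hasDerivAt
  have hφd : HasDerivAt φ (deriv F w * t) 0 := by
    have h1 : HasDerivAt (fun ζ : ℂ => w + t * ζ) (t : ℂ) 0 := by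
      simpa using ((hasDerivAt_id (0 : ℂ)).const_mul (t : ℂ)).const_add w
    have h2 : HasDerivAt F (deriv F w) (w + t * 0) := by simpa using hFd
    exact (h2.comp 0 h1).sub_const _
  have hdφ : deriv φ 0 = deriv F w * t := hφd.deriv
  have key := koebe_omit hφ hφinj hφ0 (by rw [hdφ]; exact mul_ne_zero hd htc) (w₀ := x - F w) (by
    rintro ⟨ζ, hζ, h⟩
    apply hno
    refine ⟨w + t * ζ, hmaps ζ hζ, ?_⟩
    simp only [φ] at h
    linear_combination h)
  rw [hdφ, norm_mul, Complex.norm_real, Real.norm_of_nonneg ht.le] at key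
  rw [mem_ball_iff_norm] at hx
  linarith

end Pool.H25.CLE
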