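import Pool.Agent.H25.CLE.Cell

/-! MODULE LAW (MP_5d7c93_pr, project CLE of helper25; overview /team-store/H25_CLE.md)
The configuration cG seen in a chart has law P and is independent of the explored domain.
map_pull_aff: pull (aff j) HP = push B HP (pull_eq_push, exists_aff_inv), so hP.conf_inv. P is a probability measure, so P.map g = P forces AEMeasurable g P (otherwise the map is 0).
law_cG: hP.restriction (with hP.dom_meas), then apply Prod.map id (pull (aff j) HP) : (ν.prod P).map (Prod.map id g) = ν.prod (P.map g) (`Measure.map_prod_map` needs measurable maps: replace pull (aff j) HP by a measurable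
version g (AEMeasurable.mk), equal P-a.e., hence on the product side a.e.). ae_cG: second marginal of law_cG is (ν univ) • P; `ae_of_ae_map`; pass from P.restrict good to P with hP.good_meas (`ae_restrict_iff'₀`). -/

set_option autoImplicit false

namespace Pool.H25.CLE

open MeasureTheory ProbabilityTheory Set Metric Complex
open scoped ENNReal

theorem map_pull_aff {P : Measure Conf} (hP : IsCLE P) (j : ℤ × ℤ) : P.map (pull (aff j) HP) = P := by
  obtain ⟨B, hB, hBA, hAB⟩ := exists_aff_inv j
  have h : pull (aff j) HP = push B HP := funext fun G => pull_eq_push (aff_isConf j) hB hBA hAB G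
  rw [h]
  exact hP.conf_inv B hB

theorem Law_aemeasurable_pull {P : Measure Conf} (hP : IsCLE P) (j : ℤ × ℤ) :
    AEMeasurable (pull (aff j) HP) P := by
  have := hP.prob
  by_contra h
  have h1 := map_pull_aff hP j
  rw [Measure.map_of_not_aemeasurable h] at h1
  exact IsProbabilityMeasure.ne_zero P h1.symm

theorem Law_aemeasurable_prod {P : Measure Conf} (hP : IsCLE P) (j : ℤ × ℤ) (ν : Measure Conf) [SFinite ν] :
    AEMeasurable (Prod.map (id : Conf → Conf) (pull (aff j) HP)) (ν.prod P) := by
  have := hP.prob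
  have h := (Law_aemeasurable_pull hP j).comp_quasiMeasurePreserving
    (Measure.quasiMeasurePreserving_snd (μ := ν) (ν := P))
  exact measurable_fst.aemeasurable.prodMk h

theorem aemeasurable_cG {P : Measure Conf} (hP : IsCLE P) {c : ℂ} {r : ℝ} (hr : 0 < r) (hQ : ball c r ⊆ HP)
    {z₀ : ℂ} (hz : z₀ ∈ ball c r) (j : ℤ × ℤ) :
    AEMeasurable (fun G => (dom (ball c r) z₀ G, cG c r z₀ j G)) (P.restrict (good (ball c r) z₀)) := by
  have := hP.prob
  have h1 : AEMeasurable (Prod.map (id : Conf → Conf) (pull (aff j) HP))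
      ((P.restrict (good (ball c r) z₀)).map
        (fun G => (dom (ball c r) z₀ G, pull (riem z₀ (dom (ball c r) z₀ G)) HP G))) := by
    rw [hP.restriction c r hr hQ z₀ hz]
    exact Law_aemeasurable_prod hP j _
  exact h1.comp_aemeasurable (hP.dom_meas c r hr hQ z₀ hz)

theorem law_cG {P : Measure Conf} (hP : IsCLE P) {c : ℂ} {r : ℝ} (hr : 0 < r) (hQ : ball c r ⊆ HP)
    {z₀ : ℂ} (hz : z₀ ∈ ball c r) (j : ℤ × ℤ) :
    (P.restrict (good (ball c r) z₀)).map (fun G => (dom (ball c r) z₀ G, cG c r z₀ j G)) =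
      ((P.restrict (good (ball c r) z₀)).map (dom (ball c r) z₀)).prod P := by
  have := hP.prob
  have h1 : AEMeasurable (Prod.map (id : Conf → Conf) (pull (aff j) HP))
      ((P.restrict (good (ball c r) z₀)).map
        (fun G => (dom (ball c r) z₀ G, pull (riem z₀ (dom (ball c r) z₀ G)) HP G))) := by
    rw [hP.restriction c r hr hQ z₀ hz]
    exact Law_aemeasurable_prod hP j _
  have h2 := AEMeasurable.map_map_of_aemeasurable h1 (hP.dom_meas c r hr hQ z₀ hz)
  have h3 : (Prod.map (id : Conf → Conf) (pull (aff j) HP)) ∘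
      (fun G => (dom (ball c r) z₀ G, pull (riem z₀ (dom (ball c r) z₀ G)) HP G)) =
      fun G => (dom (ball c r) z₀ G, cG c r z₀ j G) := rfl
  rw [h3] at h2
  rw [← h2, hP.restriction c r hr hQ z₀ hz]
  have hg := Law_aemeasurable_pull hP j
  have h4 : Prod.map (id : Conf → Conf) (pull (aff j) HP) =ᵐ[((P.restrict (good (ball c r) z₀)).map
      (dom (ball c r) z₀)).prod P] Prod.map (id : Conf → Conf) (hg.mk _) := by
    have h5 := (Measure.quasiMeasurePreserving_snd (μ := (P.restrict (good (ball c r) z₀)).map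
      (dom (ball c r) z₀)) (ν := P)).ae hg.ae_eq_mk
    filter_upwards [h5] with p hp
    simp only [Prod.map, id, hp]
  rw [Measure.map_congr h4, ← Measure.map_prod_map _ _ measurable_id hg.measurable_mk, Measure.map_id,
    ← Measure.map_congr hg.ae_eq_mk, map_pull_aff hP j]

theorem ae_cG {P : Measure Conf} (hP : IsCLE P) {c : ℂ} {r : ℝ} (hr : 0 < r) (hQ : ball c r ⊆ HP)
    {z₀ : ℂ} (hz : z₀ ∈ ball c r) (j : ℤ × ℤ) {R : Conf → Prop} (hR : ∀ᵐ G ∂P, R G) :
    ∀ᵐ G ∂P, G ∈ good (ball c r) z₀ → R (cG c r z₀ j G) := by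
  have := hP.prob
  have h1 : ∀ᵐ p ∂(((P.restrict (good (ball c r) z₀)).map (dom (ball c r) z₀)).prod P), R p.2 :=
    (Measure.quasiMeasurePreserving_snd (μ := (P.restrict (good (ball c r) z₀)).map
      (dom (ball c r) z₀)) (ν := P)).ae hR
  rw [← law_cG hP hr hQ hz j] at h1
  have h2 := ae_of_ae_map (aemeasurable_cG hP hr hQ hz j) h1
  exact (ae_restrict_iff'₀ (hP.good_meas c r hr hQ z₀ hz)).1 h2

end Pool.H25.CLE
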