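import Pool.Agent.H25.CLE.Hole
import Pool.Agent.H25.CLE.Chart

/-! MODULE POS (MP_5d7c93_pr, project CLE of helper25; overview /team-store/H25_CLE.md)
The expected mass of the cell is positive and finite. Finite: cell ⊆ {0 ≤ re ≤ 1/512, 1 ≤ im ≤ 513/512} compact in HP, mu_int. Positive: suppose it is 0. For every j, the law of push (aff j) HP G is P (conf_inv) and a.s.
mu HP (push (aff j) HP G) = covMeas d' (aff j) (mu HP G), so mu HP (push (aff j) HP G)(aff j '' cell) = ∫_cell ‖aff j'‖^d' d mu HP G = 0 a.s. (covMeas_image), hence mu HP G (aff j '' cell) = 0 for a.e. G (change of variables: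
G ↦ mu HP G (S) is measurable), all j; the images of the cell cover HP (cell_cover), so mu HP G HP = 0 a.s.: contradiction to mu_pos, mu_supp (P ≠ 0). -/

set_option autoImplicit false

namespace Pool.H25.CLE

open MeasureTheory ProbabilityTheory Set Metric Complex
open scoped ENNReal

/-- a cell with zero expected mass has images with zero mass -/
theorem pos_image_null {P : Measure Conf} (hP : IsCLE P) {d d' : ℝ} (Γ : Geometry P d d')
    (h0 : ∀ᵐ G ∂P, Γ.mu HP G cell = 0) (j : ℤ × ℤ) : ∀ᵐ G ∂P, Γ.mu HP G (aff j '' cell) = 0 := by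
  have hA := aff_isConf j
  have hinv := hP.conf_inv (aff j) hA
  have := hP.prob
  have haem : AEMeasurable (push (aff j) HP) P := by
    refine AEMeasurable.of_map_ne_zero ?_
    rw [hinv]
    exact IsProbabilityMeasure.ne_zero P
  have hSm : MeasurableSet (aff j '' cell) :=
    measurableSet_cell.image_of_continuousOn_injOn (hA.diff.continuousOn.mono cell_subset_HP)
      (hA.inj.mono cell_subset_HP)
  have hms : MeasurableSet {G : Conf | Γ.mu HP G (aff j '' cell) = 0} :=
    ((Γ.mu HP).measurable_coe hSm) (measurableSet_singleton 0)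
  have hpush : ∀ᵐ G ∂P, Γ.mu HP (push (aff j) HP G) (aff j '' cell) = 0 := by
    filter_upwards [h0, Γ.mu_cov HP (aff j) hA, Γ.mu_supp] with G h1 h2 h3
    rw [h2, covMeas_image hA (measure_mono_null ?_ h3) measurableSet_cell cell_subset_HP]
    · rw [Measure.restrict_eq_zero.2 h1, lintegral_zero_measure]
    · intro z hz hz'
      exact hz hz'.1
  have := (ae_map_iff haem hms).2 hpush
  rwa [hinv] at this

theorem cell_mass_pos {P : Measure Conf} (hP : IsCLE P) {d d' : ℝ} (Γ : Geometry P d d') :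
    0 < ∫⁻ G, Γ.mu HP G cell ∂P := by
  rw [pos_iff_ne_zero]
  intro h
  rw [lintegral_eq_zero_iff ((Γ.mu HP).measurable_coe measurableSet_cell)] at h
  have h0 : ∀ᵐ G ∂P, Γ.mu HP G cell = 0 := h
  have hall : ∀ᵐ G ∂P, ∀ j : ℤ × ℤ, Γ.mu HP G (aff j '' cell) = 0 :=
    ae_all_iff.2 fun j => pos_image_null hP Γ h0 j
  have := hP.prob
  have hfalse : ∀ᵐ G ∂P, False := by
    filter_upwards [hall, Γ.mu_supp, Γ.mu_pos] with G h1 h2 h3
    have h4 : 0 < Γ.mu HP G HP := by
      rw [pos_iff_ne_zero]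
      intro h0
      apply h3
      rw [← union_compl_self HP]
      exact measure_union_null h0 (measure_mono_null (compl_subset_compl.2 sdiff_subset) h2)
    have h5 : Γ.mu HP G HP ≤ Γ.mu HP G (⋃ j, aff j '' cell) := by
      refine measure_mono fun x hx => ?_
      obtain ⟨j, w, hw, hwx⟩ := cell_cover hx
      exact mem_iUnion.2 ⟨j, w, hw, hwx⟩
    rw [measure_iUnion_null h1] at h5
    exact absurd h4 (not_lt.2 h5)
  rw [ae_iff] at hfalse
  simp at hfalse

theorem cell_mass_lt_top {P : Measure Conf} (hP : IsCLE P) {d d' : ℝ} (Γ : Geometry P d d') :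
    ∫⁻ G, Γ.mu HP G cell ∂P < ∞ := by
  have hK : IsCompact (Icc (0 : ℝ) (1 / 512) ×ℂ Icc (1 : ℝ) (513 / 512)) :=
    isCompact_Icc.reProdIm isCompact_Icc
  refine lt_of_le_of_lt ?_ (Γ.mu_int _ hK ?_)
  · refine lintegral_mono fun G => measure_mono ?_
    intro z hz
    exact ⟨⟨hz.1, hz.2.1.le⟩, ⟨hz.2.2.1, hz.2.2.2.le⟩⟩
  · intro z hz
    exact lt_of_lt_of_le one_pos hz.2.1

end Pool.H25.CLE
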