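import Pool.Agent.H25.CLE.Gsum
import Pool.Agent.H25.CLE.Dom
import Pool.Agent.H25.CLE.Hole

/-! MODULE SUMB (MP_5d7c93_pr, project CLE of helper25; overview /team-store/H25_CLE.md)
bad_le_gsum: for a.e. G (chartOK for all charts (k,p,i,j) with U = HP, f = id; loops, mu_hull; one_upper for all charts): for mu-a.e. x ∈ KK R not GoodAt n k: x is in some disc number p
(disc_cover), contained in KKp R ⊆ HP (disc_subset, KKp_subset), outside the hull, so chart_cover gives i; x ∈ V = riem '' HP: x = riem z, z ∈ HP, z = aff j w, w ∈ cell (cell_cover); as x is not GoodAt, (cG, w) ∈ badSet Γ n.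
So x is in the (countable) union over (p,i,j) of the sets of one_upper (e = firstEv i, B = badSet Γ n, measurableSet_badSet); measure_iUnion_le, then one_upper. -/

set_option autoImplicit false

namespace Pool.H25.CLE

open MeasureTheory ProbabilityTheory Set Metric Complex
open scoped ENNReal

theorem SumB_isConf_id : IsConf (id : ℂ → ℂ) HP HP where
  isOpen := isOpen_HP
  diff := differentiableOn_id
  deriv_ne := fun z _ => by rw [deriv_id]; exact one_ne_zero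
  inj := injOn_id _
  image := image_id _

theorem bad_le_gsum {P : Measure Conf} (hP : IsCLE P) {d d' : ℝ} (Γ : Geometry P d d') (R : ℕ) :
    ∃ k₀ : ℕ, ∀ k ≥ k₀, ∀ n : ℕ, ∀ᵐ G ∂P,
      Γ.mu HP G {x | x ∈ KK R ∧ ¬ GoodAt Γ n k G x} ≤ gsum Γ R k (badSet Γ n) G := by
  classical
  obtain ⟨k₀, hk₀⟩ := disc_subset R
  refine ⟨k₀, fun k hk n => ?_⟩
  have h1 : ∀ᵐ G ∂P, ∀ (p : ℤ × ℤ) (i : ℕ) (j : ℤ × ℤ), ball (ctr k p) (rad k) ⊆ HP →
      zseq i ∈ ball (ctr k p) (rad k) → G ∈ good (ball (ctr k p) (rad k)) (zseq i) →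
      ChartOK Γ HP id (ctr k p) (rad k) (zseq i) j G := by
    rw [ae_all_iff]; intro p
    rw [ae_all_iff]; intro i
    rw [ae_all_iff]; intro j
    by_cases hQ : ball (ctr k p) (rad k) ⊆ HP
    · by_cases hz : zseq i ∈ ball (ctr k p) (rad k)
      · filter_upwards [chartOK hP Γ SumB_isConf_id (rad_pos k) hQ hz j] with G hG _ _ using hG
      · exact Filter.Eventually.of_forall fun G _ h => absurd h hz
    · exact Filter.Eventually.of_forall fun G h => absurd h hQ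
  have h2 : ∀ᵐ G ∂P, ∀ (p : ℤ × ℤ) (i : ℕ) (j : ℤ × ℤ), ball (ctr k p) (rad k) ⊆ HP →
      zseq i ∈ ball (ctr k p) (rad k) → G ∈ good (ball (ctr k p) (rad k)) (zseq i) →
      dom (ball (ctr k p) (rad k)) (zseq i) G ∈ firstEv i →
      Γ.mu HP G {x | ∃ w ∈ cell, cF (ctr k p) (rad k) (zseq i) j G w = x ∧
        (cG (ctr k p) (rad k) (zseq i) j G, w) ∈ badSet Γ n} ≤
        ghat Γ (ctr k p) (rad k) (zseq i) j (firstEv i) (badSet Γ n) G := by
    rw [ae_all_iff]; intro p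
    rw [ae_all_iff]; intro i
    rw [ae_all_iff]; intro j
    by_cases hQ : ball (ctr k p) (rad k) ⊆ HP
    · by_cases hz : zseq i ∈ ball (ctr k p) (rad k)
      · filter_upwards [one_upper hP Γ (rad_pos k) hQ hz j (e := firstEv i)
          (measurableSet_badSet Γ n)] with G hG _ _ using hG
      · exact Filter.Eventually.of_forall fun G _ h => absurd h hz
    · exact Filter.Eventually.of_forall fun G h => absurd h hQ
  have h0 : ∀ᵐ G ∂P, ∀ p : ℤ × ℤ, ball (ctr k p) (rad k) ⊆ HP →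
      Γ.mu HP G (ball (ctr k p) (rad k) ∩ hull (ball (ctr k p) (rad k)) G) = 0 := by
    rw [ae_all_iff]; intro p
    by_cases hQ : ball (ctr k p) (rad k) ⊆ HP
    · filter_upwards [Γ.mu_hull _ _ (rad_pos k) hQ] with G hG _ using hG
    · exact Filter.Eventually.of_forall fun G h => absurd h hQ
  filter_upwards [h1, h2, hP.loops, h0] with G hG1 hG2 hGl hG0
  have hG0' : ∀ᵐ x ∂(Γ.mu HP G), ∀ p : ℤ × ℤ, ball (ctr k p) (rad k) ⊆ HP →
      x ∈ ball (ctr k p) (rad k) → x ∉ hull (ball (ctr k p) (rad k)) G := by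
    rw [ae_all_iff]; intro p
    by_cases hQ : ball (ctr k p) (rad k) ⊆ HP
    · have h3 := measure_eq_zero_iff_ae_notMem.1 (hG0 p hQ)
      filter_upwards [h3] with x hx _ hxb hxh using hx ⟨hxb, hxh⟩
    · exact Filter.Eventually.of_forall fun x h => absurd h hQ
  set S : ℤ × ℤ → ℕ → ℤ × ℤ → Set ℂ := fun p i j =>
    if ((ball (ctr k p) (rad k) ∩ KK R).Nonempty ∧ zseq i ∈ ball (ctr k p) (rad k)) ∧
      G ∈ good (ball (ctr k p) (rad k)) (zseq i) ∧ dom (ball (ctr k p) (rad k)) (zseq i) G ∈ firstEv i then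
      {x | ∃ w ∈ cell, cF (ctr k p) (rad k) (zseq i) j G w = x ∧
        (cG (ctr k p) (rad k) (zseq i) j G, w) ∈ badSet Γ n} else ∅ with hS
  have hcov : ({x | x ∈ KK R ∧ ¬ GoodAt Γ n k G x} : Set ℂ) ≤ᵐ[Γ.mu HP G] ⋃ p, ⋃ i, ⋃ j, S p i j := by
    filter_upwards [hG0'] with x hx hxK
    obtain ⟨hxK, hxn⟩ := hxK
    obtain ⟨p, hp⟩ := disc_cover k x
    have hne : (ball (ctr k p) (rad k) ∩ KK R).Nonempty := ⟨x, hp, hxK⟩
    have hQ : ball (ctr k p) (rad k) ⊆ HP := (hk₀ k hk p hne).trans (KKp_subset R)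
    obtain ⟨i, hi, hgood, hxd, hfirst⟩ := chart_cover hGl hQ hp (hx p hQ hp)
    have hC := hG1 p i (0, 0) hQ hi hgood
    have hxim : x ∈ cF (ctr k p) (rad k) (zseq i) (0, 0) G '' HP := by
      rw [hC.conf.image]; exact hxd
    obtain ⟨z', hz', hz'x⟩ := hxim
    obtain ⟨j, w, hw, hwz⟩ := cell_cover ((aff_isConf (0, 0)).mapsTo hz')
    have hcFx : cF (ctr k p) (rad k) (zseq i) j G w = x := by
      rw [← hz'x]
      unfold cF
      rw [hwz]
    refine mem_iUnion.2 ⟨p, mem_iUnion.2 ⟨i, mem_iUnion.2 ⟨j, ?_⟩⟩⟩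
    rw [hS]
    simp only
    rw [if_pos ⟨⟨hne, hi⟩, hgood, hfirst⟩]
    refine ⟨w, hw, hcFx, hw, fun hE => hxn ?_⟩
    exact ⟨p, i, j, hQ, hi, hgood, w, hw, hcFx, hE⟩
  calc Γ.mu HP G {x | x ∈ KK R ∧ ¬ GoodAt Γ n k G x}
      ≤ Γ.mu HP G (⋃ p, ⋃ i, ⋃ j, S p i j) := measure_mono_ae hcov
    _ ≤ ∑' p, Γ.mu HP G (⋃ i, ⋃ j, S p i j) := measure_iUnion_le _
    _ ≤ ∑' p, ∑' i, Γ.mu HP G (⋃ j, S p i j) := ENNReal.tsum_le_tsum fun p => measure_iUnion_le _
    _ ≤ ∑' p, ∑' i, ∑' j, Γ.mu HP G (S p i j) :=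
      ENNReal.tsum_le_tsum fun p => ENNReal.tsum_le_tsum fun i => measure_iUnion_le _
    _ ≤ gsum Γ R k (badSet Γ n) G := by
      unfold gsum
      refine ENNReal.tsum_le_tsum fun p => ENNReal.tsum_le_tsum fun i => ENNReal.tsum_le_tsum fun j => ?_
      rw [hS]
      simp only
      by_cases hc : (ball (ctr k p) (rad k) ∩ KK R).Nonempty ∧ zseq i ∈ ball (ctr k p) (rad k)
      · by_cases hc2 : G ∈ good (ball (ctr k p) (rad k)) (zseq i) ∧
          dom (ball (ctr k p) (rad k)) (zseq i) G ∈ firstEv i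
        · rw [if_pos ⟨hc, hc2⟩, if_pos hc]
          exact hG2 p i j ((hk₀ k hk p hc.1).trans (KKp_subset R)) hc.2 hc2.1 hc2.2
        · rw [if_neg fun h => hc2 h.2]
          simp
      · rw [if_neg fun h => hc h.1]
        simp

end Pool.H25.CLE
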