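import Pool.Agent.H25.CLE.Sum
import Pool.Agent.H25.CLE.SumB
import Pool.Agent.H25.CLE.Pos

/-! MODULE LIM (MP_5d7c93_pr, project CLE of helper25; overview /team-store/H25_CLE.md)
Almost every point is good at infinitely many levels. Fix R. Let q n = ∫ mu {w | (G,w) ∈ badSet n} → 0 (tendsto_bad), C = 96^(2|d'|)·4·∫ mu(KKp R) < ∞ (mu_int), a₀ = ∫ mu cell ∈ (0,∞) (Pos). For k ≥ k₀: ∫ gsum (badSet n) ≤ C q n / a₀ (sum_int).
Let β n G = liminf_k gsum Γ R k (badSet Γ n) G. Fatou (lintegral_liminf_le', only k ≥ k₀ matter: shift the index) : ∫ β n ≤ C q n / a₀. For a.e. G (bad_le_gsum for all n, k ≥ k₀): for each K ≥ k₀ the set A(n,K) = {x ∈ KK R | ∀ k ≥ K, ¬GoodAt n k G x}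
has mu ≤ gsum k for all k ≥ K, so ≤ liminf; the union over K (increasing) has mu ≤ β n G (Monotone.measure_iUnion / measure_iUnion_eq_iSup holds for arbitrary sets). The set of x ∈ KK R which for all n are not n-good infinitely often is contained
in ⋃_K A(n,K) for every n, so its mu is ≤ inf_n β n G, and ∫ inf_n β n ≤ inf_n C q n/a₀ = 0, so inf_n β n = 0 a.e. (AEMeasurable). Finally union over R (iUnion_KK, mu HP G is carried by HP). -/

set_option autoImplicit false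

namespace Pool.H25.CLE

open MeasureTheory ProbabilityTheory Set Metric Complex
open scoped ENNReal

/-- the majorant after passing to the limit -/
private noncomputable def limBeta {P : Measure Conf} {d d' : ℝ} (Γ : Geometry P d d') (R k₀ n : ℕ) (G : Conf) :
    ℝ≥0∞ :=
  Filter.liminf (fun k : ℕ => gsum Γ R (k + k₀) (badSet Γ n) G) Filter.atTop

private theorem lim_aemeasurable {P : Measure Conf} {d d' : ℝ} (Γ : Geometry P d d') (R k₀ n : ℕ)
    (h : ∀ k ≥ k₀, ∀ B : Set (Conf × ℂ), MeasurableSet B → AEMeasurable (gsum Γ R k B) P) :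
    AEMeasurable (limBeta Γ R k₀ n) P := by
  have h1 : limBeta Γ R k₀ n =
      fun G => ⨆ N : ℕ, ⨅ i : ℕ, gsum Γ R (i + N + k₀) (badSet Γ n) G := by
    funext G
    unfold limBeta
    rw [Filter.liminf_eq_iSup_iInf_of_nat']
  rw [h1]
  refine AEMeasurable.iSup fun N => AEMeasurable.iInf fun i => ?_
  exact h _ (by omega) _ (measurableSet_badSet Γ n)

private theorem lim_R {P : Measure Conf} (hP : IsCLE P) {d d' : ℝ} (Γ : Geometry P d d') (R : ℕ) :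
    ∀ᵐ G ∂P, Γ.mu HP G {x | x ∈ KK R ∧ ∀ n : ℕ, ¬ ∃ᶠ k in Filter.atTop, GoodAt Γ n k G x} = 0 := by
  obtain ⟨k₁, h₁⟩ := aemeasurable_gsum hP Γ R
  obtain ⟨k₂, h₂⟩ := sum_int hP Γ R
  obtain ⟨k₃, h₃⟩ := bad_le_gsum hP Γ R
  set k₀ := max k₁ (max k₂ k₃) with hk₀
  have hk₁ : k₁ ≤ k₀ := le_max_left _ _
  have hk₂ : k₂ ≤ k₀ := (le_max_left _ _).trans (le_max_right _ _)
  have hk₃ : k₃ ≤ k₀ := (le_max_right _ _).trans (le_max_right _ _)
  have ha0 := cell_mass_pos hP Γ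
  have ha1 := cell_mass_lt_top hP Γ
  set a₀ : ℝ≥0∞ := ∫⁻ G, Γ.mu HP G cell ∂P with ha₀
  have hM : ∫⁻ G, Γ.mu HP G (KKp R) ∂P < ∞ := Γ.mu_int _ (isCompact_KKp R) (KKp_subset R)
  set M : ℝ≥0∞ := ∫⁻ G, Γ.mu HP G (KKp R) ∂P with hMdef
  set C : ℝ≥0∞ := ENNReal.ofReal ((96 : ℝ) ^ (2 * |d'|)) with hC
  set q : ℕ → ℝ≥0∞ := fun n => ∫⁻ G, Γ.mu HP G {w | (G, w) ∈ badSet Γ n} ∂P with hq
  have hq0 : Filter.Tendsto q Filter.atTop (nhds 0) := tendsto_bad hP Γ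
  -- the integral of `β n`
  have hβ : ∀ n, ∫⁻ G, limBeta Γ R k₀ n G ∂P ≤ C * q n * (4 * M) / a₀ := by
    intro n
    have h4 : ∀ k : ℕ, ∫⁻ G, gsum Γ R (k + k₀) (badSet Γ n) G ∂P ≤ C * q n * (4 * M) / a₀ := by
      intro k
      rw [ENNReal.le_div_iff_mul_le (Or.inl ha0.ne') (Or.inl ha1.ne)]
      exact h₂ _ (by omega) _ (measurableSet_badSet Γ n)
    unfold limBeta
    refine (lintegral_liminf_le' fun k => h₁ _ (by omega) _ (measurableSet_badSet Γ n)).trans ?_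
    have h5 : Filter.liminf (fun k : ℕ => ∫⁻ G, gsum Γ R (k + k₀) (badSet Γ n) G ∂P) Filter.atTop ≤
        Filter.liminf (fun _ : ℕ => C * q n * (4 * M) / a₀) Filter.atTop :=
      Filter.liminf_le_liminf (Filter.Eventually.of_forall h4)
    refine h5.trans ?_
    rw [Filter.liminf_const]
  have hlim : Filter.Tendsto (fun n => C * q n * (4 * M) / a₀) Filter.atTop (nhds 0) := by
    have h4 : ∀ n, C * q n * (4 * M) / a₀ = (C * (4 * M) / a₀) * q n := by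
      intro n
      rw [div_eq_mul_inv, div_eq_mul_inv]
      ring
    simp_rw [h4]
    have h5 : C * (4 * M) / a₀ ≠ ∞ := by
      refine ENNReal.div_ne_top ?_ ha0.ne'
      exact ENNReal.mul_ne_top ENNReal.ofReal_ne_top (ENNReal.mul_ne_top (by simp) hM.ne)
    have h6 := ENNReal.Tendsto.const_mul (a := C * (4 * M) / a₀) hq0 (Or.inr h5)
    rwa [mul_zero] at h6
  have hinf : ∫⁻ G, ⨅ n, limBeta Γ R k₀ n G ∂P = 0 := by
    have h4 : ∀ n, ∫⁻ G, ⨅ n, limBeta Γ R k₀ n G ∂P ≤ C * q n * (4 * M) / a₀ := fun n =>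
      (lintegral_mono fun G => iInf_le _ n).trans (hβ n)
    exact le_antisymm (ge_of_tendsto' hlim h4) bot_le
  have hae : ∀ᵐ G ∂P, ⨅ n, limBeta Γ R k₀ n G = 0 := by
    have h4 : AEMeasurable (fun G => ⨅ n, limBeta Γ R k₀ n G) P :=
      AEMeasurable.iInf fun n => lim_aemeasurable Γ R k₀ n fun k hk B hB => h₁ k (hk₁.trans hk) B hB
    exact (lintegral_eq_zero_iff' h4).mp hinf
  have hall : ∀ᵐ G ∂P, ∀ k n : ℕ,
      Γ.mu HP G {x | x ∈ KK R ∧ ¬ GoodAt Γ n (k + k₀) G x} ≤ gsum Γ R (k + k₀) (badSet Γ n) G := by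
    rw [ae_all_iff]; intro k
    rw [ae_all_iff]; intro n
    exact h₃ _ (by omega) n
  filter_upwards [hae, hall] with G hG1 hG2
  refine le_antisymm ?_ bot_le
  rw [← hG1]
  refine le_iInf fun n => ?_
  set A : ℕ → Set ℂ := fun K => {x | x ∈ KK R ∧ ∀ k ≥ K, ¬ GoodAt Γ n k G x} with hA
  have hAm : Monotone A := by
    intro K K' hKK' x hx
    exact ⟨hx.1, fun k hk => hx.2 k (hKK'.trans hk)⟩
  have hsub : {x | x ∈ KK R ∧ ∀ n : ℕ, ¬ ∃ᶠ k in Filter.atTop, GoodAt Γ n k G x} ⊆ ⋃ K, A K := by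
    rintro x ⟨hx1, hx2⟩
    have h4 := hx2 n
    rw [Filter.not_frequently, Filter.eventually_atTop] at h4
    obtain ⟨K, hK⟩ := h4
    exact mem_iUnion.mpr ⟨K, hx1, hK⟩
  refine (measure_mono hsub).trans ?_
  rw [hAm.measure_iUnion]
  refine iSup_le fun K => ?_
  unfold limBeta
  refine Filter.le_liminf_of_le (by isBoundedDefault) ?_
  rw [Filter.eventually_atTop]
  refine ⟨K, fun k hk => ?_⟩
  refine (measure_mono ?_).trans (hG2 k n)
  rintro x ⟨hx1, hx2⟩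
  exact ⟨hx1, hx2 _ (by omega)⟩

theorem good_io {P : Measure Conf} (hP : IsCLE P) {d d' : ℝ} (Γ : Geometry P d d') :
    ∀ᵐ G ∂P, ∀ᵐ x ∂(Γ.mu HP G), ∃ n : ℕ, ∃ᶠ k in Filter.atTop, GoodAt Γ n k G x := by
  have h1 : ∀ᵐ G ∂P, ∀ R : ℕ,
      Γ.mu HP G {x | x ∈ KK R ∧ ∀ n : ℕ, ¬ ∃ᶠ k in Filter.atTop, GoodAt Γ n k G x} = 0 :=
    ae_all_iff.mpr fun R => lim_R hP Γ R
  filter_upwards [h1, Γ.mu_supp] with G hG1 hG2
  rw [ae_iff]
  refine measure_mono_null ?_ (measure_union_null (measure_iUnion_null hG1) hG2)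
  intro x hx
  have hx' : ¬ ∃ n : ℕ, ∃ᶠ k in Filter.atTop, GoodAt Γ n k G x := hx
  by_cases hxH : x ∈ HP
  · left
    rw [← iUnion_KK] at hxH
    obtain ⟨R, hR⟩ := mem_iUnion.mp hxH
    exact mem_iUnion.mpr ⟨R, hR, fun n hn => hx' ⟨n, hn⟩⟩
  · right
    intro hc
    exact hxH hc.1

end Pool.H25.CLE
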