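import Mathlib

/-! MODULE LOG (MP_5d7c93_pr, project CLE of helper25; overview /team-store/H25_CLE.md)
A nowhere zero holomorphic function on a disc has a holomorphic logarithm.
Proof: `deriv f / f` is holomorphic on the ball, so it has a primitive `p` (`DifferentiableOn.isExactOn_ball`, `Complex.IsExactOn`);
`f * exp (-p)` has derivative 0 on the (convex) ball, so it is a constant `≠ 0`, equal to `exp b`; take `h = p + b`. -/

set_option autoImplicit false

namespace Pool.H25.CLE

open Set Metric Complex

theorem exists_log {c : ℂ} {r : ℝ} {f : ℂ → ℂ} (hf : DifferentiableOn ℂ f (ball c r))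
    (h0 : ∀ z ∈ ball c r, f z ≠ 0) :
    ∃ h : ℂ → ℂ, DifferentiableOn ℂ h (ball c r) ∧ ∀ z ∈ ball c r, f z = exp (h z) := by
  rcases le_or_gt r 0 with hr | hr
  · rw [ball_eq_empty.2 hr]
    exact ⟨0, by simp, by simp⟩
  have hfd : ∀ z ∈ ball c r, HasDerivAt f (deriv f z) z := fun z hz =>
    (hf.differentiableAt (isOpen_ball.mem_nhds hz)).hasDerivAt
  have hq : DifferentiableOn ℂ (fun z => deriv f z / f z) (ball c r) :=
    (hf.deriv isOpen_ball).div hf h0
  obtain ⟨p, hp⟩ := hq.isExactOn_ball
  have hcb : c ∈ ball c r := mem_ball_self hr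
  have hderiv : ∀ z ∈ ball c r, HasDerivAt (fun z => f z * exp (-p z)) 0 z := by
    intro z hz
    have h1 := (hfd z hz).mul (hp z hz).neg.cexp
    refine h1.congr_deriv ?_
    have := h0 z hz
    field_simp
    ring
  have hconst : ∀ z ∈ ball c r, f z * exp (-p z) = f c * exp (-p c) := by
    intro z hz
    refine (convex_ball c r).is_const_of_fderivWithin_eq_zero (𝕜 := ℂ)
      (f := fun z => f z * exp (-p z)) ?_ ?_ hz hcb
    · exact fun z hz => (hderiv z hz).differentiableAt.differentiableWithinAt
    · intro z hz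
      rw [fderivWithin_of_isOpen isOpen_ball hz]
      ext
      simp [(hderiv z hz).deriv]
  have hne : f c * exp (-p c) ≠ 0 := mul_ne_zero (h0 c hcb) (exp_ne_zero _)
  refine ⟨fun z => p z + log (f c * exp (-p c)), ?_, ?_⟩
  · exact fun z hz => ((hp z hz).differentiableAt.add_const _).differentiableWithinAt
  · intro z hz
    rw [exp_add, exp_log hne, ← hconst z hz, exp_neg]
    field_simp

end Pool.H25.CLE
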