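import Pool.Agent.H25.CLE.Fin

/-! MODULE MAIN (MP_5d7c93_pr, project CLE of helper25; overview /team-store/H25_CLE.md)
Transfer to U and to random variables. spheres_null_U: mu U (push f HP G) = covMeas d' f (mu HP G) (mu_cov): the set {x ∈ U-carpet | dist x y' = a}, y' = f y, has preimage {x ∈ HP | ...} null for mu HP G, hence for the withDensity measure; the complement of the
carpet is null as well (mem_carpet_push). push_meas: {K ⊆ push f HP G} = {G : K ⊆ U and f⁻¹ K ⊆ G} (push_coe; the inverse image g '' K of a compact K ⊆ U under the inverse g is compact). no_atoms: the law of (G,x,y) is (P.map push) ⊗ₘ (sample ×ₖ sample), the set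
{(G,x,y) | dist U G x y = a} is measurable (dist_meas), its measure is ∫ sample⊗sample {(x,y) | dist = a} d(P.map push) = ∫ ∫ sample {x | dist x y = a} sample(dy) = 0, sample being a multiple of mu. -/

set_option autoImplicit false

namespace Pool.H25.CLE

open MeasureTheory ProbabilityTheory Set Metric Complex
open scoped ENNReal

theorem measurable_push {U : Set ℂ} {f : ℂ → ℂ} (hf : IsConf f HP U) : Measurable (push f HP) := by
  obtain ⟨g, hg, hgf, hfg⟩ := hf.exists_inv
  refine measurable_generateFrom ?_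
  rintro _ ⟨K, hK, rfl⟩
  by_cases hKU : K ⊆ U
  · have h1 : push f HP ⁻¹' {G : Conf | K ⊆ (G : Set ℂ)} = {G : Conf | g '' K ⊆ (G : Set ℂ)} := by
      ext G
      rw [mem_preimage, mem_ofPred_eq, mem_ofPred_eq, push_coe hf]
      constructor
      · rintro h _ ⟨z, hz, rfl⟩
        obtain ⟨w, ⟨hw1, hw2⟩, hw3⟩ := h hz
        rw [← hw3, hgf w hw1]
        exact hw2
      · intro h z hz
        exact ⟨g z, ⟨hg.mapsTo (hKU hz), h (mem_image_of_mem g hz)⟩, hfg z (hKU hz)⟩
    rw [h1]
    exact MeasurableSpace.measurableSet_generateFrom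
      ⟨g '' K, hK.image_of_continuousOn (hg.diff.continuousOn.mono hKU), rfl⟩
  · have h1 : push f HP ⁻¹' {G : Conf | K ⊆ (G : Set ℂ)} = ∅ := by
      rw [eq_empty_iff_forall_notMem]
      intro G hG
      rw [mem_preimage, mem_ofPred_eq, push_coe hf] at hG
      refine hKU (hG.trans ?_)
      rintro _ ⟨z, ⟨hz, -⟩, rfl⟩
      exact hf.mapsTo hz
    rw [h1]
    exact MeasurableSet.empty

/-- null sets of `covMeas` -/
theorem covMeas_null {d' : ℝ} {f : ℂ → ℂ} {m : Measure ℂ} {S : Set ℂ} (hS : MeasurableSet S)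
    (h : m (f ⁻¹' S) = 0) : covMeas d' f m S = 0 := by
  unfold covMeas
  by_cases hf : AEMeasurable f (m.withDensity fun z => ENNReal.ofReal (‖deriv f z‖ ^ d'))
  · rw [Measure.map_apply_of_aemeasurable hf hS]
    exact withDensity_absolutelyContinuous m _ h
  · rw [Measure.map_of_not_aemeasurable hf]
    rfl

theorem spheres_null_U {P : Measure Conf} (hP : IsCLE P) {d d' : ℝ} (Γ : Geometry P d d') {U : Set ℂ}
    {f : ℂ → ℂ} (hf : IsConf f HP U) :
    ∀ᵐ G ∂P, Γ.mu U (push f HP G) (carpet U (push f HP G))ᶜ = 0 ∧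
      ∀ y ∈ carpet U (push f HP G), ∀ a : ℝ, Γ.mu U (push f HP G) {x | Γ.dist U (push f HP G) x y = a} = 0 := by
  filter_upwards [Γ.mu_cov U f hf, Γ.mu_supp, spheres_null hP Γ hf] with G h1 h2 h3
  rw [h1]
  refine ⟨?_, ?_⟩
  · refine covMeas_null ?_ (measure_mono_null ?_ h2)
    · exact (hf.isOpen_target.measurableSet.diff (push f HP G).isOpen.measurableSet).compl
    · intro x hx hx2
      exact hx ((mem_carpet_push hf G hx2.1).2 hx2)
  · intro y' hy' a
    have hy1 : y' ∈ U := hy'.1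
    rw [← hf.image] at hy1
    obtain ⟨y, hy, rfl⟩ := hy1
    have hy2 : y ∈ carpet HP G := (mem_carpet_push hf G hy).1 hy'
    refine covMeas_null ?_ (measure_mono_null ?_ (measure_union_null h2 (h3 y hy2 a)))
    · have h4 : Measurable fun x : ℂ => Γ.dist U (push f HP G) x (f y) :=
        (Γ.dist_meas U).comp (measurable_const.prodMk (measurable_id.prodMk measurable_const))
      exact h4 (measurableSet_singleton a)
    · intro x hx
      by_cases hx2 : x ∈ carpet HP G
      · exact Or.inr ⟨hx2, hx⟩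
      · exact Or.inl hx2

theorem no_atoms {P : Measure Conf} (hP : IsCLE P) {d d' : ℝ} (Γ : Geometry P d d') {U : Set ℂ} {f : ℂ → ℂ}
    (hf : IsConf f HP U) {Ω : Type} [MeasurableSpace Ω] (Q : Measure Ω) [IsProbabilityMeasure Q]
    (G : Ω → Conf) (x y : Ω → ℂ) (hm : AEMeasurable (fun ω => (G ω, x ω, y ω)) Q)
    (hlaw : Q.map (fun ω => (G ω, x ω, y ω)) = (P.map (push f HP)) ⊗ₘ (Γ.sample U ×ₖ Γ.sample U)) (a : ℝ) :
    Q {ω | Γ.dist U (G ω) (x ω) (y ω) = a} = 0 := by
  have := hP.prob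
  have : IsProbabilityMeasure (P.map (push f HP)) :=
    Measure.isProbabilityMeasure_map (measurable_push hf).aemeasurable
  have hS : MeasurableSet {p : Conf × ℂ × ℂ | Γ.dist U p.1 p.2.1 p.2.2 = a} :=
    (Γ.dist_meas U) (measurableSet_singleton a)
  have h1 : Q {ω | Γ.dist U (G ω) (x ω) (y ω) = a} =
      (Q.map (fun ω => (G ω, x ω, y ω))) {p : Conf × ℂ × ℂ | Γ.dist U p.1 p.2.1 p.2.2 = a} := by
    rw [Measure.map_apply_of_aemeasurable hm hS]
    rfl
  rw [h1, hlaw, Measure.compProd_apply hS]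
  have hmeas : Measurable fun G' : Conf =>
      (Γ.sample U ×ₖ Γ.sample U) G' (Prod.mk G' ⁻¹' {p : Conf × ℂ × ℂ | Γ.dist U p.1 p.2.1 p.2.2 = a}) :=
    Kernel.measurable_kernel_prodMk_left hS
  rw [lintegral_map hmeas (measurable_push hf)]
  refine (lintegral_eq_zero_iff (hmeas.comp (measurable_push hf))).2 ?_
  filter_upwards [spheres_null_U hP Γ hf] with G' hG'
  obtain ⟨h2, h3⟩ := hG'
  change (Γ.sample U ×ₖ Γ.sample U) (push f HP G')
    (Prod.mk (push f HP G') ⁻¹' {p : Conf × ℂ × ℂ | Γ.dist U p.1 p.2.1 p.2.2 = a}) = 0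
  have hS' : MeasurableSet (Prod.mk (push f HP G') ⁻¹'
      {p : Conf × ℂ × ℂ | Γ.dist U p.1 p.2.1 p.2.2 = a}) := measurable_prodMk_left hS
  rw [Kernel.prod_apply, Measure.prod_apply_symm hS']
  have h4 : ∀ A : Set ℂ, Γ.mu U (push f HP G') A = 0 → Γ.sample U (push f HP G') A = 0 := by
    intro A hA
    change ((Γ.mu U (push f HP G') univ)⁻¹ • Γ.mu U (push f HP G')) A = 0
    rw [Measure.smul_apply, hA, smul_zero]
  refine (lintegral_eq_zero_iff (measurable_measure_prodMk_right hS')).2 ?_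
  have h5 : ∀ᵐ y' ∂(Γ.sample U (push f HP G')), y' ∈ carpet U (push f HP G') := h4 _ h2
  filter_upwards [h5] with y' hy'
  exact h4 _ (h3 y' hy' a)

end Pool.H25.CLE
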