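import Pool.Agent.H25.CLE.Distort
import Pool.Agent.H25.CLE.Bad

/-! MODULE ONE (MP_5d7c93_pr, project CLE of helper25; overview /team-store/H25_CLE.md)
One-scale estimate in one chart. Write F = cF, G'' = cG, V = dom. For a.e. G ∈ good (chartOK): mu HP G restricted to V is covMeas d' F (mu HP G''), and for w ∈ cell: ‖F'(w)‖^d' and ‖F'(I)‖^d' are comparable up to the factor 96^|d'|
(distortion for F on ball I 1 ⊆ HP; cell ⊆ ball I (1/256)).
one_upper: {x | ∃ w ∈ cell, F w = x ∧ (G'',w) ∈ B} = F '' S with S = {w ∈ cell | (G'',w) ∈ B} measurable, covMeas_image. one_lower: the same for F '' cell.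
one_int: (dom G, cG G) has law ν.prod P on good (law_cG), F' at I only depends on V = dom G: ‖deriv F I‖ = ‖deriv (riem z₀ V) (aff j I)‖ (513/512)^j.1 (AEMeasurable by hP.riem_meas): product formula for lintegral of a product
(`lintegral_prod_mul` after `lintegral_map'`); measurability of G'' ↦ mu HP G'' {w | (G'',w) ∈ B}: Kernel.measurable_kernel_prodMk_left. So ∫ ghat = 96^|d'| J A(B) with J = ∫_good e(V) ‖F'(I)‖^d' , and by one_lower J a₀ ≤ 96^|d'| ∫_good e(V) mu(F '' cell).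
V ↦ ‖deriv (riem z₀ V) z‖ is AEMeasurable for the law ν of V (hP.riem_meas); deriv (cF c r z₀ j G) I = deriv (riem z₀ V) (aff j I) * (513/512)^j.1 (chain rule). -/

set_option autoImplicit false

namespace Pool.H25.CLE

open MeasureTheory ProbabilityTheory Set Metric Complex
open scoped ENNReal

open Classical in
/-- the majorant of the bad mass in one chart -/
noncomputable def ghat {P : Measure Conf} {d d' : ℝ} (Γ : Geometry P d d') (c : ℂ) (r : ℝ) (z₀ : ℂ) (j : ℤ × ℤ)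
    (e : Set Conf) (B : Set (Conf × ℂ)) (G : Conf) : ℝ≥0∞ :=
  if G ∈ good (ball c r) z₀ ∧ dom (ball c r) z₀ G ∈ e then
    ENNReal.ofReal ((96 : ℝ) ^ |d'| * ‖deriv (cF c r z₀ j G) I‖ ^ d') *
      Γ.mu HP (cG c r z₀ j G) {w | (cG c r z₀ j G, w) ∈ B} else 0

theorem one_isConf_id : IsConf (id : ℂ → ℂ) HP HP where
  isOpen := isOpen_HP
  diff := differentiableOn_id
  deriv_ne := fun z _ => by simp
  inj := injOn_id _
  image := by simp

/-- comparison of powers -/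
theorem one_rpow {a b t : ℝ} (ha : 0 < a) (hb : 0 < b) (hab : a ≤ 96 * b) (hba : b ≤ 96 * a) :
    a ^ t ≤ (96 : ℝ) ^ |t| * b ^ t := by
  rcases le_total 0 t with ht | ht
  · rw [abs_of_nonneg ht, ← Real.mul_rpow (by norm_num) hb.le]
    exact Real.rpow_le_rpow ha.le hab ht
  · rw [abs_of_nonpos ht]
    have h1 : b ^ (-t) ≤ (96 * a) ^ (-t) := Real.rpow_le_rpow hb.le hba (by linarith)
    rw [Real.mul_rpow (by norm_num) ha.le] at h1
    have h2 : a ^ (-t) * a ^ t = 1 := by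
      rw [← Real.rpow_add ha]; simp
    have h3 : b ^ (-t) * b ^ t = 1 := by
      rw [← Real.rpow_add hb]; simp
    have hat : 0 < a ^ t := Real.rpow_pos_of_pos ha t
    have hbt : 0 < b ^ t := Real.rpow_pos_of_pos hb t
    calc a ^ t = b ^ (-t) * (a ^ t * b ^ t) := by
          rw [mul_left_comm, h3, mul_one]
      _ ≤ ((96 : ℝ) ^ (-t) * a ^ (-t)) * (a ^ t * b ^ t) :=
          mul_le_mul_of_nonneg_right h1 (by positivity)
      _ = (96 : ℝ) ^ (-t) * (a ^ (-t) * a ^ t) * b ^ t := by ring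
      _ = (96 : ℝ) ^ (-t) * b ^ t := by rw [h2, mul_one]

/-- distortion in a chart -/
theorem one_dist {F : ℂ → ℂ} {V : Set ℂ} (hF : IsConf F HP V) (t : ℝ) {w : ℂ} (hw : w ∈ cell) :
    ‖deriv F w‖ ^ t ≤ (96 : ℝ) ^ |t| * ‖deriv F I‖ ^ t ∧
      ‖deriv F I‖ ^ t ≤ (96 : ℝ) ^ |t| * ‖deriv F w‖ ^ t := by
  have hB : IsConf F (ball I 1) (F '' ball I 1) := hF.restrict isOpen_ball (ball_subset_HP I_mem_cell)
  obtain ⟨h1, h2⟩ := distortion hB (cell_subset_ball hw)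
  have p1 : 0 < ‖deriv F w‖ := norm_pos_iff.mpr (hF.deriv_ne w (cell_subset_HP hw))
  have p2 : 0 < ‖deriv F I‖ := norm_pos_iff.mpr (hF.deriv_ne I (cell_subset_HP I_mem_cell))
  exact ⟨one_rpow p1 p2 h1 h2, one_rpow p2 p1 h2 h1⟩

theorem one_null {P : Measure Conf} {d d' : ℝ} {Γ : Geometry P d d'} {U : Set ℂ} {f : ℂ → ℂ}
    {c : ℂ} {r : ℝ} {z₀ : ℂ} {j : ℤ × ℤ} {G : Conf} (h : ChartOK Γ U f c r z₀ j G) :
    Γ.mu HP (cG c r z₀ j G) HPᶜ = 0 :=
  measure_mono_null (compl_subset_compl.mpr fun _ hz => hz.1) h.measOK.supp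

/-- mass of the image of a subset of the cell -/
theorem one_mass {P : Measure Conf} {d d' : ℝ} {Γ : Geometry P d d'} {U : Set ℂ} {f : ℂ → ℂ}
    {c : ℂ} {r : ℝ} {z₀ : ℂ} {j : ℤ × ℤ} {G : Conf} (h : ChartOK Γ U f c r z₀ j G) {S : Set ℂ}
    (hS : MeasurableSet S) (hSc : S ⊆ cell) :
    Γ.mu HP G (cF c r z₀ j G '' S) =
      ∫⁻ z in S, ENNReal.ofReal (‖deriv (cF c r z₀ j G) z‖ ^ d') ∂(Γ.mu HP (cG c r z₀ j G)) := by
  have hsub : cF c r z₀ j G '' S ⊆ (dom (ball c r) z₀ G : Set ℂ) := by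
    rintro _ ⟨w, hw, rfl⟩
    exact h.conf.mapsTo (cell_subset_HP (hSc hw))
  rw [← covMeas_image h.conf (one_null h) hS (hSc.trans cell_subset_HP), ← h.meas,
    Measure.restrict_eq_self _ hsub]

theorem one_upper {P : Measure Conf} (hP : IsCLE P) {d d' : ℝ} (Γ : Geometry P d d') {c : ℂ} {r : ℝ}
    (hr : 0 < r) (hQ : ball c r ⊆ HP) {z₀ : ℂ} (hz : z₀ ∈ ball c r) (j : ℤ × ℤ) {e : Set Conf}
    {B : Set (Conf × ℂ)} (hB : MeasurableSet B) :
    ∀ᵐ G ∂P, G ∈ good (ball c r) z₀ → dom (ball c r) z₀ G ∈ e →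
      Γ.mu HP G {x | ∃ w ∈ cell, cF c r z₀ j G w = x ∧ (cG c r z₀ j G, w) ∈ B} ≤ ghat Γ c r z₀ j e B G := by
  filter_upwards [chartOK hP Γ one_isConf_id hr hQ hz j] with G hG hg he
  have h := hG hg
  set S : Set ℂ := {w | w ∈ cell ∧ (cG c r z₀ j G, w) ∈ B} with hSdef
  have hS : MeasurableSet S :=
    measurableSet_cell.inter (measurable_prodMk_left hB)
  have hSc : S ⊆ cell := fun w hw => hw.1
  have hset : {x | ∃ w ∈ cell, cF c r z₀ j G w = x ∧ (cG c r z₀ j G, w) ∈ B} =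
      cF c r z₀ j G '' S := by
    ext x
    constructor
    · rintro ⟨w, hw, hx, hB'⟩
      exact ⟨w, ⟨hw, hB'⟩, hx⟩
    · rintro ⟨w, ⟨hw, hB'⟩, hx⟩
      exact ⟨w, hw, hx, hB'⟩
  rw [hset, one_mass h hS hSc, ghat, if_pos ⟨hg, he⟩]
  calc ∫⁻ z in S, ENNReal.ofReal (‖deriv (cF c r z₀ j G) z‖ ^ d') ∂(Γ.mu HP (cG c r z₀ j G))
      ≤ ∫⁻ z in S, ENNReal.ofReal ((96 : ℝ) ^ |d'| * ‖deriv (cF c r z₀ j G) I‖ ^ d')
          ∂(Γ.mu HP (cG c r z₀ j G)) := by
        refine setLIntegral_mono' hS fun z hz' => ?_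
        exact ENNReal.ofReal_le_ofReal (one_dist h.conf d' (hSc hz')).1
    _ = ENNReal.ofReal ((96 : ℝ) ^ |d'| * ‖deriv (cF c r z₀ j G) I‖ ^ d') *
          Γ.mu HP (cG c r z₀ j G) S := by
        rw [setLIntegral_const]
    _ ≤ _ := by
        gcongr
        intro w hw
        exact hw.2

/-- lower bound for the mass of the image of the cell -/
theorem one_lower {P : Measure Conf} {d d' : ℝ} {Γ : Geometry P d d'} {U : Set ℂ} {f : ℂ → ℂ}
    {c : ℂ} {r : ℝ} {z₀ : ℂ} {j : ℤ × ℤ} {G : Conf} (h : ChartOK Γ U f c r z₀ j G) :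
    ENNReal.ofReal (‖deriv (cF c r z₀ j G) I‖ ^ d') * Γ.mu HP (cG c r z₀ j G) cell ≤
      ENNReal.ofReal ((96 : ℝ) ^ |d'|) * Γ.mu HP G (cF c r z₀ j G '' cell) := by
  rw [one_mass h measurableSet_cell le_rfl, ← lintegral_const_mul' _ _ ENNReal.ofReal_ne_top,
    ← setLIntegral_const]
  refine setLIntegral_mono' measurableSet_cell fun z hz' => ?_
  rw [← ENNReal.ofReal_mul (by positivity)]
  exact ENNReal.ofReal_le_ofReal (one_dist h.conf d' hz').2

open Classical in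
/-- the part of the majorant which only depends on the explored domain -/
noncomputable def oneh (d' : ℝ) (z₀ : ℂ) (j : ℤ × ℤ) (e : Set Conf) (V : Conf) : ℝ≥0∞ :=
  if V ∈ e then
    ENNReal.ofReal ((‖deriv (riem z₀ V) (aff j I)‖ * (513 / 512 : ℝ) ^ j.1) ^ d') else 0

theorem aff_I_mem (j : ℤ × ℤ) : aff j I ∈ HP := (aff_isConf j).mapsTo (cell_subset_HP I_mem_cell)

theorem one_aemeas_h {P : Measure Conf} (hP : IsCLE P) (d' : ℝ) {c : ℂ} {r : ℝ}
    (hr : 0 < r) (hQ : ball c r ⊆ HP) {z₀ : ℂ} (hz : z₀ ∈ ball c r) (j : ℤ × ℤ) {e : Set Conf}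
    (he : MeasurableSet e) :
    AEMeasurable (oneh d' z₀ j e) ((P.restrict (good (ball c r) z₀)).map (dom (ball c r) z₀)) := by
  have h1 := hP.riem_meas c r hr hQ z₀ hz (aff j I) (aff_I_mem j)
  have h2 : AEMeasurable (fun V : Conf =>
      ENNReal.ofReal ((‖deriv (riem z₀ V) (aff j I)‖ * (513 / 512 : ℝ) ^ j.1) ^ d'))
      ((P.restrict (good (ball c r) z₀)).map (dom (ball c r) z₀)) :=
    ((h1.mul_const _).pow_const d').ennreal_ofReal
  have h3 : oneh d' z₀ j e = e.indicator (fun V : Conf =>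
      ENNReal.ofReal ((‖deriv (riem z₀ V) (aff j I)‖ * (513 / 512 : ℝ) ^ j.1) ^ d')) := by
    funext V
    by_cases hV : V ∈ e
    · simp [oneh, hV]
    · simp [oneh, hV]
  rw [h3]
  exact h2.indicator he

/-- the derivative of the chart map -/
theorem one_deriv {c : ℂ} {r : ℝ} {z₀ : ℂ} {j : ℤ × ℤ} {G : Conf}
    (h : ∃ φ, IsRiem φ z₀ (dom (ball c r) z₀ G : Set ℂ)) :
    ‖deriv (cF c r z₀ j G) I‖ =
      ‖deriv (riem z₀ (dom (ball c r) z₀ G)) (aff j I)‖ * (513 / 512 : ℝ) ^ j.1 := by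
  have h1 : IsRiem (riem z₀ (dom (ball c r) z₀ G)) z₀ (dom (ball c r) z₀ G : Set ℂ) := by
    rw [riem, dif_pos h]
    exact h.choose_spec
  have h2 := IsConf.deriv_comp (aff_isConf j) h1.1 (cell_subset_HP I_mem_cell)
  rw [show cF c r z₀ j G = fun z => riem z₀ (dom (ball c r) z₀ G) (aff j z) from rfl, h2, norm_mul,
    deriv_aff, Complex.norm_real, Real.norm_of_nonneg (by positivity)]

/-- the law of (explored domain, configuration in the chart), against a product function -/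
theorem one_prod {P : Measure Conf} (hP : IsCLE P) (d' : ℝ) {c : ℂ} {r : ℝ}
    (hr : 0 < r) (hQ : ball c r ⊆ HP) {z₀ : ℂ} (hz : z₀ ∈ ball c r) (j : ℤ × ℤ) {e : Set Conf}
    (he : MeasurableSet e) {k : Conf → ℝ≥0∞} (hk : Measurable k) :
    AEMeasurable (fun G => oneh d' z₀ j e (dom (ball c r) z₀ G) * k (cG c r z₀ j G))
        (P.restrict (good (ball c r) z₀)) ∧
      ∫⁻ G in good (ball c r) z₀, oneh d' z₀ j e (dom (ball c r) z₀ G) * k (cG c r z₀ j G) ∂P =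
        (∫⁻ V, oneh d' z₀ j e V ∂((P.restrict (good (ball c r) z₀)).map (dom (ball c r) z₀))) *
          ∫⁻ G, k G ∂P := by
  have := hP.prob
  have hT := aemeasurable_cG hP hr hQ hz j
  have hl := law_cG hP hr hQ hz j
  have hh := one_aemeas_h hP d' hr hQ hz j he
  have hH : AEMeasurable (fun p : Conf × Conf => oneh d' z₀ j e p.1 * k p.2)
      (((P.restrict (good (ball c r) z₀)).map (dom (ball c r) z₀)).prod P) :=
    (hh.comp_quasiMeasurePreserving Measure.quasiMeasurePreserving_fst).mul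
      (hk.comp measurable_snd).aemeasurable
  have hH' := hH
  rw [← hl] at hH'
  refine ⟨hH'.comp_aemeasurable hT, ?_⟩
  rw [← lintegral_prod_mul hh hk.aemeasurable, ← hl, lintegral_map' hH' hT]

theorem one_ghat_eq {P : Measure Conf} (hP : IsCLE P) {d d' : ℝ} (Γ : Geometry P d d') {c : ℂ} {r : ℝ}
    (hr : 0 < r) (hQ : ball c r ⊆ HP) {z₀ : ℂ} (hz : z₀ ∈ ball c r) (j : ℤ × ℤ) (e : Set Conf)
    (B : Set (Conf × ℂ)) :
    ghat Γ c r z₀ j e B =ᵐ[P] (good (ball c r) z₀).indicator (fun G =>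
      ENNReal.ofReal ((96 : ℝ) ^ |d'|) * (oneh d' z₀ j e (dom (ball c r) z₀ G) *
        Γ.mu HP (cG c r z₀ j G) {w | (cG c r z₀ j G, w) ∈ B})) := by
  filter_upwards [hP.riem_exists c r hr hQ z₀ hz] with G hG
  by_cases hg : G ∈ good (ball c r) z₀
  · rw [indicator_of_mem hg]
    by_cases he : dom (ball c r) z₀ G ∈ e
    · rw [ghat, if_pos ⟨hg, he⟩, oneh, if_pos he, one_deriv (hG hg),
        ENNReal.ofReal_mul (by positivity), mul_assoc]
    · rw [ghat, if_neg (fun h => he h.2), oneh, if_neg he, zero_mul, mul_zero]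
  · rw [indicator_of_notMem hg, ghat, if_neg (fun h => hg h.1)]

theorem aemeasurable_ghat {P : Measure Conf} (hP : IsCLE P) {d d' : ℝ} (Γ : Geometry P d d') {c : ℂ} {r : ℝ}
    (hr : 0 < r) (hQ : ball c r ⊆ HP) {z₀ : ℂ} (hz : z₀ ∈ ball c r) (j : ℤ × ℤ) {e : Set Conf}
    (he : MeasurableSet e) {B : Set (Conf × ℂ)} (hB : MeasurableSet B) :
    AEMeasurable (ghat Γ c r z₀ j e B) P := by
  refine AEMeasurable.congr ?_ (one_ghat_eq hP Γ hr hQ hz j e B).symm
  rw [aemeasurable_indicator_iff₀ (hP.good_meas c r hr hQ z₀ hz)]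
  exact (one_prod hP d' hr hQ hz j he (measurable_section Γ hB)).1.const_mul _

open Classical in
theorem one_int {P : Measure Conf} (hP : IsCLE P) {d d' : ℝ} (Γ : Geometry P d d') {c : ℂ} {r : ℝ}
    (hr : 0 < r) (hQ : ball c r ⊆ HP) {z₀ : ℂ} (hz : z₀ ∈ ball c r) (j : ℤ × ℤ) {e : Set Conf}
    (he : MeasurableSet e) {B : Set (Conf × ℂ)} (hB : MeasurableSet B) :
    (∫⁻ G, ghat Γ c r z₀ j e B G ∂P) * (∫⁻ G, Γ.mu HP G cell ∂P) ≤
      ENNReal.ofReal ((96 : ℝ) ^ (2 * |d'|)) * (∫⁻ G, Γ.mu HP G {w | (G, w) ∈ B} ∂P) *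
        ∫⁻ G, (if G ∈ good (ball c r) z₀ ∧ dom (ball c r) z₀ G ∈ e then
          Γ.mu HP G (cF c r z₀ j G '' cell) else 0) ∂P := by
  have hgm := hP.good_meas c r hr hQ z₀ hz
  set J : ℝ≥0∞ := ∫⁻ V, oneh d' z₀ j e V ∂((P.restrict (good (ball c r) z₀)).map (dom (ball c r) z₀))
  set A : ℝ≥0∞ := ∫⁻ G, Γ.mu HP G {w | (G, w) ∈ B} ∂P
  set K : ℝ≥0∞ := ENNReal.ofReal ((96 : ℝ) ^ |d'|) with hK
  have h1 : ∫⁻ G, ghat Γ c r z₀ j e B G ∂P = K * (J * A) := by
    rw [lintegral_congr_ae (one_ghat_eq hP Γ hr hQ hz j e B), lintegral_indicator₀ hgm,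
      lintegral_const_mul' _ _ ENNReal.ofReal_ne_top,
      (one_prod hP d' hr hQ hz j he (measurable_section Γ hB)).2]
  have h2 : J * ∫⁻ G, Γ.mu HP G cell ∂P ≤ K * ∫⁻ G, (if G ∈ good (ball c r) z₀ ∧ dom (ball c r) z₀ G ∈ e then
          Γ.mu HP G (cF c r z₀ j G '' cell) else 0) ∂P := by
    rw [← (one_prod hP d' hr hQ hz j he (k := fun G => Γ.mu HP G cell)
      ((Γ.mu HP).measurable_coe measurableSet_cell)).2, ← lintegral_indicator₀ hgm,
      ← lintegral_const_mul' _ _ ENNReal.ofReal_ne_top]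
    refine lintegral_mono_ae ?_
    filter_upwards [chartOK hP Γ one_isConf_id hr hQ hz j, hP.riem_exists c r hr hQ z₀ hz] with G hG hG'
    by_cases hg : G ∈ good (ball c r) z₀
    · rw [indicator_of_mem hg]
      by_cases he' : dom (ball c r) z₀ G ∈ e
      · rw [if_pos ⟨hg, he'⟩, oneh, if_pos he', ← one_deriv (hG' hg)]
        exact one_lower (hG hg)
      · rw [oneh, if_neg he', zero_mul]
        exact bot_le
    · rw [indicator_of_notMem hg]
      exact bot_le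
  have h3 : ENNReal.ofReal ((96 : ℝ) ^ (2 * |d'|)) = K * K := by
    rw [hK, ← ENNReal.ofReal_mul (by positivity), ← Real.rpow_add (by norm_num), two_mul]
  rw [h1, h3]
  calc K * (J * A) * ∫⁻ G, Γ.mu HP G cell ∂P = K * A * (J * ∫⁻ G, Γ.mu HP G cell ∂P) := by ring
    _ ≤ K * A * (K * _) := by gcongr
    _ = _ := by ring

end Pool.H25.CLE
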