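import Pool.Agent.H25.CLE.Gsum
import Pool.Agent.H25.CLE.Dom

/-! MODULE SUMA (MP_5d7c93_pr, project CLE of helper25; overview /team-store/H25_CLE.md)
Sum over all charts of level k which meet KK R. firstEv i = {V | zseq m ∉ V for all m < i} is measurable (generator with K = {z}).
sum_int: for each admissible (p,i,j) one_int; sum over j: the sets cF '' cell, j ∈ ℤ², are disjoint measurable subsets of V = dom (cF = riem ∘ aff, riem injective on HP, cell_disj) so Σ_j mu(cF '' cell) ≤ mu(V);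
sum over i: the sets V = dom Q (zseq i) G with G ∈ good, zseq i ∈ Q, first index i, are disjoint open subsets of the disc (dom_unique, dom_subset), so Σ_i ≤ mu(disc); sum over p: the discs are contained in KKp R (k ≥ k₀(R), disc_subset)
and disc_mult gives 4 mu(KKp R). (For a.e. G: chartOK for all the charts (U = HP, f = id), loops.)
Left side: ∫ gsum = Σ ∫ ghat (lintegral_tsum, aemeasurable_ghat). Right side: only superadditivity Σ_i ∫⁻ f_i ≤ ∫⁻ Σ_i f_i is needed (true for arbitrary functions: le_lintegral_add, finite sums, supremum). -/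

set_option autoImplicit false

namespace Pool.H25.CLE

open MeasureTheory ProbabilityTheory Set Metric Complex
open scoped ENNReal

theorem measurableSet_firstEv (i : ℕ) : MeasurableSet (firstEv i) := by
  have h : firstEv i = ⋂ m : ℕ, ⋂ _ : m < i, {V : Conf | ({zseq m} : Set ℂ) ⊆ (V : Set ℂ)}ᶜ := by
    ext V
    simp [firstEv]
  rw [h]
  refine MeasurableSet.iInter fun m => MeasurableSet.iInter fun _ => MeasurableSet.compl ?_
  exact MeasurableSpace.measurableSet_generateFrom ⟨{zseq m}, isCompact_singleton, rfl⟩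

theorem suma_tsum_lintegral_le {α ι : Type*} [MeasurableSpace α] (μ : Measure α) (f : ι → α → ℝ≥0∞) :
    ∑' i, ∫⁻ a, f i a ∂μ ≤ ∫⁻ a, ∑' i, f i a ∂μ := by
  rw [ENNReal.tsum_eq_iSup_sum]
  refine iSup_le fun s => ?_
  calc ∑ i ∈ s, ∫⁻ a, f i a ∂μ ≤ ∫⁻ a, ∑ i ∈ s, f i a ∂μ := by
        classical
        induction s using Finset.induction_on with
        | empty => simp
        | insert i s hi ih =>
          rw [Finset.sum_insert hi]
          simp_rw [Finset.sum_insert hi]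
          exact (add_le_add le_rfl ih).trans (le_lintegral_add _ _)
    _ ≤ _ := lintegral_mono fun a => ENNReal.sum_le_tsum s

/-- the level from which everything works -/
theorem suma_level (R : ℕ) : ∃ k₀ : ℕ, ∀ k ≥ k₀, ∀ p : ℤ × ℤ, (ball (ctr k p) (rad k) ∩ KK R).Nonempty →
    ball (ctr k p) (rad k) ⊆ KKp R ∧ ball (ctr k p) (rad k) ⊆ HP := by
  obtain ⟨k₀, hk₀⟩ := disc_subset R
  exact ⟨k₀, fun k hk p hp => ⟨hk₀ k hk p hp, (hk₀ k hk p hp).trans (KKp_subset R)⟩⟩

theorem suma_aem {P : Measure Conf} (hP : IsCLE P) {d d' : ℝ} (Γ : Geometry P d d') {R k : ℕ}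
    (hk : ∀ p : ℤ × ℤ, (ball (ctr k p) (rad k) ∩ KK R).Nonempty →
      ball (ctr k p) (rad k) ⊆ KKp R ∧ ball (ctr k p) (rad k) ⊆ HP)
    {B : Set (Conf × ℂ)} (hB : MeasurableSet B) (p : ℤ × ℤ) (i : ℕ) (j : ℤ × ℤ) [Decidable
      ((ball (ctr k p) (rad k) ∩ KK R).Nonempty ∧ zseq i ∈ ball (ctr k p) (rad k))] :
    AEMeasurable (fun G => if (ball (ctr k p) (rad k) ∩ KK R).Nonempty ∧ zseq i ∈ ball (ctr k p) (rad k) then
      ghat Γ (ctr k p) (rad k) (zseq i) j (firstEv i) B G else 0) P := by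
  by_cases h : (ball (ctr k p) (rad k) ∩ KK R).Nonempty ∧ zseq i ∈ ball (ctr k p) (rad k)
  · simp only [h, and_self, if_true]
    exact aemeasurable_ghat hP Γ (rad_pos k) (hk p h.1).2 h.2 j (measurableSet_firstEv i) hB
  · simp only [h, if_false]
    exact aemeasurable_const

theorem aemeasurable_gsum {P : Measure Conf} (hP : IsCLE P) {d d' : ℝ} (Γ : Geometry P d d') (R : ℕ) :
    ∃ k₀ : ℕ, ∀ k ≥ k₀, ∀ B : Set (Conf × ℂ), MeasurableSet B → AEMeasurable (gsum Γ R k B) P := by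
  obtain ⟨k₀, hk₀⟩ := suma_level R
  refine ⟨k₀, fun k hk B hB => ?_⟩
  have hk' := hk₀ k hk
  classical
  unfold gsum
  refine AEMeasurable.tsum fun p => AEMeasurable.tsum fun i => AEMeasurable.tsum fun j => ?_
  exact suma_aem hP Γ hk' hB p i j

theorem suma_riem {z₀ : ℂ} {V : Conf} (h : ∃ φ, IsRiem φ z₀ (V : Set ℂ)) : IsConf (riem z₀ V) HP (V : Set ℂ) := by
  have : riem z₀ V = h.choose := by
    unfold riem
    rw [dif_pos h]
  rw [this]
  exact h.choose_spec.1

/-- sum over the cells -/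
theorem suma_cells {c : ℂ} {r : ℝ} {z₀ : ℂ} {G : Conf} (h : ∃ φ, IsRiem φ z₀ (dom (ball c r) z₀ G : Set ℂ))
    (m : Measure ℂ) :
    ∑' j : ℤ × ℤ, m (cF c r z₀ j G '' cell) ≤ m (dom (ball c r) z₀ G : Set ℂ) := by
  have hφ := suma_riem h
  have hconf : ∀ j, IsConf (cF c r z₀ j G) HP (dom (ball c r) z₀ G : Set ℂ) := fun j =>
    (aff_isConf j).comp hφ
  rw [← measure_iUnion]
  · refine measure_mono (iUnion_subset fun j => ?_)
    rintro _ ⟨w, hw, rfl⟩
    exact (hconf j).mapsTo (cell_subset_HP hw)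
  · intro j j' hjj'
    rw [Function.onFun, Set.disjoint_left]
    rintro _ ⟨w, hw, rfl⟩ ⟨w', hw', h'⟩
    apply hjj'
    have h1 : aff j' w' = aff j w :=
      hφ.inj ((aff_isConf j').mapsTo (cell_subset_HP hw')) ((aff_isConf j).mapsTo (cell_subset_HP hw)) h'
    exact cell_disj hw hw' h1.symm
  · intro j
    exact measurableSet_cell.image_of_continuousOn_injOn
      ((hconf j).diff.continuousOn.mono cell_subset_HP) ((hconf j).inj.mono cell_subset_HP)

open Classical in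
/-- sum over the base points -/
theorem suma_base {G : Conf} (hG : IsLoopConf G) {c : ℂ} {r : ℝ} (hQ : ball c r ⊆ HP) (m : Measure ℂ) :
    ∑' i : ℕ, (if zseq i ∈ ball c r ∧ G ∈ good (ball c r) (zseq i) ∧ dom (ball c r) (zseq i) G ∈ firstEv i then
      m (dom (ball c r) (zseq i) G : Set ℂ) else 0) ≤ m (ball c r) := by
  set A : ℕ → Set ℂ := fun i =>
    if zseq i ∈ ball c r ∧ G ∈ good (ball c r) (zseq i) ∧ dom (ball c r) (zseq i) G ∈ firstEv i then
      (dom (ball c r) (zseq i) G : Set ℂ) else ∅ with hA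
  have h1 : ∀ i, (if zseq i ∈ ball c r ∧ G ∈ good (ball c r) (zseq i) ∧ dom (ball c r) (zseq i) G ∈ firstEv i then
      m (dom (ball c r) (zseq i) G : Set ℂ) else 0) = m (A i) := by
    intro i
    by_cases h : zseq i ∈ ball c r ∧ G ∈ good (ball c r) (zseq i) ∧ dom (ball c r) (zseq i) G ∈ firstEv i
    · simp only [hA, if_pos h]
    · simp only [hA, if_neg h, measure_empty]
  simp only [h1]
  rw [← measure_iUnion]
  · refine measure_mono (iUnion_subset fun i => ?_)
    intro x hx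
    by_cases h : zseq i ∈ ball c r ∧ G ∈ good (ball c r) (zseq i) ∧ dom (ball c r) (zseq i) G ∈ firstEv i
    · simp only [hA, if_pos h] at hx
      exact dom_subset _ _ _ hx
    · simp only [hA, if_neg h, mem_empty_iff_false] at hx
  · intro i i' hii'
    rw [Function.onFun, Set.disjoint_left]
    intro x hx hx'
    by_cases h : zseq i ∈ ball c r ∧ G ∈ good (ball c r) (zseq i) ∧ dom (ball c r) (zseq i) G ∈ firstEv i
    swap
    · simp only [hA, if_neg h, mem_empty_iff_false] at hx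
    by_cases h' : zseq i' ∈ ball c r ∧ G ∈ good (ball c r) (zseq i') ∧ dom (ball c r) (zseq i') G ∈ firstEv i'
    swap
    · simp only [hA, if_neg h', mem_empty_iff_false] at hx'
    simp only [hA, if_pos h] at hx
    simp only [hA, if_pos h'] at hx'
    exact hii' (dom_unique hG hQ ⟨h.1, h.2.1⟩ ⟨h'.1, h'.2.1⟩ hx hx' h.2.2 h'.2.2)
  · intro i
    by_cases h : zseq i ∈ ball c r ∧ G ∈ good (ball c r) (zseq i) ∧ dom (ball c r) (zseq i) G ∈ firstEv i
    · simp only [hA, if_pos h]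
      exact (dom (ball c r) (zseq i) G).isOpen.measurableSet
    · simp only [hA, if_neg h, MeasurableSet.empty]

open Classical in
/-- the mass seen in one chart, with the conditions on the chart -/
noncomputable def sumaH {P : Measure Conf} {d d' : ℝ} (Γ : Geometry P d d') (R k : ℕ) (p : ℤ × ℤ) (i : ℕ)
    (j : ℤ × ℤ) (G : Conf) : ℝ≥0∞ :=
  if (ball (ctr k p) (rad k) ∩ KK R).Nonempty ∧ zseq i ∈ ball (ctr k p) (rad k) then
    (if G ∈ good (ball (ctr k p) (rad k)) (zseq i) ∧ dom (ball (ctr k p) (rad k)) (zseq i) G ∈ firstEv i then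
      Γ.mu HP G (cF (ctr k p) (rad k) (zseq i) j G '' cell) else 0) else 0

theorem suma_pointwise {P : Measure Conf} (hP : IsCLE P) {d d' : ℝ} (Γ : Geometry P d d') {R k : ℕ}
    (hk : ∀ p : ℤ × ℤ, (ball (ctr k p) (rad k) ∩ KK R).Nonempty →
      ball (ctr k p) (rad k) ⊆ KKp R ∧ ball (ctr k p) (rad k) ⊆ HP) :
    ∀ᵐ G ∂P, ∑' p : ℤ × ℤ, ∑' i : ℕ, ∑' j : ℤ × ℤ, sumaH Γ R k p i j G ≤ 4 * Γ.mu HP G (KKp R) := by
  classical
  have hriem : ∀ᵐ G ∂P, ∀ (p : ℤ × ℤ) (i : ℕ), (ball (ctr k p) (rad k) ∩ KK R).Nonempty →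
      zseq i ∈ ball (ctr k p) (rad k) → G ∈ good (ball (ctr k p) (rad k)) (zseq i) →
        ∃ φ, IsRiem φ (zseq i) (dom (ball (ctr k p) (rad k)) (zseq i) G : Set ℂ) := by
    rw [ae_all_iff]
    intro p
    rw [ae_all_iff]
    intro i
    by_cases h1 : (ball (ctr k p) (rad k) ∩ KK R).Nonempty
    · by_cases h2 : zseq i ∈ ball (ctr k p) (rad k)
      · filter_upwards [hP.riem_exists (ctr k p) (rad k) (rad_pos k) (hk p h1).2 (zseq i) h2] with G hG _ _
        exact hG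
      · exact Filter.Eventually.of_forall fun G _ h => absurd h h2
    · exact Filter.Eventually.of_forall fun G h => absurd h h1
  filter_upwards [hriem, hP.loops] with G hG hloop
  refine le_trans ?_ (disc_mult k (Γ.mu HP G) (KKp R) (isCompact_KKp R).measurableSet)
  refine ENNReal.tsum_le_tsum fun p => ?_
  by_cases h1 : (ball (ctr k p) (rad k) ∩ KK R).Nonempty
  · rw [if_pos (hk p h1).1]
    refine le_trans ?_ (suma_base hloop (hk p h1).2 (Γ.mu HP G))
    refine ENNReal.tsum_le_tsum fun i => ?_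
    by_cases h2 : zseq i ∈ ball (ctr k p) (rad k)
    · by_cases h3 : G ∈ good (ball (ctr k p) (rad k)) (zseq i) ∧
        dom (ball (ctr k p) (rad k)) (zseq i) G ∈ firstEv i
      · rw [if_pos ⟨h2, h3⟩]
        refine le_trans (ENNReal.tsum_le_tsum fun j => ?_) (suma_cells (hG p i h1 h2 h3.1) (Γ.mu HP G))
        rw [sumaH, if_pos ⟨h1, h2⟩, if_pos h3]
      · have : ∀ j, sumaH Γ R k p i j G = 0 := fun j => by
          rw [sumaH, if_pos ⟨h1, h2⟩, if_neg h3]
        simp [this]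
    · have : ∀ j, sumaH Γ R k p i j G = 0 := fun j => by
        rw [sumaH, if_neg (fun h => h2 h.2)]
      simp [this]
  · have : ∀ i j, sumaH Γ R k p i j G = 0 := fun i j => by
      rw [sumaH, if_neg (fun h => h1 h.1)]
    simp [this]

theorem sum_int {P : Measure Conf} (hP : IsCLE P) {d d' : ℝ} (Γ : Geometry P d d') (R : ℕ) :
    ∃ k₀ : ℕ, ∀ k ≥ k₀, ∀ B : Set (Conf × ℂ), MeasurableSet B →
      (∫⁻ G, gsum Γ R k B G ∂P) * (∫⁻ G, Γ.mu HP G cell ∂P) ≤
        ENNReal.ofReal ((96 : ℝ) ^ (2 * |d'|)) * (∫⁻ G, Γ.mu HP G {w | (G, w) ∈ B} ∂P) *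
          (4 * ∫⁻ G, Γ.mu HP G (KKp R) ∂P) := by
  classical
  obtain ⟨k₀, hk₀⟩ := suma_level R
  refine ⟨k₀, fun k hk B hB => ?_⟩
  have hk' := hk₀ k hk
  set a₀ : ℝ≥0∞ := ∫⁻ G, Γ.mu HP G cell ∂P with ha₀
  set C : ℝ≥0∞ := ENNReal.ofReal ((96 : ℝ) ^ (2 * |d'|)) * (∫⁻ G, Γ.mu HP G {w | (G, w) ∈ B} ∂P) with hC
  have h1 : ∫⁻ G, gsum Γ R k B G ∂P = ∑' p : ℤ × ℤ, ∑' i : ℕ, ∑' j : ℤ × ℤ,
      ∫⁻ G, (if (ball (ctr k p) (rad k) ∩ KK R).Nonempty ∧ zseq i ∈ ball (ctr k p) (rad k) then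
      ghat Γ (ctr k p) (rad k) (zseq i) j (firstEv i) B G else 0) ∂P := by
    unfold gsum
    rw [lintegral_tsum fun p => AEMeasurable.tsum fun i => AEMeasurable.tsum fun j =>
      suma_aem hP Γ hk' hB p i j]
    refine tsum_congr fun p => ?_
    rw [lintegral_tsum fun i => AEMeasurable.tsum fun j => suma_aem hP Γ hk' hB p i j]
    refine tsum_congr fun i => ?_
    rw [lintegral_tsum fun j => suma_aem hP Γ hk' hB p i j]
  have h2 : ∀ (p : ℤ × ℤ) (i : ℕ) (j : ℤ × ℤ),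
      (∫⁻ G, (if (ball (ctr k p) (rad k) ∩ KK R).Nonempty ∧ zseq i ∈ ball (ctr k p) (rad k) then
      ghat Γ (ctr k p) (rad k) (zseq i) j (firstEv i) B G else 0) ∂P) * a₀ ≤
        C * ∫⁻ G, sumaH Γ R k p i j G ∂P := by
    intro p i j
    by_cases h : (ball (ctr k p) (rad k) ∩ KK R).Nonempty ∧ zseq i ∈ ball (ctr k p) (rad k)
    · simp only [sumaH, if_pos h]
      exact one_int hP Γ (rad_pos k) (hk' p h.1).2 h.2 j (measurableSet_firstEv i) hB
    · simp only [if_neg h, lintegral_zero, zero_mul, zero_le]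
  calc (∫⁻ G, gsum Γ R k B G ∂P) * a₀
      = ∑' p : ℤ × ℤ, ∑' i : ℕ, ∑' j : ℤ × ℤ,
        (∫⁻ G, (if (ball (ctr k p) (rad k) ∩ KK R).Nonempty ∧ zseq i ∈ ball (ctr k p) (rad k) then
        ghat Γ (ctr k p) (rad k) (zseq i) j (firstEv i) B G else 0) ∂P) * a₀ := by
        rw [h1, ← ENNReal.tsum_mul_right]
        refine tsum_congr fun p => ?_
        rw [← ENNReal.tsum_mul_right]
        refine tsum_congr fun i => ?_
        rw [← ENNReal.tsum_mul_right]
    _ ≤ ∑' p : ℤ × ℤ, ∑' i : ℕ, ∑' j : ℤ × ℤ, C * ∫⁻ G, sumaH Γ R k p i j G ∂P :=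
        ENNReal.tsum_le_tsum fun p => ENNReal.tsum_le_tsum fun i => ENNReal.tsum_le_tsum fun j => h2 p i j
    _ = C * ∑' p : ℤ × ℤ, ∑' i : ℕ, ∑' j : ℤ × ℤ, ∫⁻ G, sumaH Γ R k p i j G ∂P := by
        simp only [ENNReal.tsum_mul_left]
    _ ≤ C * ∫⁻ G, ∑' p : ℤ × ℤ, ∑' i : ℕ, ∑' j : ℤ × ℤ, sumaH Γ R k p i j G ∂P := by
        refine mul_le_mul_right ?_ C
        refine le_trans (ENNReal.tsum_le_tsum fun p => ?_) (suma_tsum_lintegral_le P _)
        refine le_trans (ENNReal.tsum_le_tsum fun i => ?_) (suma_tsum_lintegral_le P _)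
        exact suma_tsum_lintegral_le P _
    _ ≤ C * ∫⁻ G, 4 * Γ.mu HP G (KKp R) ∂P := by
        refine mul_le_mul_right ?_ C
        exact lintegral_mono_ae (suma_pointwise hP Γ hk')
    _ = C * (4 * ∫⁻ G, Γ.mu HP G (KKp R) ∂P) := by
        rw [lintegral_const_mul _ ((Γ.mu HP).measurable_coe (isCompact_KKp R).measurableSet)]

end Pool.H25.CLE
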